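import Pool.Agent.H30.Basic

/-!
The Markov chain describing a pair of 3x+1 trajectories `m`, `3^d m + β`,
and the counting lemma which compares the chain with integers in intervals.
-/

set_option autoImplicit false

namespace Pool.Agent.H30.Co

open Pool.Agent.H30

/-- Transition of the pair `(m, 3^d m + β)` if `m` is even. -/
def nx0 (s : ℕ × ℤ) : ℕ × ℤ :=
  if s.2 % 2 = 0 then (s.1, s.2 / 2) else (s.1 + 1, (3 * s.2 + 1) / 2)

/-- Transition of the pair `(m, 3^d m + β)` if `m` is odd. -/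
def nx1 (s : ℕ × ℤ) : ℕ × ℤ :=
  if s.2 % 2 = 0 then (s.1, (3 * s.2 + 1 - 3 ^ s.1) / 2)
  else if s.1 = 0 then (1, (1 - 3 * s.2) / 2)
  else (s.1 - 1, (s.2 - 3 ^ (s.1 - 1)) / 2)

/-- Probability that the chain started at `s` is not at `(0,0)` at time `K`. -/
noncomputable def a : ℕ → ℕ × ℤ → ℝ
  | 0, s => if s = (0, 0) then 0 else 1
  | K + 1, s => (a K (nx0 s) + a K (nx1 s)) / 2

/-- `m` and `m'` do not meet within `K` steps. -/
def NM (K : ℕ) (m m' : ℤ) : Prop := ∀ k ≤ K, T^[k] m ≠ T^[k] m'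

lemma NM.symm {K : ℕ} {m m' : ℤ} (h : NM K m m') : NM K m' m := fun k hk => (h k hk).symm

lemma NM.succ {K : ℕ} {m m' : ℤ} (h : NM (K + 1) m m') : NM K (T m) (T m') := by
  intro k hk
  have := h (k + 1) (by omega)
  rwa [Function.iterate_succ_apply, Function.iterate_succ_apply] at this

lemma step0 (s : ℕ × ℤ) (m : ℤ) (hm : m % 2 = 0) :
    T (3 ^ s.1 * m + s.2) = 3 ^ (nx0 s).1 * T m + (nx0 s).2 := by
  obtain ⟨d, β⟩ := s
  obtain ⟨i, hi⟩ : ∃ i, m = 2 * i := ⟨m / 2, by omega⟩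
  subst hi
  have e1 : (3:ℤ) ^ d * (2 * i) = 2 * (3 ^ d * i) := by ring
  have hT : T (2 * i) = i := by unfold T; split_ifs <;> omega
  rcases Int.emod_two_eq_zero_or_one β with h | h
  · simp only [nx0, h, if_true]
    rw [e1, hT]
    have : T (2 * (3 ^ d * i) + β) = 3 ^ d * i + β / 2 := by
      unfold T; split_ifs <;> omega
    exact this
  · have h' : ¬ (β % 2 = 0) := by omega
    simp only [nx0, h', if_false]
    rw [e1, hT]
    have : T (2 * (3 ^ d * i) + β) = 3 * (3 ^ d * i) + (3 * β + 1) / 2 := by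
      unfold T; split_ifs <;> omega
    rw [this]; ring

lemma step1 (s : ℕ × ℤ) (m : ℤ) (hm : m % 2 = 1) (hs : ¬ (s.2 % 2 = 1 ∧ s.1 = 0)) :
    T (3 ^ s.1 * m + s.2) = 3 ^ (nx1 s).1 * T m + (nx1 s).2 := by
  obtain ⟨d, β⟩ := s
  simp only at hs ⊢
  obtain ⟨i, hi⟩ : ∃ i, m = 2 * i + 1 := ⟨m / 2, by omega⟩
  subst hi
  have hT : T (2 * i + 1) = 3 * i + 2 := by unfold T; split_ifs <;> omega
  have ho := three_pow_mod_two d
  rcases Int.emod_two_eq_zero_or_one β with h | h
  · simp only [nx1, h, if_true]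
    rw [hT]
    obtain ⟨P, hP⟩ : ∃ P, (3:ℤ) ^ d = P := ⟨_, rfl⟩
    obtain ⟨Q, hQ⟩ : ∃ Q, P * i = Q := ⟨_, rfl⟩
    rw [hP] at ho ⊢
    have e1 : P * (2 * i + 1) + β = 2 * Q + P + β := by rw [← hQ]; ring
    have e2 : P * (3 * i + 2) = 3 * Q + 2 * P := by rw [← hQ]; ring
    rw [e1, e2]
    unfold T; split_ifs <;> omega
  · have h' : ¬ (β % 2 = 0) := by omega
    have hd : d ≠ 0 := fun h0 => hs ⟨h, h0⟩
    simp only [nx1, h', if_false, hd]
    rw [hT]
    obtain ⟨d', rfl⟩ : ∃ d', d = d' + 1 := ⟨d - 1, by omega⟩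
    have ho' := three_pow_mod_two d'
    simp only [Nat.add_sub_cancel]
    rw [pow_succ]
    obtain ⟨P, hP⟩ : ∃ P, (3:ℤ) ^ d' = P := ⟨_, rfl⟩
    obtain ⟨Q, hQ⟩ : ∃ Q, P * i = Q := ⟨_, rfl⟩
    rw [hP] at ho' ⊢
    have e1 : P * 3 * (2 * i + 1) + β = 6 * Q + 3 * P + β := by rw [← hQ]; ring
    have e2 : P * (3 * i + 2) = 3 * Q + 2 * P := by rw [← hQ]; ring
    rw [e1, e2]
    unfold T; split_ifs <;> omega

lemma step1' (β m : ℤ) (hm : m % 2 = 1) (hβ : β % 2 = 1) :
    T m = 3 * T (m + β) + (1 - 3 * β) / 2 := by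
  unfold T; split_ifs <;> omega

lemma a_succ (K : ℕ) (s : ℕ × ℤ) : a (K + 1) s = (a K (nx0 s) + a K (nx1 s)) / 2 := rfl

lemma a_zero (s : ℕ × ℤ) : a 0 s = if s = (0, 0) then 0 else 1 := rfl

lemma a_nonneg (K : ℕ) : ∀ s, 0 ≤ a K s := by
  induction K with
  | zero => intro s; rw [a_zero]; split_ifs <;> norm_num
  | succ K ih => intro s; rw [a_succ]; have := ih (nx0 s); have := ih (nx1 s); linarith

lemma a_le_one (K : ℕ) : ∀ s, a K s ≤ 1 := by
  induction K with
  | zero => intro s; rw [a_zero]; split_ifs <;> norm_num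
  | succ K ih => intro s; rw [a_succ]; have := ih (nx0 s); have := ih (nx1 s); linarith

lemma nx0_zero : nx0 (0, 0) = (0, 0) := by simp [nx0]

lemma nx1_zero : nx1 (0, 0) = (0, 0) := by simp [nx1]

lemma a_absorb (K : ℕ) : a K (0, 0) = 0 := by
  induction K with
  | zero => simp [a_zero]
  | succ K ih => rw [a_succ, nx0_zero, nx1_zero, ih]; norm_num

lemma a_anti_succ (K : ℕ) : ∀ s, a (K + 1) s ≤ a K s := by
  induction K with
  | zero =>
    intro s
    by_cases hs : s = (0, 0)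
    · rw [hs, a_absorb, a_absorb]
    · rw [a_zero, if_neg hs]; exact a_le_one _ _
  | succ K ih =>
    intro s
    rw [a_succ (K + 1) s, a_succ K s]
    have := ih (nx0 s); have := ih (nx1 s); linarith

/-! ### Counting -/

open Classical in
/-- number of `j ∈ [u,v)` with property `P` -/
noncomputable def cnt (P : ℤ → Prop) (u v : ℤ) : ℕ := ((Finset.Ico u v).filter P).card

lemma cnt_mono {P Q : ℤ → Prop} {u v : ℤ} (h : ∀ j, u ≤ j → j < v → P j → Q j) :
    cnt P u v ≤ cnt Q u v := by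
  classical
  unfold cnt
  apply Finset.card_le_card
  intro j hj
  rw [Finset.mem_filter, Finset.mem_Ico] at *
  exact ⟨hj.1, h j hj.1.1 hj.1.2 hj.2⟩

lemma cnt_le (P : ℤ → Prop) (u v : ℤ) (h : u ≤ v) : (cnt P u v : ℝ) ≤ v - u := by
  classical
  have : cnt P u v ≤ (v - u).toNat := by
    unfold cnt
    refine (Finset.card_filter_le _ _).trans ?_
    simp
  have h2 : ((v - u).toNat : ℤ) = v - u := Int.toNat_of_nonneg (by omega)
  have h3 : ((v - u).toNat : ℝ) = (v:ℝ) - u := by exact_mod_cast congrArg (Int.cast : ℤ → ℝ) h2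
  rw [← h3]; exact_mod_cast this

lemma cnt_split (P : ℤ → Prop) (u v : ℤ) :
    cnt P u v = cnt (fun i => P (2 * i)) ((u + 1) / 2) ((v + 1) / 2)
      + cnt (fun i => P (2 * i + 1)) (u / 2) (v / 2) := by
  classical
  unfold cnt
  have h0 : ((Finset.Ico ((u + 1) / 2) ((v + 1) / 2)).filter (fun i => P (2 * i))).card
      = (((Finset.Ico u v).filter P).filter (fun j => j % 2 = 0)).card := by
    refine Finset.card_bij (fun i _ => 2 * i) ?_ ?_ ?_
    · intro i hi
      simp only [Finset.mem_filter, Finset.mem_Ico] at hi ⊢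
      refine ⟨⟨⟨by omega, by omega⟩, hi.2⟩, by omega⟩
    · intro i _ i' _ h; omega
    · intro j hj
      simp only [Finset.mem_filter, Finset.mem_Ico] at hj
      refine ⟨j / 2, ?_, by omega⟩
      simp only [Finset.mem_filter, Finset.mem_Ico]
      have e : 2 * (j / 2) = j := by omega
      refine ⟨⟨by omega, by omega⟩, by rw [e]; exact hj.1.2⟩
  have h1 : ((Finset.Ico (u / 2) (v / 2)).filter (fun i => P (2 * i + 1))).card
      = (((Finset.Ico u v).filter P).filter (fun j => ¬ (j % 2 = 0))).card := by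
    refine Finset.card_bij (fun i _ => 2 * i + 1) ?_ ?_ ?_
    · intro i hi
      simp only [Finset.mem_filter, Finset.mem_Ico] at hi ⊢
      refine ⟨⟨⟨by omega, by omega⟩, hi.2⟩, by omega⟩
    · intro i _ i' _ h; omega
    · intro j hj
      simp only [Finset.mem_filter, Finset.mem_Ico] at hj
      refine ⟨j / 2, ?_, by omega⟩
      simp only [Finset.mem_filter, Finset.mem_Ico]
      have e : 2 * (j / 2) + 1 = j := by omega
      refine ⟨⟨by omega, by omega⟩, by rw [e]; exact hj.1.2⟩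
  rw [h0, h1, Finset.card_filter_add_card_filter_not]

/-- combination step of the counting lemma -/
lemma comb {a0 a1 C : ℝ} (ha0 : 0 ≤ a0) (ha0' : a0 ≤ 1) (ha1 : 0 ≤ a1) (ha1' : a1 ≤ 1)
    {c0 c1 : ℝ} {u v : ℤ} (huv : u ≤ v)
    (h0 : c0 ≤ a0 * (((v + 1) / 2 : ℤ) - ((u + 1) / 2 : ℤ)) + C ∧
          c1 ≤ a1 * ((v / 2 : ℤ) - (u / 2 : ℤ)) + C ∨
          c0 ≤ a1 * (((v + 1) / 2 : ℤ) - ((u + 1) / 2 : ℤ)) + C ∧
          c1 ≤ a0 * ((v / 2 : ℤ) - (u / 2 : ℤ)) + C) :
    c0 + c1 ≤ (a0 + a1) / 2 * (v - u) + (2 * C + 1 / 2) := by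
  obtain ⟨x, hx⟩ : ∃ x : ℤ, x = (v + 1) / 2 - (u + 1) / 2 := ⟨_, rfl⟩
  obtain ⟨y, hy⟩ : ∃ y : ℤ, y = v / 2 - u / 2 := ⟨_, rfl⟩
  have hxy : x + y = v - u := by omega
  have h1 : 2 * x - (v - u) ≤ 1 := by omega
  have h2 : -1 ≤ 2 * x - (v - u) := by omega
  have hxy' : (x:ℝ) + y = v - u := by exact_mod_cast hxy
  have h1' : 2 * (x:ℝ) - (v - u) ≤ 1 := by exact_mod_cast h1
  have h2' : -1 ≤ 2 * (x:ℝ) - (v - u) := by exact_mod_cast h2
  have ex : (((v + 1) / 2 : ℤ) : ℝ) - ((u + 1) / 2 : ℤ) = x := by rw [hx]; push_cast; ring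
  have ey : ((v / 2 : ℤ) : ℝ) - (u / 2 : ℤ) = y := by rw [hy]; push_cast; ring
  rw [ex, ey] at h0
  have hy' : (y:ℝ) = v - u - x := by linarith
  obtain ⟨L, hL⟩ : ∃ L : ℝ, L = v - u := ⟨_, rfl⟩
  rw [← hL] at h1' h2' hy' ⊢
  obtain ⟨t, ht⟩ : ∃ t : ℝ, t = 2 * x - L := ⟨_, rfl⟩
  have hx2 : (x:ℝ) = L / 2 + t / 2 := by linarith
  rw [← ht] at h1' h2'
  rw [hy', hx2] at h0
  rcases h0 with ⟨p, q⟩ | ⟨p, q⟩
  · nlinarith
  · nlinarith

theorem count (K : ℕ) : ∀ (s : ℕ × ℤ) (α γ : ℤ), α % 2 = 1 → ∀ (u v : ℤ), u ≤ v →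
    (cnt (fun j => NM K (α * j + γ) (3 ^ s.1 * (α * j + γ) + s.2)) u v : ℝ)
      ≤ a K s * (v - u) + (2 ^ (K + 1) - 1) := by
  induction K with
  | zero =>
    intro s α γ _ u v huv
    by_cases hs : s = (0, 0)
    · subst hs
      have : cnt (fun j => NM 0 (α * j + γ) (3 ^ ((0, 0) : ℕ × ℤ).1 * (α * j + γ)
          + ((0, 0) : ℕ × ℤ).2)) u v = 0 := by
        classical
        unfold cnt
        rw [Finset.card_eq_zero, Finset.filter_eq_empty_iff]
        intro j _ h
        exact h 0 le_rfl (by simp)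
      rw [this, a_absorb]; norm_num
    · rw [a_zero, if_neg hs]
      have := cnt_le (fun j => NM 0 (α * j + γ) (3 ^ s.1 * (α * j + γ) + s.2)) u v huv
      norm_num; linarith
  | succ K ih =>
    intro s α γ hα u v huv
    rw [cnt_split]
    push_cast
    -- choose representatives of the classes of `j` with even and odd base
    obtain ⟨α', hα'⟩ : ∃ α', α = 2 * α' + 1 := ⟨α / 2, by omega⟩
    have key0 : ∀ c : ℤ, (α * c + γ) % 2 = 0 → ∀ u v : ℤ, u ≤ v →
        (cnt (fun i => NM (K + 1) (α * (2 * i + c) + γ) (3 ^ s.1 * (α * (2 * i + c) + γ) + s.2))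
          u v : ℝ) ≤ a K (nx0 s) * (v - u) + (2 ^ (K + 1) - 1) := by
      intro c hc u v huv
      obtain ⟨g, hg⟩ : ∃ g, α * c + γ = 2 * g := ⟨(α * c + γ) / 2, by omega⟩
      have e : ∀ i, α * (2 * i + c) + γ = 2 * (α * i + g) := fun i => by linear_combination hg
      refine le_trans ?_ (ih (nx0 s) α g hα u v huv)
      have : cnt (fun i => NM (K + 1) (α * (2 * i + c) + γ)
          (3 ^ s.1 * (α * (2 * i + c) + γ) + s.2)) u v ≤
          cnt (fun j => NM K (α * j + g) (3 ^ (nx0 s).1 * (α * j + g) + (nx0 s).2)) u v := by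
        apply cnt_mono
        intro i _ _ h
        have h' := h.succ
        have hm : (α * (2 * i + c) + γ) % 2 = 0 := by rw [e]; omega
        rw [step0 s _ hm] at h'
        have hT : T (α * (2 * i + c) + γ) = α * i + g := by
          rw [e]; unfold T; split_ifs <;> omega
        rw [hT] at h'
        exact h'
      exact_mod_cast this
    have key1 : ∀ c : ℤ, (α * c + γ) % 2 = 1 → ∀ u v : ℤ, u ≤ v →
        (cnt (fun i => NM (K + 1) (α * (2 * i + c) + γ) (3 ^ s.1 * (α * (2 * i + c) + γ) + s.2))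
          u v : ℝ) ≤ a K (nx1 s) * (v - u) + (2 ^ (K + 1) - 1) := by
      intro c hc u v huv
      obtain ⟨g, hg⟩ : ∃ g, α * c + γ = 2 * g + 1 := ⟨(α * c + γ) / 2, by omega⟩
      have e : ∀ i, α * (2 * i + c) + γ = 2 * (α * i + g) + 1 := fun i => by
        linear_combination hg
      have hm : ∀ i, (α * (2 * i + c) + γ) % 2 = 1 := fun i => by rw [e]; omega
      by_cases hs : s.2 % 2 = 1 ∧ s.1 = 0
      · obtain ⟨b, hb⟩ : ∃ b, s.2 = 2 * b + 1 := ⟨s.2 / 2, by omega⟩
        have hn : nx1 s = (1, (1 - 3 * s.2) / 2) := by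
          unfold nx1
          rw [if_neg (by omega), if_pos hs.2]
        refine le_trans ?_ (ih (nx1 s) α (g + b + 1) hα u v huv)
        have : cnt (fun i => NM (K + 1) (α * (2 * i + c) + γ)
            (3 ^ s.1 * (α * (2 * i + c) + γ) + s.2)) u v ≤
            cnt (fun j => NM K (α * j + (g + b + 1))
              (3 ^ (nx1 s).1 * (α * j + (g + b + 1)) + (nx1 s).2)) u v := by
          apply cnt_mono
          intro i _ _ h
          have h' := h.succ.symm
          rw [hs.2, pow_zero, one_mul] at h'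
          rw [step1' s.2 _ (hm i) hs.1] at h'
          have hT : T (α * (2 * i + c) + γ + s.2) = α * i + (g + b + 1) := by
            rw [e, hb]; unfold T; split_ifs <;> omega
          rw [hT] at h'
          rw [hn]
          simpa using h'
        exact_mod_cast this
      · refine le_trans ?_ (ih (nx1 s) (3 * α) (3 * g + 2) (by omega) u v huv)
        have : cnt (fun i => NM (K + 1) (α * (2 * i + c) + γ)
            (3 ^ s.1 * (α * (2 * i + c) + γ) + s.2)) u v ≤
            cnt (fun j => NM K (3 * α * j + (3 * g + 2))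
              (3 ^ (nx1 s).1 * (3 * α * j + (3 * g + 2)) + (nx1 s).2)) u v := by
          apply cnt_mono
          intro i _ _ h
          have h' := h.succ
          rw [step1 s _ (hm i) hs] at h'
          have hT : T (α * (2 * i + c) + γ) = 3 * α * i + (3 * g + 2) := by
            rw [e]
            have : 3 * α * i = 3 * (α * i) := by ring
            rw [this]
            unfold T; split_ifs <;> omega
          rw [hT] at h'
          exact h'
        exact_mod_cast this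
    have hc := comb (a_nonneg K (nx0 s)) (a_le_one K (nx0 s)) (a_nonneg K (nx1 s))
      (a_le_one K (nx1 s)) (C := 2 ^ (K + 1) - 1)
      (c0 := cnt (fun i => NM (K + 1) (α * (2 * i) + γ) (3 ^ s.1 * (α * (2 * i) + γ) + s.2))
        ((u + 1) / 2) ((v + 1) / 2))
      (c1 := cnt (fun i => NM (K + 1) (α * (2 * i + 1) + γ)
        (3 ^ s.1 * (α * (2 * i + 1) + γ) + s.2)) (u / 2) (v / 2)) huv ?_
    · rw [a_succ]
      refine hc.trans ?_
      have : (2:ℝ) ^ (K + 1 + 1) = 2 * 2 ^ (K + 1) := by ring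
      rw [this]; linarith
    · have hu0 : (u + 1) / 2 ≤ (v + 1) / 2 := by omega
      have hu1 : u / 2 ≤ v / 2 := by omega
      rcases Int.emod_two_eq_zero_or_one γ with hγ | hγ
      · left
        constructor
        · have := key0 0 (by omega) _ _ hu0
          simpa using this
        · exact key1 1 (by omega) _ _ hu1
      · right
        constructor
        · have := key1 0 (by omega) _ _ hu0
          simpa using this
        · exact key0 1 (by omega) _ _ hu1

end Pool.Agent.H30.Co
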