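import Pool.Agent.H30.Co.Chain

/-!
The two components of the Lyapunov function: `G = √(|β|/3^d)` and the number of steps until
`β` is odd function `R`.
-/

set_option autoImplicit false

namespace Pool.Agent.H30.Co

open Pool.Agent.H30

/-! ### The function R -/

/-- indicator of `2^j ∣ x` -/
noncomputable def ind (j : ℕ) (x : ℤ) : ℝ := if (2:ℤ) ^ j ∣ x then 1 else 0

/-- `R' e x`, with `e + 1` in the role of the 2-adic valuation of `3^d - 1`. -/
noncomputable def R' (e : ℕ) (x : ℤ) : ℝ := ∑ j ∈ Finset.range e, ind (j + 1) x + 2 * ind (e + 1) x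

lemma ind_nonneg (j : ℕ) (x : ℤ) : 0 ≤ ind j x := by unfold ind; split_ifs <;> norm_num

lemma ind_le_one (j : ℕ) (x : ℤ) : ind j x ≤ 1 := by unfold ind; split_ifs <;> norm_num

lemma ind_zero (x : ℤ) : ind 0 x = 1 := by simp [ind]

lemma ind_two_mul (j : ℕ) (z : ℤ) : ind (j + 1) (2 * z) = ind j z := by
  unfold ind
  have : (2:ℤ) ^ (j + 1) ∣ 2 * z ↔ (2:ℤ) ^ j ∣ z := by
    rw [pow_succ, mul_comm]
    exact mul_dvd_mul_iff_left (by norm_num)
  simp only [this]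

lemma ind_odd (j : ℕ) (x : ℤ) (hx : x % 2 = 1) : ind (j + 1) x = 0 := by
  unfold ind
  rw [if_neg]
  intro h
  have : (2:ℤ) ∣ x := dvd_trans (dvd_pow_self 2 (by omega)) h
  omega

lemma R'_nonneg (e : ℕ) (x : ℤ) : 0 ≤ R' e x := by
  unfold R'
  have := ind_nonneg (e + 1) x
  have := Finset.sum_nonneg (s := Finset.range e) (fun j _ => ind_nonneg (j + 1) x)
  linarith

lemma R'_le (e : ℕ) (x : ℤ) : R' e x ≤ e + 2 := by
  unfold R'
  have h1 := ind_le_one (e + 1) x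
  have h2 : ∑ j ∈ Finset.range e, ind (j + 1) x ≤ ∑ j ∈ Finset.range e, (1:ℝ) :=
    Finset.sum_le_sum (fun j _ => ind_le_one (j + 1) x)
  simp at h2
  linarith

lemma R'_odd (e : ℕ) (x : ℤ) (hx : x % 2 = 1) : R' e x = 0 := by
  unfold R'
  simp [ind_odd _ x hx]

lemma three_dvd_cancel (j : ℕ) (z : ℤ) : (2:ℤ) ^ j ∣ 3 * z ↔ (2:ℤ) ^ j ∣ z := by
  constructor
  · intro h
    refine (Int.isCoprime_iff_gcd_eq_one.mpr ?_).dvd_of_dvd_mul_left h
    have : IsCoprime ((2:ℤ) ^ j) 3 := IsCoprime.pow_left (by norm_num)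
    exact Int.isCoprime_iff_gcd_eq_one.mp this
  · intro h; exact Dvd.dvd.mul_left h 3

lemma ind_shift (e j : ℕ) (hj : j < e) (z c : ℤ) :
    ind (j + 1) (3 * z - 2 ^ e * c) = ind (j + 1) z := by
  unfold ind
  have hd : (2:ℤ) ^ (j + 1) ∣ 2 ^ e * c := Dvd.dvd.mul_right (pow_dvd_pow 2 (by omega)) c
  have : (2:ℤ) ^ (j + 1) ∣ 3 * z - 2 ^ e * c ↔ (2:ℤ) ^ (j + 1) ∣ z := by
    rw [dvd_sub_left hd, three_dvd_cancel]
  simp only [this]

lemma ind_pair (e : ℕ) (z c : ℤ) (hc : c % 2 = 1) :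
    ind (e + 1) z + ind (e + 1) (3 * z - 2 ^ e * c) = ind e z := by
  unfold ind
  by_cases h : (2:ℤ) ^ e ∣ z
  · obtain ⟨t, rfl⟩ := h
    have e1 : (2:ℤ) ^ (e + 1) ∣ 2 ^ e * t ↔ (2:ℤ) ∣ t := by
      rw [pow_succ]; exact mul_dvd_mul_iff_left (by positivity)
    have e2 : (2:ℤ) ^ (e + 1) ∣ 3 * (2 ^ e * t) - 2 ^ e * c ↔ (2:ℤ) ∣ 3 * t - c := by
      have : 3 * ((2:ℤ) ^ e * t) - 2 ^ e * c = 2 ^ e * (3 * t - c) := by ring
      rw [this, pow_succ]; exact mul_dvd_mul_iff_left (by positivity)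
    simp only [e1, e2]
    rw [if_pos (Dvd.intro _ rfl)]
    by_cases h2 : (2:ℤ) ∣ t
    · rw [if_pos h2, if_neg (by omega)]; norm_num
    · rw [if_neg h2, if_pos (by omega)]; norm_num
  · have h1 : ¬ (2:ℤ) ^ (e + 1) ∣ z := fun h' => h (dvd_trans (pow_dvd_pow 2 (by omega)) h')
    have h2 : ¬ (2:ℤ) ^ (e + 1) ∣ 3 * z - 2 ^ e * c := by
      intro h'
      have h3 : (2:ℤ) ^ e ∣ 3 * z - 2 ^ e * c := dvd_trans (pow_dvd_pow 2 (by omega)) h'
      rw [dvd_sub_left (Dvd.intro _ rfl), three_dvd_cancel] at h3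
      exact h h3
    rw [if_neg h, if_neg h1, if_neg h2]; norm_num

lemma R'_avg (e : ℕ) (z c : ℤ) (hc : c % 2 = 1) :
    R' e z + R' e (3 * z - 2 ^ e * c) = 2 * (R' e (2 * z) - 1) := by
  unfold R'
  have h1 : ∑ j ∈ Finset.range e, ind (j + 1) (3 * z - 2 ^ e * c)
      = ∑ j ∈ Finset.range e, ind (j + 1) z :=
    Finset.sum_congr rfl (fun j hj => ind_shift e j (Finset.mem_range.mp hj) z c)
  have h2 := ind_pair e z c hc
  have h3 : ∑ j ∈ Finset.range e, ind (j + 1) (2 * z) = ∑ j ∈ Finset.range e, ind j z :=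
    Finset.sum_congr rfl (fun j _ => ind_two_mul j z)
  have h4 : ∑ j ∈ Finset.range e, ind (j + 1) z + ind 0 z
      = ∑ j ∈ Finset.range e, ind j z + ind e z := by
    have q1 := Finset.sum_range_succ' (fun j => ind j z) e
    have q2 := Finset.sum_range_succ (fun j => ind j z) e
    rw [← q1, ← q2]
  rw [h1, h3, ind_two_mul]
  rw [ind_zero] at h4
  linarith

/-- `v_2(3^d - 1) - 1` -/
noncomputable def ep (d : ℕ) : ℕ := padicValNat 2 (3 ^ d - 1) - 1

lemma ep_spec (d : ℕ) (hd : 1 ≤ d) : ∃ c : ℤ, c % 2 = 1 ∧ (3:ℤ) ^ d - 1 = 2 * (2 ^ (ep d) * c) := by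
  have h3 : 3 ≤ 3 ^ d := by
    calc 3 = 3 ^ 1 := by norm_num
      _ ≤ 3 ^ d := Nat.pow_le_pow_right (by norm_num) hd
  have hne : 3 ^ d - 1 ≠ 0 := by omega
  have hodd : (3 ^ d) % 2 = 1 := by
    have : Odd (3 ^ d) := Odd.pow (by decide)
    exact Nat.odd_iff.mp this
  have h2 : 2 ∣ 3 ^ d - 1 := by omega
  have hv : 1 ≤ padicValNat 2 (3 ^ d - 1) := one_le_padicValNat_of_dvd hne h2
  obtain ⟨c, hc⟩ : 2 ^ padicValNat 2 (3 ^ d - 1) ∣ 3 ^ d - 1 := pow_padicValNat_dvd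
  have hc2 : c % 2 = 1 := by
    by_contra hcon
    have : 2 ∣ c := by omega
    obtain ⟨c', rfl⟩ := this
    have : 2 ^ (padicValNat 2 (3 ^ d - 1) + 1) ∣ 3 ^ d - 1 := ⟨c', by rw [pow_succ]; linarith⟩
    exact pow_succ_padicValNat_not_dvd hne this
  refine ⟨(c:ℤ), by omega, ?_⟩
  have e1 : padicValNat 2 (3 ^ d - 1) = ep d + 1 := by unfold ep; omega
  rw [e1] at hc
  have e2 : ((3 ^ d - 1 : ℕ) : ℤ) = (3:ℤ) ^ d - 1 := by
    rw [Nat.cast_sub (by omega)]; push_cast; ring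
  rw [← e2, hc]; push_cast; ring

lemma ep_le (d : ℕ) (hd : 1 ≤ d) : ep d ≤ 1 + Nat.log 2 d := by
  unfold ep
  rcases Nat.even_or_odd d with he | ho
  · have h := padicValNat.pow_two_sub_pow (x := 3) (y := 1) (by norm_num) (by norm_num)
      (by norm_num) (n := d) (by omega) he
    rw [one_pow] at h
    have h4 : padicValNat 2 (3 + 1) = 2 := by
      have : (3 + 1 : ℕ) = 2 ^ 2 := by norm_num
      rw [this]; exact padicValNat.prime_pow 2
    have h5 : padicValNat 2 (3 - 1) = 1 := by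
      have : (3 - 1 : ℕ) = 2 ^ 1 := by norm_num
      rw [this]; exact padicValNat.prime_pow 1
    have h6 : padicValNat 2 d ≤ Nat.log 2 d := padicValNat_le_nat_log d
    omega
  · obtain ⟨k, hk⟩ := ho
    have : ¬ 2 ^ 2 ∣ 3 ^ d - 1 := by
      have h9 : 3 ^ d % 4 = 3 := by
        rw [hk, pow_succ, pow_mul, Nat.mul_mod, Nat.pow_mod]
        norm_num
      have h10 : (2:ℕ) ^ 2 = 4 := by norm_num
      rw [h10]
      generalize 3 ^ d = P at h9
      omega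
    have hne : 3 ^ d - 1 ≠ 0 := by
      have : 3 ≤ 3 ^ d := by
        calc 3 = 3 ^ 1 := by norm_num
          _ ≤ 3 ^ d := Nat.pow_le_pow_right (by norm_num) hd
      omega
    have h7 : padicValNat 2 (3 ^ d - 1) < 2 := by
      by_contra hcon
      push Not at hcon
      exact this ((padicValNat_dvd_iff_le hne).mpr hcon)
    omega

/-- The function R on states. -/
noncomputable def R (s : ℕ × ℤ) : ℝ := if s.1 = 0 then 0 else R' (ep s.1) s.2

lemma R_nonneg (s : ℕ × ℤ) : 0 ≤ R s := by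
  unfold R; split_ifs
  · exact le_rfl
  · exact R'_nonneg _ _

lemma R_odd (s : ℕ × ℤ) (h : s.2 % 2 = 1) : R s = 0 := by
  unfold R; split_ifs
  · rfl
  · exact R'_odd _ _ h

lemma R_le (s : ℕ × ℤ) : R s ≤ 3 + Nat.log 2 s.1 := by
  unfold R; split_ifs with h
  · positivity
  · have h1 := R'_le (ep s.1) s.2
    have h2 : ((ep s.1 : ℕ) : ℝ) ≤ 1 + (Nat.log 2 s.1 : ℕ) := by
      exact_mod_cast ep_le s.1 (by omega)
    linarith

lemma R_even (s : ℕ × ℤ) (hd : 1 ≤ s.1) (h : s.2 % 2 = 0) :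
    R (nx0 s) + R (nx1 s) = 2 * (R s - 1) := by
  obtain ⟨d, β⟩ := s
  simp only at hd h
  obtain ⟨z, rfl⟩ : ∃ z, β = 2 * z := ⟨β / 2, by omega⟩
  obtain ⟨c, hc, h3⟩ := ep_spec d hd
  have e0 : nx0 (d, 2 * z) = (d, z) := by
    simp only [nx0, h, if_true]; ext <;> simp
  have e1 : nx1 (d, 2 * z) = (d, 3 * z - 2 ^ ep d * c) := by
    simp only [nx1, h, if_true]
    ext
    · rfl
    · simp only
      omega
  rw [e0, e1]
  simp only [R]
  have hd' : d ≠ 0 := by omega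
  simp only [hd', if_false]
  exact R'_avg (ep d) z c hc

/-! ### The function G -/

/-- `√(|β|/3^d)` -/
noncomputable def G (s : ℕ × ℤ) : ℝ := Real.sqrt (|(s.2:ℝ)| / 3 ^ s.1)

lemma G_nonneg (s : ℕ × ℤ) : 0 ≤ G s := Real.sqrt_nonneg _

lemma sqrt_aff {x z c t : ℝ} (hx : 0 ≤ x) (hc : 0 ≤ c) (ht : 0 ≤ t) (h : z ≤ c ^ 2 * x + t ^ 2) :
    Real.sqrt z ≤ c * Real.sqrt x + t := by
  apply Real.sqrt_le_iff.mpr
  refine ⟨by positivity, ?_⟩
  have h1 := Real.sq_sqrt hx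
  have h2 := mul_nonneg (mul_nonneg hc ht) (Real.sqrt_nonneg x)
  nlinarith

/-- bounds for the transition with even base -/
lemma G_nx0 (s : ℕ × ℤ) : G (nx0 s) ≤ 0.7072 * G s + (if s.2 % 2 = 0 then 0 else 0.41) := by
  obtain ⟨d, β⟩ := s
  unfold G
  have h3 : (0:ℝ) < 3 ^ d := by positivity
  rcases Int.emod_two_eq_zero_or_one β with h | h
  · obtain ⟨z, rfl⟩ : ∃ z, β = 2 * z := ⟨β / 2, by omega⟩
    have e0 : nx0 (d, 2 * z) = (d, z) := by
      simp only [nx0, h, if_true]; ext <;> simp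
    rw [e0]
    simp only [h, if_true]
    apply sqrt_aff (by positivity) (by norm_num) le_rfl
    push_cast
    rw [abs_mul, abs_of_pos (by norm_num : (0:ℝ) < 2)]
    have : 0 ≤ |(z:ℝ)| / 3 ^ d := by positivity
    have e : (2 * |(z:ℝ)|) / 3 ^ d = 2 * (|(z:ℝ)| / 3 ^ d) := by ring
    rw [e]; nlinarith
  · obtain ⟨z, rfl⟩ : ∃ z, β = 2 * z + 1 := ⟨β / 2, by omega⟩
    have h' : ¬ ((2 * z + 1) % 2 = 0) := by omega
    have e0 : nx0 (d, 2 * z + 1) = (d + 1, 3 * z + 2) := by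
      simp only [nx0, h', if_false]
      ext
      · rfl
      · simp only; omega
    rw [e0]
    simp only [h', if_false]
    apply sqrt_aff (by positivity) (by norm_num) (by norm_num)
    push_cast
    have h1 : |(3:ℝ) * z + 2| ≤ 3 / 2 * |2 * (z:ℝ) + 1| + 1 / 2 := by
      have e : (3:ℝ) * z + 2 = 3 / 2 * (2 * z + 1) + 1 / 2 := by ring
      rw [e]
      refine (abs_add_le _ _).trans ?_
      rw [abs_mul, abs_of_pos (by norm_num : (0:ℝ) < 3 / 2),
        abs_of_pos (by norm_num : (0:ℝ) < 1 / 2)]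
    have h2 : |(3:ℝ) * z + 2| / 3 ^ (d + 1) ≤
        (3 / 2 * |2 * (z:ℝ) + 1| + 1 / 2) / 3 ^ (d + 1) := by gcongr
    refine h2.trans ?_
    have h4 : (1:ℝ) ≤ 3 ^ d := one_le_pow₀ (by norm_num)
    have e2 : (3 / 2 * |2 * (z:ℝ) + 1| + 1 / 2) / 3 ^ (d + 1)
        = 1 / 2 * (|2 * (z:ℝ) + 1| / 3 ^ d) + 1 / 6 * (1 / 3 ^ d) := by
      rw [pow_succ]; field_simp; ring
    rw [e2]
    have h5 : (1:ℝ) / 3 ^ d ≤ 1 := by rw [div_le_one h3]; exact h4
    have h6 : 0 ≤ |2 * (z:ℝ) + 1| / 3 ^ d := by positivity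
    nlinarith

/-- bounds for the transition with odd base -/
lemma G_nx1 (s : ℕ × ℤ) : G (nx1 s) ≤ 1.2248 * G s +
    (if s.1 = 0 ∧ s.2 % 2 = 0 then 0 else 0.7072) := by
  obtain ⟨d, β⟩ := s
  unfold G
  have h3 : (0:ℝ) < 3 ^ d := by positivity
  rcases Int.emod_two_eq_zero_or_one β with h | h
  · obtain ⟨z, rfl⟩ : ∃ z, β = 2 * z := ⟨β / 2, by omega⟩
    rcases Nat.eq_zero_or_pos d with hd | hd
    · subst hd
      have e1 : nx1 (0, 2 * z) = (0, 3 * z) := by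
        simp only [nx1, h, if_true]
        ext
        · rfl
        · simp only [pow_zero]; omega
      rw [e1]
      simp only [h, and_self, if_true, pow_zero, div_one]
      apply sqrt_aff (by positivity) (by norm_num) le_rfl
      push_cast
      rw [abs_mul, abs_mul, abs_of_pos (by norm_num : (0:ℝ) < 2),
        abs_of_pos (by norm_num : (0:ℝ) < 3)]
      have : 0 ≤ |(z:ℝ)| := by positivity
      nlinarith
    · have ho := three_pow_mod_two d
      obtain ⟨P, hP⟩ : ∃ P : ℤ, (3:ℤ) ^ d = 2 * P + 1 := ⟨3 ^ d / 2, by omega⟩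
      have hPR : (3:ℝ) ^ d = 2 * P + 1 := by exact_mod_cast hP
      have hP0 : (0:ℝ) ≤ P := by
        have : (1:ℤ) ≤ 3 ^ d := one_le_pow₀ (by norm_num)
        have : 0 ≤ P := by omega
        exact_mod_cast this
      have e1 : nx1 (d, 2 * z) = (d, 3 * z - P) := by
        simp only [nx1, h, if_true]
        ext
        · rfl
        · simp only; omega
      rw [e1]
      have hd' : ¬ (d = 0 ∧ 2 * z % 2 = 0) := by omega
      simp only [hd', if_false]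
      apply sqrt_aff (by positivity) (by norm_num) (by norm_num)
      push_cast
      have h1 : |(3:ℝ) * z - P| ≤ 3 * |(z:ℝ)| + P := by
        refine (abs_sub _ _).trans ?_
        rw [abs_mul, abs_of_pos (by norm_num : (0:ℝ) < 3), abs_of_nonneg hP0]
      have h2 : |(3:ℝ) * z - P| / 3 ^ d ≤ (3 * |(z:ℝ)| + P) / 3 ^ d := by gcongr
      refine h2.trans ?_
      rw [abs_mul, abs_of_pos (by norm_num : (0:ℝ) < 2)]
      have h5 : (P:ℝ) / 3 ^ d ≤ 1 / 2 := by rw [div_le_iff₀ h3, hPR]; linarith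
      have h6 : 0 ≤ |(z:ℝ)| / 3 ^ d := by positivity
      have e2 : (3 * |(z:ℝ)| + P) / 3 ^ d = 3 * (|(z:ℝ)| / 3 ^ d) + P / 3 ^ d := by ring
      have e3 : (2 * |(z:ℝ)|) / 3 ^ d = 2 * (|(z:ℝ)| / 3 ^ d) := by ring
      rw [e2, e3]
      nlinarith
  · obtain ⟨z, rfl⟩ : ∃ z, β = 2 * z + 1 := ⟨β / 2, by omega⟩
    have h' : ¬ ((2 * z + 1) % 2 = 0) := by omega
    have hif : ¬ (d = 0 ∧ (2 * z + 1) % 2 = 0) := by omega
    rcases Nat.eq_zero_or_pos d with hd | hd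
    · subst hd
      have e1 : nx1 (0, 2 * z + 1) = (1, -(3 * z + 1)) := by
        simp only [nx1, h', if_false, if_true]
        ext
        · rfl
        · simp only; omega
      rw [e1]
      rw [if_neg hif]
      simp only [pow_zero, div_one, pow_one]
      apply sqrt_aff (by positivity) (by norm_num) (by norm_num)
      push_cast
      have h1 : |-((3:ℝ) * z + 1)| ≤ 3 / 2 * |2 * (z:ℝ) + 1| + 1 / 2 := by
        have e : -((3:ℝ) * z + 1) = - (3 / 2) * (2 * z + 1) + 1 / 2 := by ring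
        rw [e]
        refine (abs_add_le _ _).trans ?_
        rw [abs_mul, abs_neg, abs_of_pos (by norm_num : (0:ℝ) < 3 / 2),
          abs_of_pos (by norm_num : (0:ℝ) < 1 / 2)]
      have h6 : 0 ≤ |2 * (z:ℝ) + 1| := by positivity
      have : |-((3:ℝ) * z + 1)| / 3 ≤ (3 / 2 * |2 * (z:ℝ) + 1| + 1 / 2) / 3 := by gcongr
      refine this.trans ?_
      nlinarith
    · obtain ⟨d', rfl⟩ : ∃ d', d = d' + 1 := ⟨d - 1, by omega⟩
      have ho := three_pow_mod_two d'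
      obtain ⟨P, hP⟩ : ∃ P : ℤ, (3:ℤ) ^ d' = 2 * P + 1 := ⟨3 ^ d' / 2, by omega⟩
      have hPR : (3:ℝ) ^ d' = 2 * P + 1 := by exact_mod_cast hP
      have h3' : (0:ℝ) < 3 ^ d' := by positivity
      have e1 : nx1 (d' + 1, 2 * z + 1) = (d', z - P) := by
        simp only [nx1, h', if_false, Nat.add_sub_cancel]
        rw [if_neg (by omega)]
        ext
        · rfl
        · simp only; omega
      rw [e1]
      simp only [hif, if_false]
      apply sqrt_aff (by positivity) (by norm_num) (by norm_num)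
      push_cast
      have h1 : |(z:ℝ) - P| ≤ 1 / 2 * |2 * (z:ℝ) + 1| + 1 / 2 * 3 ^ d' := by
        have e : (z:ℝ) - P = 1 / 2 * (2 * z + 1) - 1 / 2 * 3 ^ d' := by rw [hPR]; ring
        rw [e]
        refine (abs_sub _ _).trans ?_
        rw [abs_mul, abs_mul, abs_of_pos (by norm_num : (0:ℝ) < 1 / 2), abs_of_pos h3']
      have h2 : |(z:ℝ) - P| / 3 ^ d' ≤ (1 / 2 * |2 * (z:ℝ) + 1| + 1 / 2 * 3 ^ d') / 3 ^ d' := by
        gcongr
      refine h2.trans ?_
      have e2 : (1 / 2 * |2 * (z:ℝ) + 1| + 1 / 2 * 3 ^ d') / 3 ^ d'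
          = 3 / 2 * (|2 * (z:ℝ) + 1| / 3 ^ (d' + 1)) + 1 / 2 := by
        rw [pow_succ]; field_simp
      rw [e2]
      have h6 : 0 ≤ |2 * (z:ℝ) + 1| / 3 ^ (d' + 1) := by positivity
      nlinarith

/-- at `d = 0`, `β` odd, both transitions contract -/
lemma G_nx1_zero (β : ℤ) (h : β % 2 = 1) : G (nx1 (0, β)) ≤ 0.7072 * G (0, β) + 0.41 := by
  unfold G
  obtain ⟨z, rfl⟩ : ∃ z, β = 2 * z + 1 := ⟨β / 2, by omega⟩
  have h' : ¬ ((2 * z + 1) % 2 = 0) := by omega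
  have e1 : nx1 (0, 2 * z + 1) = (1, -(3 * z + 1)) := by
    simp only [nx1, h', if_false, if_true]
    ext
    · rfl
    · simp only; omega
  rw [e1]
  simp only [pow_zero, div_one, pow_one]
  apply sqrt_aff (by positivity) (by norm_num) (by norm_num)
  push_cast
  have h1 : |-((3:ℝ) * z + 1)| ≤ 3 / 2 * |2 * (z:ℝ) + 1| + 1 / 2 := by
    have e : -((3:ℝ) * z + 1) = - (3 / 2) * (2 * z + 1) + 1 / 2 := by ring
    rw [e]
    refine (abs_add_le _ _).trans ?_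
    rw [abs_mul, abs_neg, abs_of_pos (by norm_num : (0:ℝ) < 3 / 2),
      abs_of_pos (by norm_num : (0:ℝ) < 1 / 2)]
  have h6 : 0 ≤ |2 * (z:ℝ) + 1| := by positivity
  have : |-((3:ℝ) * z + 1)| / 3 ≤ (3 / 2 * |2 * (z:ℝ) + 1| + 1 / 2) / 3 := by gcongr
  refine this.trans ?_
  nlinarith

end Pool.Agent.H30.Co
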