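import Pool.Agent.H30.Co.Lyap

/-!
Decay of the probability of not being absorbed.
-/

set_option autoImplicit false

namespace Pool.Agent.H30.Co

open Pool.Agent.H30

open Classical in
/-- probability that the chain does not meet the small set in times `0..K` -/
noncomputable def b : ℕ → ℕ × ℤ → ℝ
  | 0, s => if Small s then 0 else 1
  | K + 1, s => if Small s then 0 else (b K (nx0 s) + b K (nx1 s)) / 2

lemma b_small (K : ℕ) (s : ℕ × ℤ) (h : Small s) : b K s = 0 := by
  cases K <;> simp [b, h]

lemma b_zero_of (s : ℕ × ℤ) (h : ¬ Small s) : b 0 s = 1 := by simp [b, h]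

lemma b_succ_of (K : ℕ) (s : ℕ × ℤ) (h : ¬ Small s) :
    b (K + 1) s = (b K (nx0 s) + b K (nx1 s)) / 2 := by simp [b, h]

lemma b_nonneg (K : ℕ) : ∀ s, 0 ≤ b K s := by
  induction K with
  | zero => intro s; by_cases h : Small s
            · rw [b_small _ _ h]
            · rw [b_zero_of _ h]; norm_num
  | succ K ih => intro s; by_cases h : Small s
                 · rw [b_small _ _ h]
                 · rw [b_succ_of _ _ h]; have := ih (nx0 s); have := ih (nx1 s); linarith

lemma b_le_one (K : ℕ) : ∀ s, b K s ≤ 1 := by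
  induction K with
  | zero => intro s; by_cases h : Small s
            · rw [b_small _ _ h]; norm_num
            · rw [b_zero_of _ h]
  | succ K ih => intro s; by_cases h : Small s
                 · rw [b_small _ _ h]; norm_num
                 · rw [b_succ_of _ _ h]; have := ih (nx0 s); have := ih (nx1 s); linarith

lemma b_anti_succ (K : ℕ) : ∀ s, b (K + 1) s ≤ b K s := by
  induction K with
  | zero => intro s; by_cases h : Small s
            · rw [b_small _ _ h, b_small _ _ h]
            · rw [b_zero_of _ h]; exact b_le_one _ _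
  | succ K ih => intro s; by_cases h : Small s
                 · rw [b_small _ _ h, b_small _ _ h]
                 · rw [b_succ_of _ _ h, b_succ_of _ _ h]
                   have := ih (nx0 s); have := ih (nx1 s); linarith

lemma b_anti (s : ℕ × ℤ) : Antitone (fun K => b K s) := antitone_nat_of_succ_le (fun K => b_anti_succ K s)

lemma a_anti (s : ℕ × ℤ) : Antitone (fun K => a K s) := antitone_nat_of_succ_le (fun K => a_anti_succ K s)

noncomputable def U (K : ℕ) (s : ℕ × ℤ) : ℝ := ∑ k ∈ Finset.range K, b k s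

lemma U_small (K : ℕ) (s : ℕ × ℤ) (h : Small s) : U K s = 0 := by
  unfold U; exact Finset.sum_eq_zero (fun k _ => b_small k s h)

lemma U_le (K : ℕ) (s : ℕ × ℤ) : U K s ≤ K := by
  unfold U
  calc ∑ k ∈ Finset.range K, b k s ≤ ∑ k ∈ Finset.range K, (1:ℝ) :=
        Finset.sum_le_sum (fun k _ => b_le_one k s)
    _ = K := by simp

lemma U_succ (K : ℕ) (s : ℕ × ℤ) (h : ¬ Small s) :
    U (K + 1) s = 1 + (U K (nx0 s) + U K (nx1 s)) / 2 := by
  unfold U
  rw [Finset.sum_range_succ', b_zero_of s h, ← Finset.sum_add_distrib, Finset.sum_div, add_comm]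
  congr 1
  exact Finset.sum_congr rfl (fun k _ => b_succ_of k s h)

lemma b_le_U (K : ℕ) (s : ℕ × ℤ) : K * b K s ≤ U K s := by
  unfold U
  have : ∑ k ∈ Finset.range K, b K s ≤ ∑ k ∈ Finset.range K, b k s :=
    Finset.sum_le_sum (fun k hk => b_anti s (Finset.mem_range.mp hk).le)
  simpa using this

lemma nx_le (s : ℕ × ℤ) (D : ℕ) (h : s.1 ≤ D) : (nx0 s).1 ≤ D + 1 ∧ (nx1 s).1 ≤ D + 1 := by
  unfold nx0 nx1
  constructor
  · split_ifs <;> simp <;> omega
  · split_ifs <;> simp <;> omega

lemma V_nonneg (s : ℕ × ℤ) : 0 ≤ V s := by have := V_ge s; have := Y_ge s; linarith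

lemma U_bound (D : ℕ) (E lam : ℝ) (hE : E = 1001 + D)
    (hlam : lam = 1 / (2 * (4 + Nat.log 2 (D + 1)))) (K : ℕ) :
    ∀ s : ℕ × ℤ, s.1 ≤ D + 1 → U K s ≤ Q E lam s * (2 / lam) + K * (V s / E) := by
  have hE0 : 1001 ≤ E := by rw [hE]; have : (0:ℝ) ≤ D := by positivity
                            linarith
  have hlam0 : 0 < lam := by rw [hlam]; positivity
  have h2 : 0 < 2 / lam := by positivity
  induction K with
  | zero =>
    intro s hs
    have := Q_nonneg D E lam hE hlam0.le s hs
    simp only [U, Finset.range_zero, Finset.sum_empty, Nat.cast_zero, zero_mul, add_zero]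
    positivity
  | succ K ih =>
    intro s hs
    have hQ := Q_nonneg D E lam hE hlam0.le s hs
    have hV := V_nonneg s
    by_cases hS : Small s
    · rw [U_small _ _ hS]; positivity
    · by_cases hD : s.1 ≤ D
      · obtain ⟨n0, n1⟩ := nx_le s D hD
        have i0 := ih (nx0 s) n0
        have i1 := ih (nx1 s) n1
        have q := Q_drift D E lam hE hlam s hS hD
        have v := V_drift s hS
        rw [U_succ K s hS]
        have q2 := mul_le_mul_of_nonneg_right q h2.le
        have e1 : (2 * Q E lam s - lam) * (2 / lam) = 2 * (Q E lam s * (2 / lam)) - 2 := by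
          field_simp
        rw [e1] at q2
        have v2 : K * ((V (nx0 s) + V (nx1 s)) / E) ≤ K * ((2 * V s) / E) := by gcongr
        have e2 : (K:ℝ) * ((2 * V s) / E) = 2 * (K * (V s / E)) := by ring
        have e3 : (K:ℝ) * ((V (nx0 s) + V (nx1 s)) / E) = K * (V (nx0 s) / E)
          + K * (V (nx1 s) / E) := by ring
        rw [e2, e3] at v2
        have e4 : ((K + 1 : ℕ) : ℝ) * (V s / E) = K * (V s / E) + V s / E := by push_cast; ring
        rw [e4]
        have : 0 ≤ V s / E := by positivity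
        linarith
      · have hd : s.1 = D + 1 := by omega
        have hY : Y s = E := by unfold Y; rw [hd, hE]; push_cast; ring
        have hV2 := V_ge s
        rw [hY] at hV2
        have h1 : 1 ≤ V s / E := by rw [le_div_iff₀ (by linarith)]; linarith
        have h3 := U_le (K + 1) s
        have h4 : ((K + 1 : ℕ) : ℝ) * 1 ≤ ((K + 1 : ℕ) : ℝ) * (V s / E) := by gcongr
        have h5 : 0 ≤ Q E lam s * (2 / lam) := by positivity
        linarith

/-- auxiliary function of the starting state -/
noncomputable def V3 (s : ℕ × ℤ) : ℝ := 2 * Y s + 3 * V s + G s + R s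

lemma V3_ge (s : ℕ × ℤ) : V s ≤ V3 s := by
  unfold V3
  have := V_nonneg s; have := Y_ge s; have := GR_nonneg s
  linarith

lemma V3_ge_one (s : ℕ × ℤ) : 1 ≤ V3 s := by
  have := V3_ge s; have := V_ge s; have := Y_ge s
  linarith

/-- the rate function -/
noncomputable def rr (K : ℕ) : ℝ := (1 + Real.log K) / Real.sqrt K

lemma rr_pos (K : ℕ) (hK : 1 ≤ K) : 0 < rr K := by
  unfold rr
  have h1 : (1:ℝ) ≤ K := by exact_mod_cast hK
  have := Real.log_nonneg h1
  have : 0 < Real.sqrt K := Real.sqrt_pos.mpr (by linarith)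
  positivity

lemma b_decay (K : ℕ) (hK : 1 ≤ K) (s : ℕ × ℤ) : b K s ≤ 20041 * V3 s * rr K := by
  have hK1 : (1:ℝ) ≤ K := by exact_mod_cast hK
  have hlogK := Real.log_nonneg hK1
  obtain ⟨r, hr⟩ : ∃ r, r = Real.sqrt K := ⟨_, rfl⟩
  have hr2 : r * r = K := by rw [hr]; exact Real.mul_self_sqrt (by linarith)
  have hr1 : 1 ≤ r := by
    rw [hr]; exact Real.one_le_sqrt.mpr hK1
  obtain ⟨D, hD⟩ : ∃ D, D = Nat.sqrt K := ⟨_, rfl⟩
  obtain ⟨E, hE⟩ : ∃ E : ℝ, E = 1001 + D := ⟨_, rfl⟩
  obtain ⟨lam, hlam⟩ : ∃ lam : ℝ, lam = 1 / (2 * (4 + Nat.log 2 (D + 1))) := ⟨_, rfl⟩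
  have hD0 : (0:ℝ) ≤ D := by positivity
  have hDr : (D:ℝ) ≤ r := by rw [hD, hr]; exact Real.nat_sqrt_le_real_sqrt
  have hDr2 : r ≤ D + 1 := by
    rw [hD, hr]
    exact Real.real_sqrt_le_nat_sqrt_succ
  have hEr : r ≤ E := by rw [hE]; linarith
  have hE2 : E ≤ 1002 * r := by rw [hE]; linarith
  have hrr : rr K = (1 + Real.log K) / r := by unfold rr; rw [hr]
  have hV3 := V3_ge s
  have hV := V_nonneg s
  have hVE : V s / E ≤ V3 s * (1 / r) := by
    rw [← div_eq_mul_one_div]
    exact div_le_div₀ (by linarith) hV3 (by linarith) hEr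
  have hinv : 1 / r ≤ rr K := by
    rw [hrr]; gcongr; linarith
  have hV30 : 0 ≤ V3 s := by have := V3_ge_one s; linarith
  by_cases hs : s.1 ≤ D + 1
  · have h1 := U_bound D E lam hE hlam K s hs
    have h2 := b_le_U K s
    have hKpos : (0:ℝ) < K := by linarith
    have hL : (0:ℝ) ≤ (Nat.log 2 (D + 1) : ℕ) := by positivity
    have hlam0 : 0 < lam := by rw [hlam]; positivity
    have hlam1 : 2 / lam = 4 * (4 + Nat.log 2 (D + 1)) := by rw [hlam]; field_simp; ring
    have hlam2 : lam ≤ 1 := by
      rw [hlam, div_le_one (by positivity)]; linarith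
    have hQ : Q E lam s ≤ E * V3 s := by
      unfold Q V3
      have hY := Y_ge s
      have hGR := GR_nonneg s
      have : lam * (G s + R s) ≤ E * (G s + R s) := by
        apply mul_le_mul_of_nonneg_right _ hGR; linarith
      nlinarith [sq_nonneg (Y s)]
    have hlogD : ((Nat.log 2 (D + 1) : ℕ) : ℝ) ≤ 1 + 1.4428 * Real.log K := by
      have hle : D + 1 ≤ 2 * K := by
        have : Nat.sqrt K ≤ K := Nat.sqrt_le_self K
        omega
      have h3 : Nat.log 2 (D + 1) ≤ Nat.log 2 (2 * K) := Nat.log_mono_right hle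
      have h4 : ((Nat.log 2 (2 * K) : ℕ) : ℝ) ≤ Real.logb 2 ((2 * K : ℕ) : ℝ) :=
        Real.natLog_le_logb _ _
      have h5 : Real.logb 2 ((2 * K : ℕ) : ℝ) = 1 + Real.log K / Real.log 2 := by
        push_cast
        rw [Real.logb_mul (by norm_num) (by positivity), Real.logb_self_eq_one (by norm_num)]
        rfl
      have h6 : Real.log K / Real.log 2 ≤ 1.4428 * Real.log K := by
        have := Real.log_two_gt_d9
        rw [div_le_iff₀ (by linarith)]
        nlinarith
      have h7 : ((Nat.log 2 (D + 1) : ℕ) : ℝ) ≤ (Nat.log 2 (2 * K) : ℕ) := by exact_mod_cast h3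
      linarith
    have h3 : K * b K s ≤ E * V3 s * (20 * (1 + Real.log K)) + K * (V s / E) := by
      have : Q E lam s * (2 / lam) ≤ E * V3 s * (20 * (1 + Real.log K)) := by
        rw [hlam1]
        have hq0 := Q_nonneg D E lam hE hlam0.le s hs
        apply mul_le_mul hQ _ (by positivity) (mul_nonneg (by linarith) hV30)
        linarith
      linarith
    have h4 : E * V3 s * (20 * (1 + Real.log K)) ≤ K * (20040 * V3 s * rr K) := by
      rw [hrr]
      have e : (K:ℝ) * (20040 * V3 s * ((1 + Real.log K) / r)) =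
          (1002 * r) * V3 s * (20 * (1 + Real.log K)) := by
        rw [← hr2]; field_simp; ring
      rw [e]
      gcongr
    have h5 : K * b K s ≤ K * (20040 * V3 s * rr K + V3 s * (1 / r)) := by
      have : (K:ℝ) * (V s / E) ≤ K * (V3 s * (1 / r)) := by gcongr
      linarith
    have h6 := le_of_mul_le_mul_left h5 hKpos
    have h7 : V3 s * (1 / r) ≤ V3 s * rr K := by gcongr
    linarith
  · have h1 := b_le_one K s
    have h2 : E ≤ V s := by
      have : (D:ℝ) + 1 ≤ s.1 := by
        have : D + 1 ≤ s.1 := by omega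
        exact_mod_cast this
      have hY : E ≤ Y s := by unfold Y; rw [hE]; linarith
      exact hY.trans (V_ge s)
    have h3 : 1 ≤ V s / E := by
      rw [le_div_iff₀ (by linarith)]; linarith
    have h7 : V3 s * (1 / r) ≤ V3 s * rr K := by gcongr
    have h8 : 0 ≤ V3 s * rr K := mul_nonneg hV30 (rr_pos K hK).le
    linarith

lemma a_le_b (L : ℕ) (u : ℝ) (hu0 : 0 ≤ u) (hu : ∀ s, Small s → a L s ≤ u) (K : ℕ) :
    ∀ s, a (K + L) s ≤ b K s + u := by
  induction K with
  | zero =>
    intro s
    rw [Nat.zero_add]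
    by_cases h : Small s
    · rw [b_small _ _ h]; have := hu s h; linarith
    · rw [b_zero_of _ h]; have := a_le_one L s; linarith
  | succ K ih =>
    intro s
    by_cases h : Small s
    · rw [b_small _ _ h]
      have h1 := hu s h
      have h2 : a (K + 1 + L) s ≤ a L s := a_anti s (by omega)
      linarith
    · rw [b_succ_of _ _ h]
      have e : K + 1 + L = (K + L) + 1 := by ring
      rw [e, a_succ]
      have := ih (nx0 s); have := ih (nx1 s); linarith

/-- maximum of `V3` over the states reached in `t` steps -/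
noncomputable def mx : ℕ → ℕ × ℤ → ℝ
  | 0, s => V3 s
  | t + 1, s => max (mx t (nx0 s)) (mx t (nx1 s))

lemma mx_ge_one (t : ℕ) : ∀ s, 1 ≤ mx t s := by
  induction t with
  | zero => intro s; exact V3_ge_one s
  | succ t ih => intro s; exact le_max_of_le_left (ih _)

lemma a_mul (M : ℕ) (p q : ℝ) (hp : 0 ≤ p) (h : ∀ s, a M s ≤ V3 s * p + q) (t : ℕ) :
    ∀ s, a (t + M) s ≤ a t s * (mx t s * p + q) := by
  induction t with
  | zero =>
    intro s
    rw [Nat.zero_add]
    by_cases hs : s = (0, 0)
    · rw [hs, a_absorb, a_absorb]; simp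
    · rw [a_zero, if_neg hs, one_mul]; exact h s
  | succ t ih =>
    intro s
    have e : t + 1 + M = (t + M) + 1 := by ring
    rw [e, a_succ, a_succ]
    have i0 := ih (nx0 s)
    have i1 := ih (nx1 s)
    have m0 : mx t (nx0 s) ≤ mx (t + 1) s := le_max_left _ _
    have m1 : mx t (nx1 s) ≤ mx (t + 1) s := le_max_right _ _
    have j0 : a t (nx0 s) * (mx t (nx0 s) * p + q) ≤ a t (nx0 s) * (mx (t + 1) s * p + q) := by
      apply mul_le_mul_of_nonneg_left _ (a_nonneg _ _)
      have := mul_le_mul_of_nonneg_right m0 hp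
      linarith
    have j1 : a t (nx1 s) * (mx t (nx1 s) * p + q) ≤ a t (nx1 s) * (mx (t + 1) s * p + q) := by
      apply mul_le_mul_of_nonneg_left _ (a_nonneg _ _)
      have := mul_le_mul_of_nonneg_right m1 hp
      linarith
    linarith

/-! ### Reachability -/

lemma reach_aux (P : ℕ × ℤ → Prop) (hP : ∀ s, P s → P (nx0 s) ∧ P (nx1 s)) (n : ℕ) :
    ∀ b : ℤ, b.natAbs ≤ n → P (0, b) → P (0, 0) := by
  -- P (1,2) → P (0,0)
  have h12 : P (1, 2) → P (0, 0) := by
    intro h
    have h1 := (hP _ h).1
    have e1 : nx0 (1, 2) = (1, 1) := by simp [nx0]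
    rw [e1] at h1
    have h2 := (hP _ h1).2
    have e2 : nx1 (1, 1) = (0, 0) := by simp [nx1]
    rwa [e2] at h2
  induction n with
  | zero =>
    intro b hb h
    have : b = 0 := by omega
    rwa [this] at h
  | succ n ih =>
    intro b hb h
    rcases Int.emod_two_eq_zero_or_one b with h2 | h2
    · by_cases h0 : b = 0
      · rwa [h0] at h
      · have h1 := (hP _ h).1
        have e1 : nx0 (0, b) = (0, b / 2) := by simp [nx0, h2]
        rw [e1] at h1
        exact ih _ (by omega) h1
    · by_cases hb1 : b = 1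
      · subst hb1
        have h1 := (hP _ h).1
        have e1 : nx0 (0, 1) = (1, 2) := by simp [nx0]
        rw [e1] at h1
        exact h12 h1
      · by_cases hb2 : b = -1
        · subst hb2
          have h1 := (hP _ h).2
          have e1 : nx1 (0, -1) = (1, 2) := by simp [nx1]
          rw [e1] at h1
          exact h12 h1
        · have h2' : ¬ (b % 2 = 0) := by omega
          have h4 : b % 4 = 1 ∨ b % 4 = 3 := by omega
          rcases h4 with h4 | h4
          · obtain ⟨c, hc⟩ : ∃ c, b = 4 * c + 1 := ⟨b / 4, by omega⟩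
            have h1 := (hP _ h).2
            have e1 : nx1 (0, b) = (1, -6 * c - 1) := by
              simp only [nx1, h2', if_false, if_true]
              ext
              · rfl
              · simp only; omega
            rw [e1] at h1
            have h3 := (hP _ h1).2
            have e2 : nx1 (1, -6 * c - 1) = (0, -3 * c - 1) := by
              have : ¬ ((-6 * c - 1) % 2 = 0) := by omega
              simp only [nx1, this, if_false]
              rw [if_neg (by norm_num)]
              ext
              · rfl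
              · simp only [Nat.sub_self, pow_zero]; omega
            rw [e2] at h3
            exact ih _ (by omega) h3
          · obtain ⟨c, hc⟩ : ∃ c, b = 4 * c + 3 := ⟨b / 4, by omega⟩
            have h1 := (hP _ h).1
            have e1 : nx0 (0, b) = (1, 6 * c + 5) := by
              simp only [nx0, h2', if_false]
              ext
              · rfl
              · simp only; omega
            rw [e1] at h1
            have h3 := (hP _ h1).2
            have e2 : nx1 (1, 6 * c + 5) = (0, 3 * c + 2) := by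
              have : ¬ ((6 * c + 5) % 2 = 0) := by omega
              simp only [nx1, this, if_false]
              rw [if_neg (by norm_num)]
              ext
              · rfl
              · simp only [Nat.sub_self, pow_zero]; omega
            rw [e2] at h3
            exact ih _ (by omega) h3

lemma exists_lt_one (b : ℤ) : ∃ K, a K (0, b) < 1 := by
  by_contra hcon
  push Not at hcon
  have h1 : ∀ s, (∀ K, 1 ≤ a K s) → (∀ K, 1 ≤ a K (nx0 s)) ∧ (∀ K, 1 ≤ a K (nx1 s)) := by
    intro s hs
    constructor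
    · intro K
      have := hs (K + 1)
      rw [a_succ] at this
      have := a_le_one K (nx1 s)
      linarith
    · intro K
      have := hs (K + 1)
      rw [a_succ] at this
      have := a_le_one K (nx0 s)
      linarith
  have h2 := reach_aux (fun s => ∀ K, 1 ≤ a K s) h1 b.natAbs b le_rfl hcon
  have h3 := h2 0
  rw [a_absorb] at h3
  linarith

lemma small_finite : {s : ℕ × ℤ | Small s}.Finite := by
  apply Set.Finite.subset (Set.Finite.prod (Set.finite_singleton (0:ℕ))
    (Set.finite_Icc (-400000000000000000000 : ℤ) 400000000000000000000))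
  rintro ⟨d, β⟩ ⟨h1, h2⟩
  exact ⟨h1, abs_le.mp h2⟩

lemma exists_t0 : ∃ (t0 : ℕ) (θ Mx : ℝ), 0 ≤ θ ∧ θ < 1 ∧ 1 ≤ Mx ∧
    (∀ s, Small s → a t0 s ≤ θ) ∧ (∀ s, Small s → mx t0 s ≤ Mx) := by
  classical
  obtain ⟨F, hF⟩ : ∃ F : Finset (ℕ × ℤ), ∀ s, s ∈ F ↔ Small s :=
    ⟨small_finite.toFinset, fun s => by simp⟩
  have hne : F.Nonempty := ⟨(0, 0), by rw [hF]; exact ⟨rfl, by norm_num⟩⟩
  choose κ hκ using exists_lt_one
  obtain ⟨t0, ht0⟩ : ∃ t0, t0 = F.sup (fun s => κ s.2) := ⟨_, rfl⟩
  obtain ⟨s1, hs1, hmax1⟩ := Finset.exists_max_image F (a t0) hne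
  obtain ⟨s2, hs2, hmax2⟩ := Finset.exists_max_image F (mx t0) hne
  refine ⟨t0, a t0 s1, mx t0 s2, a_nonneg _ _, ?_, mx_ge_one _ _, ?_, ?_⟩
  · have h1 : κ s1.2 ≤ t0 := by rw [ht0]; exact Finset.le_sup (f := fun s => κ s.2) hs1
    have h2 : a t0 s1 ≤ a (κ s1.2) s1 := a_anti s1 h1
    have h3 : s1 = (0, s1.2) := by
      have := ((hF s1).mp hs1).1
      ext
      · exact this
      · rfl
    have h4 := hκ s1.2
    rw [← h3] at h4
    linarith
  · intro s hs; exact hmax1 s ((hF s).mpr hs)
  · intro s hs; exact hmax2 s ((hF s).mpr hs)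

lemma rr_le {M N : ℕ} (hM : 1 ≤ M) (hMN : M ≤ N) : rr M ≤ (N / M : ℝ) * rr N := by
  have h1 : (1:ℝ) ≤ M := by exact_mod_cast hM
  have h2 : (M:ℝ) ≤ N := by exact_mod_cast hMN
  have h3 : (1:ℝ) ≤ N := h1.trans h2
  unfold rr
  have l1 : Real.log M ≤ Real.log N := Real.log_le_log (by linarith) h2
  have l0 : 0 ≤ Real.log M := Real.log_nonneg h1
  obtain ⟨m, hm⟩ : ∃ m, m = Real.sqrt M := ⟨_, rfl⟩
  obtain ⟨n, hn⟩ : ∃ n, n = Real.sqrt N := ⟨_, rfl⟩
  have hm2 : m * m = M := by rw [hm]; exact Real.mul_self_sqrt (by linarith)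
  have hn2 : n * n = N := by rw [hn]; exact Real.mul_self_sqrt (by linarith)
  have hm0 : 0 < m := by rw [hm]; exact Real.sqrt_pos.mpr (by linarith)
  have hn0 : 0 < n := by rw [hn]; exact Real.sqrt_pos.mpr (by linarith)
  have hmn : m ≤ n := by rw [hm, hn]; exact Real.sqrt_le_sqrt h2
  rw [← hm, ← hn]
  calc (1 + Real.log M) / m ≤ (1 + Real.log N) / m := by gcongr
    _ = (1 + Real.log N) / n * (n / m) := by field_simp
    _ ≤ (1 + Real.log N) / n * (N / M) := by
        apply mul_le_mul_of_nonneg_left _ (by positivity)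
        rw [← hm2, ← hn2, div_le_div_iff₀ hm0 (by positivity)]
        nlinarith [mul_pos hm0 hn0]
    _ = _ := by ring

lemma small_decay : ∃ B : ℝ, 0 < B ∧ ∀ N : ℕ, 1 ≤ N → ∀ s, Small s → a N s ≤ B * rr N := by
  obtain ⟨t0, θ, Mx, hθ0, hθ1, hMx, hat, hmt⟩ := exists_t0
  obtain ⟨q, hq⟩ : ∃ q : ℕ, 2 + 4 / (1 - θ) ≤ q := exists_nat_ge _
  have h1θ : 0 < 1 - θ := by linarith
  have hq2 : (2:ℝ) + 4 ≤ q := by
    have : (4:ℝ) ≤ 4 / (1 - θ) := by
      rw [le_div_iff₀ h1θ]; linarith
    linarith
  have hq3 : (q:ℝ) / (q - 2) ≤ 1 + (1 - θ) / 2 := by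
    have h5 : 4 ≤ (q - 2) * (1 - θ) := by
      have := mul_le_mul_of_nonneg_right hq h1θ.le
      have e : (2 + 4 / (1 - θ)) * (1 - θ) = 2 * (1 - θ) + 4 := by field_simp
      rw [e] at this
      linarith
    rw [div_le_iff₀ (by linarith)]
    nlinarith
  obtain ⟨N1, hN1⟩ : ∃ N1 : ℕ, N1 = q * (t0 + 2) := ⟨_, rfl⟩
  have hqn : 6 ≤ q := by
    have : (6:ℝ) ≤ q := by linarith
    exact_mod_cast this
  have hN1pos : 1 ≤ N1 := by rw [hN1]; nlinarith
  obtain ⟨B, hB⟩ : ∃ B : ℝ, B = Real.sqrt N1 + 4 * q * (Mx * 20041) / (1 - θ) := ⟨_, rfl⟩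
  have hsN1 : 0 < Real.sqrt N1 := Real.sqrt_pos.mpr (by exact_mod_cast hN1pos)
  have hB0 : 0 < B := by rw [hB]; positivity
  refine ⟨B, hB0, ?_⟩
  intro N
  induction N using Nat.strong_induction_on with
  | _ N ih =>
    intro hN s hs
    have hN' : (1:ℝ) ≤ N := by exact_mod_cast hN
    by_cases hsm : N ≤ N1
    · have h1 := a_le_one N s
      have h2 : 1 ≤ B * rr N := by
        have h3 : 1 / Real.sqrt N1 ≤ rr N := by
          unfold rr
          have hl := Real.log_nonneg hN'
          have : Real.sqrt N ≤ Real.sqrt N1 := Real.sqrt_le_sqrt (by exact_mod_cast hsm)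
          have h0 : 0 < Real.sqrt N := Real.sqrt_pos.mpr (by linarith)
          exact div_le_div₀ (by linarith) (by linarith) h0 this
        have h4 : Real.sqrt N1 ≤ B := by
          rw [hB]
          have : 0 ≤ 4 * q * (Mx * 20041) / (1 - θ) := by positivity
          linarith
        calc (1:ℝ) = Real.sqrt N1 * (1 / Real.sqrt N1) := by field_simp
          _ ≤ B * rr N := by
            apply mul_le_mul h4 h3 (by positivity) hB0.le
      linarith
    · push Not at hsm
      obtain ⟨K, hK⟩ : ∃ K, K = N / q := ⟨_, rfl⟩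
      have hqK : q * K ≤ N := by rw [hK]; exact Nat.mul_div_le N q
      have hqK2 : N < q * K + q := by
        rw [hK]; exact Nat.lt_mul_div_succ N (by omega)
      have hqN : q * (t0 + 2) < N := by rw [← hN1]; exact hsm
      have ht0K : t0 + 1 ≤ K := by
        by_contra hcon
        push Not at hcon
        have : q * K ≤ q * t0 := Nat.mul_le_mul_left q (by omega)
        have : q * (t0 + 2) = q * t0 + q + q := by ring
        omega
      have hK1 : 1 ≤ K := by omega
      have h6K : 6 * K ≤ q * K := Nat.mul_le_mul_right K hqn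
      obtain ⟨L, hL⟩ : ∃ L, N = t0 + (K + L) := ⟨N - t0 - K, by omega⟩
      have hL1 : 1 ≤ L := by omega
      have hLN : L < N := by omega
      have hsmall : ∀ s, Small s → a L s ≤ B * rr L := ih L hLN hL1
      have hrrL := rr_pos L hL1
      have hrrK := rr_pos K hK1
      have hrrN := rr_pos N hN
      have hM : ∀ s, a (K + L) s ≤ V3 s * (20041 * rr K) + B * rr L := by
        intro s
        have h1 := a_le_b L (B * rr L) (by positivity) hsmall K s
        have h2 := b_decay K hK1 s
        linarith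
      have h3 := a_mul (K + L) (20041 * rr K) (B * rr L) (by positivity) hM t0 s
      rw [← hL] at h3
      have h4 : a t0 s * (mx t0 s * (20041 * rr K) + B * rr L) ≤
          θ * (Mx * (20041 * rr K) + B * rr L) := by
        have hm0 := mx_ge_one t0 s
        apply mul_le_mul (hat s hs) _ (by positivity) hθ0
        have := hmt s hs
        gcongr
      -- bounds for rr K, rr L
      have hKR : (1:ℝ) ≤ K := by exact_mod_cast hK1
      have hLR : (1:ℝ) ≤ L := by exact_mod_cast hL1
      have hrK : rr K ≤ 2 * q * rr N := by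
        refine (rr_le (N := N) hK1 (by omega)).trans ?_
        apply mul_le_mul_of_nonneg_right _ hrrN.le
        rw [div_le_iff₀ (by linarith)]
        have : N ≤ 2 * q * K := by
          have : q ≤ q * K := Nat.le_mul_of_pos_right q hK1
          nlinarith
        exact_mod_cast this
      have hrL : rr L ≤ (1 + (1 - θ) / 2) * rr N := by
        refine (rr_le hL1 hLN.le).trans ?_
        apply mul_le_mul_of_nonneg_right _ hrrN.le
        refine le_trans ?_ hq3
        rw [div_le_div_iff₀ (by linarith) (by linarith)]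
        -- N (q-2) ≤ q L
        have h8 : N * q ≤ q * L + 2 * N := by
          have e : N * q = q * t0 + q * K + q * L := by rw [hL]; ring
          have : q * t0 ≤ q * K := Nat.mul_le_mul_left q (by omega)
          omega
        have h9 : (N:ℝ) * q ≤ q * L + 2 * N := by exact_mod_cast h8
        linarith
      have h10 : θ * (Mx * (20041 * rr K) + B * rr L) ≤
          (Mx * 20041) * (2 * q * rr N) + θ * (1 + (1 - θ) / 2) * (B * rr N) := by
        have e1 : θ * (Mx * (20041 * rr K)) ≤ 1 * ((Mx * 20041) * (2 * q * rr N)) := by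
          have : Mx * (20041 * rr K) ≤ (Mx * 20041) * (2 * q * rr N) := by
            rw [← mul_assoc]; gcongr
          apply mul_le_mul hθ1.le this (by positivity) (by norm_num)
        have e2 : θ * (B * rr L) ≤ θ * (B * ((1 + (1 - θ) / 2) * rr N)) := by gcongr
        linarith
      have h11 : θ * (1 + (1 - θ) / 2) ≤ 1 - (1 - θ) / 2 := by nlinarith
      have h12 : θ * (1 + (1 - θ) / 2) * (B * rr N) ≤ (1 - (1 - θ) / 2) * (B * rr N) := by
        apply mul_le_mul_of_nonneg_right h11 (by positivity)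
      have h13 : (Mx * 20041) * (2 * q * rr N) ≤ (1 - θ) / 2 * (B * rr N) := by
        have : (Mx * 20041) * (2 * q) ≤ (1 - θ) / 2 * B := by
          rw [hB]
          have e : (1 - θ) / 2 * (Real.sqrt N1 + 4 * q * (Mx * 20041) / (1 - θ)) =
              (1 - θ) / 2 * Real.sqrt N1 + (Mx * 20041) * (2 * q) := by
            field_simp; ring
          rw [e]
          have : 0 ≤ (1 - θ) / 2 * Real.sqrt N1 := by positivity
          linarith
        have := mul_le_mul_of_nonneg_right this hrrN.le
        linarith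
      linarith

lemma V3_le (s : ℕ × ℤ) : V3 s ≤ 8012 * (1 + s.1 + G s) := by
  have hY := Y_ge s
  have hGR := GR_nonneg s
  have hG := G_nonneg s
  have hR := R_le s
  have hlog : ((Nat.log 2 s.1 : ℕ) : ℝ) ≤ s.1 := by exact_mod_cast log_le_self s.1
  have hs : Real.sqrt (Y s) ≤ Y s := by
    apply Real.sqrt_le_iff.mpr
    refine ⟨by linarith, by nlinarith⟩
  have hd : (G s + R s) / Y s ^ 3 ≤ G s + R s := by
    apply div_le_self hGR
    have : (1:ℝ) ≤ Y s := by linarith
    exact one_le_pow₀ this
  have hs1 : (0:ℝ) ≤ s.1 := by positivity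
  have hYd : Y s = 1000 + s.1 := rfl
  unfold V3 V
  linarith

theorem decay : ∃ C : ℝ, 0 < C ∧ ∀ N : ℕ, 1 ≤ N → ∀ s : ℕ × ℤ,
    a N s ≤ C * (1 + s.1 + G s) * rr N := by
  obtain ⟨B, hB, hsm⟩ := small_decay
  refine ⟨3 * (20041 * 8012 + B), by positivity, ?_⟩
  intro N hN s
  have hG := G_nonneg s
  have hs1 : (0:ℝ) ≤ s.1 := by positivity
  obtain ⟨W, hW⟩ : ∃ W, W = 1 + (s.1:ℝ) + G s := ⟨_, rfl⟩
  have hW1 : 1 ≤ W := by rw [hW]; linarith
  rw [← hW]
  rcases Nat.lt_or_ge N 2 with h2 | h2
  · have : N = 1 := by omega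
    subst this
    have h1 := a_le_one 1 s
    have h3 : rr 1 = 1 := by simp [rr]
    rw [h3]
    nlinarith
  · obtain ⟨K, hK⟩ : ∃ K, K = N / 2 := ⟨_, rfl⟩
    obtain ⟨L, hL⟩ : ∃ L, N = K + L := ⟨N - K, by omega⟩
    have hK1 : 1 ≤ K := by omega
    have hL1 : 1 ≤ L := by omega
    have hrrN := rr_pos N hN
    have h1 := a_le_b L (B * rr L) (by have := rr_pos L hL1; positivity) (hsm L hL1) K s
    rw [← hL] at h1
    have h3 := b_decay K hK1 s
    have hKR : (1:ℝ) ≤ K := by exact_mod_cast hK1
    have hLR : (1:ℝ) ≤ L := by exact_mod_cast hL1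
    have rK : rr K ≤ 3 * rr N := by
      refine (rr_le (N := N) hK1 (by omega)).trans ?_
      apply mul_le_mul_of_nonneg_right _ hrrN.le
      rw [div_le_iff₀ (by linarith)]
      have : N ≤ 3 * K := by omega
      exact_mod_cast this
    have rL : rr L ≤ 3 * rr N := by
      refine (rr_le (N := N) hL1 (by omega)).trans ?_
      apply mul_le_mul_of_nonneg_right _ hrrN.le
      rw [div_le_iff₀ (by linarith)]
      have : N ≤ 3 * L := by omega
      exact_mod_cast this
    have hV3 := V3_le s
    rw [← hW] at hV3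
    have hV30 := V3_ge_one s
    have rK0 := rr_pos K hK1
    have e1 : 20041 * V3 s * rr K ≤ 20041 * (8012 * W) * (3 * rr N) := by gcongr
    have e2 : B * rr L ≤ B * W * (3 * rr N) := by
      have : B * rr L ≤ B * (3 * rr N) := by gcongr
      refine this.trans ?_
      have : B * (3 * rr N) * 1 ≤ B * (3 * rr N) * W := by gcongr
      linarith
    linarith

end Pool.Agent.H30.Co
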