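import Pool.Agent.H30.Co.Gap

set_option autoImplicit false

namespace Pool.Agent.H30.Co.GOIntervals

open Pool.Agent.H30 Filter

/-- The set of integers with divergent trajectory. -/
def Div : Set ℤ := {n | Tendsto (fun k : ℕ => |T^[k] n|) atTop atTop}

lemma div_inv : Co.Inv Div := by
  intro n
  have e1 : (fun k : ℕ => |T^[k] (T n)|) = (fun k : ℕ => |T^[k + 1] n|) := by
    funext k; rw [Function.iterate_succ_apply]
  show Tendsto (fun k : ℕ => |T^[k] (T n)|) atTop atTop ↔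
    Tendsto (fun k : ℕ => |T^[k] n|) atTop atTop
  rw [e1]
  exact tendsto_add_atTop_iff_nat (f := fun k : ℕ => |T^[k] n|) 1

lemma zero_notMem_div : (0:ℤ) ∉ Div := by
  intro h
  have h0 : ∀ k : ℕ, T^[k] 0 = 0 := by
    intro k
    induction k with
    | zero => rfl
    | succ k ih => rw [Function.iterate_succ_apply', ih]; rfl
  have h1 : Tendsto (fun _ : ℕ => (0:ℤ)) atTop atTop := by
    refine h.congr (fun k => ?_)
    rw [h0 k]; simp
  exact not_tendsto_const_atTop _ _ h1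

/-- For every nonzero integer `m` and every `L` there are `2^L` consecutive integers
`n, n + 1, ...`, with `|n| ≤ |m| 2^(3^(C (L+1)^5))`, whose trajectories all coalesce, after
the same number `t` of steps, with each other and with the trajectory of `m`. Consequently no
integer has a divergent trajectory if and only if, for all large `|x|`, at least one integer in
`[x, x + exp (c (log log |x|)^(1/5))]` has a trajectory which is not divergent. -/
theorem result :
    (∃ C : ℕ, ∀ (m : ℤ) (L : ℕ), m ≠ 0 → ∃ (n : ℤ) (t u : ℕ),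
      |n| ≤ |m| * 2 ^ (3 ^ (C * (L + 1) ^ 5)) ∧
      ∀ j : ℕ, j < 2 ^ L → T^[t] (n + (j:ℤ)) = T^[u] m) ∧
    (∃ c : ℝ, 0 < c ∧ ((∀ n : ℤ, n ∉ Div) ↔ ∃ X₀ : ℝ, ∀ x : ℤ, X₀ ≤ |(x:ℝ)| →
      ∃ n : ℤ, n ∉ Div ∧ x ≤ n ∧
        (n:ℝ) ≤ x + Real.exp (c * (Real.log (Real.log |(x:ℝ)|)) ^ ((1:ℝ) / 5)))) := by
  refine ⟨Co.thick, ?_⟩
  obtain ⟨c, hc, h⟩ := Co.gap
  refine ⟨c, hc, ?_, ?_⟩
  · intro hno
    refine ⟨0, ?_⟩
    intro x _
    refine ⟨x, hno x, le_rfl, ?_⟩
    have h1 := Real.exp_pos (c * (Real.log (Real.log |(x:ℝ)|)) ^ ((1:ℝ) / 5))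
    linarith
  · intro hgap m hm
    have hm0 : m ≠ 0 := by
      rintro rfl
      exact zero_notMem_div hm
    exact h Div div_inv m hm hm0 hgap

end Pool.Agent.H30.Co.GOIntervals
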