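import Pool.Agent.H30.Co.Thick

/-!
Invariant sets and gaps.
-/

set_option autoImplicit false

namespace Pool.Agent.H30.Co

open Pool.Agent.H30

lemma exp_quarter (L : ℕ) : Real.exp (((L:ℝ) + 2) / 4) < 2 ^ (L + 1) := by
  have hq : Real.exp (1 / 4) ≤ 1.3 := by
    have h1 := Real.exp_one_lt_d9
    have h2 : Real.exp (1 / 4) ^ 4 = Real.exp 1 := by
      rw [← Real.exp_nat_mul]; norm_num
    by_contra h
    push_neg at h
    have h3 : (1.3:ℝ) ^ 4 < Real.exp (1 / 4) ^ 4 := by gcongr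
    rw [h2] at h3
    norm_num at h3
    linarith
  induction L with
  | zero =>
    have e1 : (((0:ℕ):ℝ) + 2) / 4 = 1 / 4 + 1 / 4 := by norm_num
    rw [e1, Real.exp_add]
    have := Real.exp_pos (1 / 4)
    nlinarith
  | succ L ih =>
    have e1 : (((L + 1 : ℕ) : ℝ) + 2) / 4 = ((L:ℝ) + 2) / 4 + 1 / 4 := by push_cast; ring
    rw [e1, Real.exp_add]
    have h1 := Real.exp_pos (1 / 4)
    have h2 := Real.exp_pos (((L:ℝ) + 2) / 4)
    calc Real.exp (((L:ℝ) + 2) / 4) * Real.exp (1 / 4) ≤ Real.exp (((L:ℝ) + 2) / 4) * 1.3 := by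
          gcongr
      _ < 2 ^ (L + 1) * 2 := by nlinarith
      _ = 2 ^ (L + 1 + 1) := by ring

/-- If an invariant set contains a nonzero integer, its complement has large gaps. -/
theorem gap : ∃ c : ℝ, 0 < c ∧ ∀ A : Set ℤ, Inv A → ∀ m ∈ A, m ≠ 0 →
    ¬ ∃ X₀ : ℝ, ∀ x : ℤ, X₀ ≤ |(x:ℝ)| →
      ∃ n : ℤ, n ∉ A ∧ x ≤ n ∧
        (n:ℝ) ≤ x + Real.exp (c * (Real.log (Real.log |(x:ℝ)|)) ^ ((1:ℝ) / 5)) := by
  obtain ⟨C, hC⟩ := thick
  obtain ⟨W, hW⟩ : ∃ W : ℝ, W = 1 + 2 * C := ⟨_, rfl⟩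
  have hC0 : (0:ℝ) ≤ C := by positivity
  have hW1 : 1 ≤ W := by rw [hW]; linarith
  refine ⟨1 / (4 * W), by positivity, ?_⟩
  rintro A hA m hmA hm ⟨X₀, hX₀⟩
  obtain ⟨x₀, hx₀, hx₀'⟩ : ∃ x₀ : ℕ, X₀ ≤ x₀ ∧ 16 ≤ x₀ := by
    obtain ⟨k, hk⟩ := exists_nat_ge X₀
    exact ⟨max k 16, hk.trans (by exact_mod_cast le_max_left _ _), le_max_right _ _⟩
  obtain ⟨n₀, hn₀A, hn₀1, _⟩ := hX₀ (x₀:ℤ) (by
    push_cast
    rw [abs_of_nonneg (by positivity)]; exact hx₀)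
  -- choose L
  obtain ⟨M, hM⟩ : ∃ M : ℝ, M = |(m:ℝ)| := ⟨_, rfl⟩
  have hM1 : 1 ≤ M := by
    rw [hM]
    have := Int.one_le_abs hm
    exact_mod_cast this
  have hlogM : 0 ≤ Real.log M := Real.log_nonneg hM1
  obtain ⟨H1, hH1⟩ := exists_nat_ge (Real.log (1 + Real.log M))
  obtain ⟨L, hL⟩ : ∃ L : ℕ, L = H1 + 3 + (n₀.natAbs + x₀ + 2) := ⟨_, rfl⟩
  obtain ⟨n, t, u, hn1, hn2⟩ := hC m L hm
  have hLL : L < 2 ^ L := Nat.lt_two_pow_self
  -- the interval lies in A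
  have hmem : ∀ y : ℤ, n ≤ y → y < n + ((2 ^ L : ℕ) : ℤ) → y ∈ A := by
    intro y h1 h2
    obtain ⟨j, hj⟩ : ∃ j : ℕ, y = n + j := ⟨(y - n).toNat, by omega⟩
    have h3 := hn2 j (by omega)
    rw [hj, ← hA.iter t, h3, hA.iter]
    exact hmA
  rcases le_or_gt (x₀:ℤ) |n| with hbig | hsmall
  · -- large n
    have hbigR : (x₀:ℝ) ≤ |(n:ℝ)| := by exact_mod_cast hbig
    obtain ⟨y, hyA, hy1, hy2⟩ := hX₀ n (hx₀.trans hbigR)
    apply hyA
    apply hmem y hy1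
    -- bound for the logarithm
    have h16 : (16:ℝ) ≤ |(n:ℝ)| := by
      have : (16:ℝ) ≤ x₀ := by exact_mod_cast hx₀'
      linarith
    have hP : (0:ℝ) < 3 ^ (C * (L + 1) ^ 5) := by positivity
    have hP1 : (1:ℝ) ≤ 3 ^ (C * (L + 1) ^ 5) := one_le_pow₀ (by norm_num)
    have hnR : |(n:ℝ)| ≤ M * 2 ^ (3 ^ (C * (L + 1) ^ 5)) := by
      rw [hM]
      have : ((|n| : ℤ) : ℝ) ≤ ((|m| * 2 ^ (3 ^ (C * (L + 1) ^ 5)) : ℤ) : ℝ) := by
        exact_mod_cast hn1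
      push_cast at this
      exact this
    have hlog1 : Real.log |(n:ℝ)| ≤ (1 + Real.log M) * 3 ^ (C * (L + 1) ^ 5) := by
      have h1 : Real.log |(n:ℝ)| ≤ Real.log (M * 2 ^ (3 ^ (C * (L + 1) ^ 5))) :=
        Real.log_le_log (by linarith) hnR
      rw [Real.log_mul (by linarith) (by positivity), Real.log_pow] at h1
      have h2 := Real.log_two_lt_d9
      have h3 : (((3 ^ (C * (L + 1) ^ 5) : ℕ)) : ℝ) = 3 ^ (C * (L + 1) ^ 5) := by push_cast; ring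
      rw [h3] at h1
      nlinarith
    have hlog0 : 1 ≤ Real.log |(n:ℝ)| := by
      have h1 : Real.log (Real.exp 1) ≤ Real.log |(n:ℝ)| := by
        apply Real.log_le_log (Real.exp_pos _)
        have := Real.exp_one_lt_d9
        linarith
      rwa [Real.log_exp] at h1
    have hll0 : 0 ≤ Real.log (Real.log |(n:ℝ)|) := Real.log_nonneg hlog0
    have hLR1 : (1:ℝ) ≤ (L:ℝ) + 1 := by
      have : (0:ℝ) ≤ L := by positivity
      linarith
    have hll : Real.log (Real.log |(n:ℝ)|) ≤ W * (L + 1) ^ 5 := by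
      have h1 : Real.log (Real.log |(n:ℝ)|) ≤ Real.log ((1 + Real.log M) * 3 ^ (C * (L + 1) ^ 5)) :=
        Real.log_le_log (by linarith) hlog1
      rw [Real.log_mul (by linarith) (by positivity), Real.log_pow] at h1
      have h3 : Real.log 3 ≤ 2 := by
        have := Real.log_le_sub_one_of_pos (show (0:ℝ) < 3 by norm_num)
        linarith
      have h4 : ((C * (L + 1) ^ 5 : ℕ) : ℝ) = C * ((L:ℝ) + 1) ^ 5 := by push_cast; ring
      rw [h4] at h1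
      have h5 : (H1:ℝ) ≤ ((L:ℝ) + 1) ^ 5 := by
        have h6 : (H1:ℝ) ≤ (L:ℝ) + 1 := by
          have : H1 ≤ L + 1 := by omega
          exact_mod_cast this
        exact h6.trans (le_self_pow₀ hLR1 (by norm_num))
      have h8 : (C:ℝ) * ((L:ℝ) + 1) ^ 5 * Real.log 3 ≤ C * ((L:ℝ) + 1) ^ 5 * 2 := by gcongr
      rw [hW]
      nlinarith
    have hroot : (Real.log (Real.log |(n:ℝ)|)) ^ ((1:ℝ) / 5) ≤ W * (L + 1) := by
      calc (Real.log (Real.log |(n:ℝ)|)) ^ ((1:ℝ) / 5) ≤ ((W * (L + 1)) ^ 5) ^ ((1:ℝ) / 5) := by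
            apply Real.rpow_le_rpow hll0 _ (by norm_num)
            refine hll.trans ?_
            rw [mul_pow]
            have : W ≤ W ^ 5 := le_self_pow₀ hW1 (by norm_num)
            gcongr
        _ = W * (L + 1) := by
            rw [← Real.rpow_natCast, ← Real.rpow_mul (by positivity)]
            norm_num
    have hfin : 1 / (4 * W) * (Real.log (Real.log |(n:ℝ)|)) ^ ((1:ℝ) / 5) ≤ (L + 1) / 4 := by
      calc 1 / (4 * W) * (Real.log (Real.log |(n:ℝ)|)) ^ ((1:ℝ) / 5) ≤ 1 / (4 * W) * (W * (L + 1)) := by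
            gcongr
        _ = (L + 1) / 4 := by field_simp
    have hexp : Real.exp (1 / (4 * W) * (Real.log (Real.log |(n:ℝ)|)) ^ ((1:ℝ) / 5)) < 2 ^ L := by
      obtain ⟨L', hL'⟩ : ∃ L', L = L' + 1 := ⟨L - 1, by omega⟩
      have h1 := exp_quarter L'
      have h2 : Real.exp (1 / (4 * W) * (Real.log (Real.log |(n:ℝ)|)) ^ ((1:ℝ) / 5)) ≤
          Real.exp (((L':ℝ) + 2) / 4) := by
        apply Real.exp_le_exp.mpr
        refine hfin.trans ?_
        rw [hL']; push_cast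
        linarith
      rw [hL']
      exact lt_of_le_of_lt h2 h1
    have : (y:ℝ) < n + 2 ^ L := by linarith
    exact_mod_cast this
  · -- small n
    apply hn₀A
    apply hmem n₀
    · rw [abs_lt] at hsmall; omega
    · rw [abs_lt] at hsmall; omega

end Pool.Agent.H30.Co
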