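import Pool.Agent.H30.Co.Main

/-!
Consequences of coalescence for invariant sets of integers.
-/

set_option autoImplicit false

namespace Pool.Agent.H30.Co

open Pool.Agent.H30

/-- `A` is invariant: `n ∈ A ↔ T n ∈ A`. -/
def Inv (A : Set ℤ) : Prop := ∀ n, T n ∈ A ↔ n ∈ A

lemma cnt_eq (P : ℤ → Prop) [DecidablePred P] (u v : ℤ) :
    cnt P u v = ((Finset.Ico u v).filter P).card := by
  unfold cnt
  congr

lemma Inv.iter {A : Set ℤ} (hA : Inv A) (k : ℕ) : ∀ n, T^[k] n ∈ A ↔ n ∈ A := by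
  induction k with
  | zero => intro n; simp
  | succ k ih => intro n; rw [Function.iterate_succ_apply, ih, hA]

lemma rr_small (η : ℝ) (hη : 0 < η) : ∃ K : ℕ, 1 ≤ K ∧ rr K ≤ η := by
  obtain ⟨m, hm⟩ : ∃ m : ℕ, 5 / η ≤ m := exists_nat_ge _
  refine ⟨(m + 1) ^ 4, Nat.one_le_pow _ _ (by omega), ?_⟩
  have hm1 : (0:ℝ) < (m:ℝ) + 1 := by positivity
  unfold rr
  push_cast
  have e1 : Real.sqrt (((m:ℝ) + 1) ^ 4) = ((m:ℝ) + 1) ^ 2 := by
    rw [show ((m:ℝ) + 1) ^ 4 = (((m:ℝ) + 1) ^ 2) ^ 2 by ring]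
    exact Real.sqrt_sq (by positivity)
  rw [e1, Real.log_pow]
  have h2 : Real.log ((m:ℝ) + 1) ≤ m + 1 - 1 := Real.log_le_sub_one_of_pos hm1
  have hm0 : (0:ℝ) ≤ m := by positivity
  push_cast
  rw [div_le_iff₀ (by positivity)]
  have h5 : 5 ≤ η * m := by
    rw [div_le_iff₀ hη] at hm; linarith
  have h6 : 5 * ((m:ℝ) + 1) ≤ η * ((m:ℝ) + 1) ^ 2 := by nlinarith
  linarith

/-- points where membership of `n` and `2^e 3^d n + b` differ are rare -/
lemma small_diff (e d : ℕ) (b : ℤ) (ε : ℝ) (hε : 0 < ε) : ∃ X₀ : ℕ, ∀ A : Set ℤ, Inv A →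
    ∀ (x : ℤ) (X : ℕ), X₀ ≤ X →
      (cnt (fun n => ¬ (n ∈ A ↔ 2 ^ e * 3 ^ d * n + b ∈ A)) x (x + X) : ℝ) ≤ ε * X := by
  obtain ⟨C, hC, h⟩ := coalescence
  obtain ⟨W, hW⟩ : ∃ W, W = C * (1 + e + d + Real.log (1 + |(b:ℝ)|)) := ⟨_, rfl⟩
  have hlog : 0 ≤ Real.log (1 + |(b:ℝ)|) := by
    apply Real.log_nonneg
    have := abs_nonneg (b:ℝ)
    linarith
  have hW0 : 0 < W := by rw [hW]; positivity
  obtain ⟨K, hK1, hK⟩ := rr_small (ε / (2 * W)) (by positivity)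
  obtain ⟨X₀, hX₀⟩ : ∃ X₀ : ℕ, 2 * 2 ^ (K + 1) / ε ≤ X₀ := exists_nat_ge _
  refine ⟨X₀, ?_⟩
  intro A hA x X hX
  have h1 := h e d K b x (x + X) hK1 (by omega)
  rw [← hW] at h1
  have h2 : cnt (fun n => ¬ (n ∈ A ↔ 2 ^ e * 3 ^ d * n + b ∈ A)) x (x + X) ≤
      cnt (fun n => ∀ k ≤ K, T^[k] n ≠ T^[k + e] (2 ^ e * 3 ^ d * n + b)) x (x + X) := by
    apply cnt_mono
    intro n _ _ hn k _ hk
    apply hn
    rw [← hA.iter k n, hk, hA.iter]
  have h3 : (cnt (fun n => ¬ (n ∈ A ↔ 2 ^ e * 3 ^ d * n + b ∈ A)) x (x + X) : ℝ) ≤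
      cnt (fun n => ∀ k ≤ K, T^[k] n ≠ T^[k + e] (2 ^ e * 3 ^ d * n + b)) x (x + X) := by
    exact_mod_cast h2
  have h4 : W * rr K ≤ ε / 2 := by
    calc W * rr K ≤ W * (ε / (2 * W)) := by gcongr
      _ = ε / 2 := by field_simp
  have h5 : (2:ℝ) ^ (K + 1) ≤ ε / 2 * X := by
    have : (X₀:ℝ) ≤ X := by exact_mod_cast hX
    rw [div_le_iff₀ hε] at hX₀
    nlinarith
  have e1 : (((x + X : ℤ) : ℝ)) - x = X := by push_cast; ring
  rw [e1] at h1
  have h6 : W * rr K * X ≤ ε / 2 * X := by gcongr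
  linarith

lemma cnt_or (P Q : ℤ → Prop) (u v : ℤ) : cnt (fun n => P n ∨ Q n) u v ≤ cnt P u v + cnt Q u v := by
  classical
  unfold cnt
  refine le_trans (Finset.card_le_card ?_) (Finset.card_union_le _ _)
  intro n hn
  simp only [Finset.mem_union, Finset.mem_filter] at hn ⊢
  rcases hn with ⟨h1, h2 | h2⟩
  · exact Or.inl ⟨h1, h2⟩
  · exact Or.inr ⟨h1, h2⟩

lemma cnt_exists {ι : Type*} (I : Finset ι) (P : ι → ℤ → Prop) (u v : ℤ) :
    cnt (fun n => ∃ i ∈ I, P i n) u v ≤ ∑ i ∈ I, cnt (P i) u v := by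
  classical
  induction I using Finset.induction_on with
  | empty =>
    unfold cnt
    simp
  | insert i I hi ih =>
    rw [Finset.sum_insert hi]
    have : cnt (fun n => ∃ j ∈ insert i I, P j n) u v ≤
        cnt (fun n => P i n ∨ (∃ j ∈ I, P j n)) u v := by
      apply cnt_mono
      rintro n _ _ ⟨j, hj, hP⟩
      rcases Finset.mem_insert.mp hj with h1 | h1
      · left; rwa [h1] at hP
      · exact Or.inr ⟨j, h1, hP⟩
    exact this.trans ((cnt_or _ _ _ _).trans (by gcongr))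

/-- zero-one law -/
theorem zero_one (A : Set ℤ) (hA : Inv A) :
    (∀ ε : ℝ, 0 < ε → ∃ X₀ : ℕ, ∀ (x : ℤ) (X : ℕ), X₀ ≤ X →
      (cnt (fun n => n ∈ A) x (x + X) : ℝ) ≤ ε * X) ∨
    (∀ H : ℕ, ∃ n : ℤ, ∀ (e d : ℕ) (b : ℤ), e ≤ H → d ≤ H → |b| ≤ H →
      2 ^ e * 3 ^ d * n + b ∈ A) := by
  classical
  by_cases hcase : ∀ ε : ℝ, 0 < ε → ∃ X₀ : ℕ, ∀ (x : ℤ) (X : ℕ), X₀ ≤ X →
      (cnt (fun n => n ∈ A) x (x + X) : ℝ) ≤ ε * X
  · exact Or.inl hcase
  · right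
    push Not at hcase
    obtain ⟨ε, hε, hbig⟩ := hcase
    intro H
    obtain ⟨I, hI⟩ : ∃ I : Finset (ℕ × ℕ × ℤ), I = Finset.range (H + 1) ×ˢ
      Finset.range (H + 1) ×ˢ Finset.Icc (-(H:ℤ)) H := ⟨_, rfl⟩
    have hε' : 0 < ε / (2 * (I.card + 1)) := by positivity
    choose X0 hX0 using fun i : ℕ × ℕ × ℤ =>
      small_diff i.1 i.2.1 i.2.2 (ε / (2 * (I.card + 1))) hε'
    obtain ⟨x, X, hX, hc⟩ := hbig (max 1 (I.sup X0))
    have hX1 : 1 ≤ X := le_trans (le_max_left _ _) hX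
    have hXR : (1:ℝ) ≤ X := by exact_mod_cast hX1
    have hbad : (cnt (fun n => ∃ i ∈ I, ¬ (n ∈ A ↔ 2 ^ i.1 * 3 ^ i.2.1 * n + i.2.2 ∈ A))
        x (x + X) : ℝ) ≤ ε / 2 * X := by
      have h1 : (cnt (fun n => ∃ i ∈ I, ¬ (n ∈ A ↔ 2 ^ i.1 * 3 ^ i.2.1 * n + i.2.2 ∈ A))
          x (x + X) : ℝ) ≤ ∑ i ∈ I,
          (cnt (fun n => ¬ (n ∈ A ↔ 2 ^ i.1 * 3 ^ i.2.1 * n + i.2.2 ∈ A)) x (x + X) : ℝ) := by
        exact_mod_cast cnt_exists I
          (fun i n => ¬ (n ∈ A ↔ 2 ^ i.1 * 3 ^ i.2.1 * n + i.2.2 ∈ A)) x (x + X)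
      refine h1.trans ?_
      calc ∑ i ∈ I, (cnt (fun n => ¬ (n ∈ A ↔ 2 ^ i.1 * 3 ^ i.2.1 * n + i.2.2 ∈ A)) x (x + X) : ℝ)
          ≤ ∑ i ∈ I, ε / (2 * (I.card + 1)) * X := by
            apply Finset.sum_le_sum
            intro i hi
            exact hX0 i A hA x X (le_trans (Finset.le_sup hi) (le_trans (le_max_right _ _) hX))
        _ = I.card * (ε / (2 * (I.card + 1)) * X) := by rw [Finset.sum_const]; simp
        _ ≤ ε / 2 * X := by
            have h3 : (I.card:ℝ) * (ε / (2 * (I.card + 1))) ≤ ε / 2 := by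
              rw [← mul_div_assoc, div_le_div_iff₀ (by positivity) (by norm_num)]
              nlinarith
            have := mul_le_mul_of_nonneg_right h3 (by linarith : (0:ℝ) ≤ X)
            linarith
    -- a good point exists
    by_contra hcon
    have hsub : cnt (fun n => n ∈ A) x (x + X) ≤
        cnt (fun n => ∃ i ∈ I, ¬ (n ∈ A ↔ 2 ^ i.1 * 3 ^ i.2.1 * n + i.2.2 ∈ A)) x (x + X) := by
      apply cnt_mono
      intro n _ _ hn
      by_contra hno
      push Not at hno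
      apply hcon
      refine ⟨n, ?_⟩
      intro e d b he hd hb
      have hmem : (e, d, b) ∈ I := by
        rw [hI]
        simp only [Finset.mem_product, Finset.mem_range, Finset.mem_Icc]
        have := abs_le.mp hb
        omega
      have := hno (e, d, b) hmem
      exact this.1 hn
    have hsub' : (cnt (fun n => n ∈ A) x (x + X) : ℝ) ≤
        cnt (fun n => ∃ i ∈ I, ¬ (n ∈ A ↔ 2 ^ i.1 * 3 ^ i.2.1 * n + i.2.2 ∈ A)) x (x + X) := by
      exact_mod_cast hsub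
    have : 0 < ε * X := by positivity
    linarith

/-- comparison of residue classes -/
lemma class_compare (A : Set ℤ) (m : ℕ) (r r' : ℤ) (x : ℤ) (X : ℕ) :
    cnt (fun n => n ∈ A ∧ n ≡ r [ZMOD m]) x (x + X) ≤
      cnt (fun n => n ∈ A ∧ n ≡ r' [ZMOD m]) x (x + X) +
      cnt (fun n => ¬ (n ∈ A ↔ n + (r' - r) ∈ A)) x (x + X) + (r' - r).natAbs := by
  classical
  rw [cnt_eq, cnt_eq, cnt_eq]
  obtain ⟨h, hh⟩ : ∃ h, h = r' - r := ⟨_, rfl⟩
  rw [← hh]
  -- exceptional positions near the boundary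
  have hb : ((Finset.Ico x (x + X)).filter (fun n => ¬ (x ≤ n + h ∧ n + h < x + X))).card
      ≤ h.natAbs := by
    have hsub : (Finset.Ico x (x + X)).filter (fun n => ¬ (x ≤ n + h ∧ n + h < x + X)) ⊆
        Finset.Ico x (x - h) ∪ Finset.Ico (x + X - h) (x + X) := by
      intro n hn
      simp only [Finset.mem_filter, Finset.mem_Ico, Finset.mem_union] at hn ⊢
      omega
    refine (Finset.card_le_card hsub).trans ((Finset.card_union_le _ _).trans ?_)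
    simp only [Int.card_Ico]
    omega
  have hsub : (Finset.Ico x (x + X)).filter (fun n => n ∈ A ∧ n ≡ r [ZMOD m]) ⊆
      (((Finset.Ico x (x + X)).filter (fun n => n ∈ A ∧ n ≡ r' [ZMOD m])).image (fun n => n - h)) ∪
      ((Finset.Ico x (x + X)).filter (fun n => ¬ (n ∈ A ↔ n + h ∈ A))) ∪
      ((Finset.Ico x (x + X)).filter (fun n => ¬ (x ≤ n + h ∧ n + h < x + X))) := by
    intro n hn
    simp only [Finset.mem_filter, Finset.mem_Ico] at hn
    simp only [Finset.mem_union, Finset.mem_filter, Finset.mem_Ico, Finset.mem_image]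
    by_cases h1 : x ≤ n + h ∧ n + h < x + X
    · by_cases h2 : n ∈ A ↔ n + h ∈ A
      · left; left
        refine ⟨n + h, ⟨h1, h2.mp hn.2.1, ?_⟩, by ring⟩
        have : n + h ≡ r + h [ZMOD m] := hn.2.2.add_right h
        have e : r + h = r' := by rw [hh]; ring
        rwa [e] at this
      · left; right; exact ⟨hn.1, h2⟩
    · right; exact ⟨hn.1, h1⟩
  refine (Finset.card_le_card hsub).trans ?_
  refine (Finset.card_union_le _ _).trans ?_
  refine Nat.add_le_add ?_ hb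
  refine (Finset.card_union_le _ _).trans ?_
  exact Nat.add_le_add Finset.card_image_le le_rfl

/-- sum over residue classes -/
lemma class_sum (A : Set ℤ) (m : ℕ) (hm : 1 ≤ m) (x : ℤ) (X : ℕ) :
    ∑ i ∈ Finset.range m, cnt (fun n => n ∈ A ∧ n ≡ (i:ℤ) [ZMOD m]) x (x + X) =
      cnt (fun n => n ∈ A) x (x + X) := by
  classical
  unfold cnt
  rw [Finset.card_eq_sum_card_fiberwise (f := fun n : ℤ => (n % m).toNat) (t := Finset.range m)]
  · refine Finset.sum_congr rfl (fun i hi => ?_)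
    congr 1
    ext n
    have him : (i:ℤ) < m := by exact_mod_cast Finset.mem_range.mp hi
    have h0 : 0 ≤ n % (m:ℤ) := Int.emod_nonneg _ (by omega)
    have hi0 : (i:ℤ) % m = i := Int.emod_eq_of_lt (by omega) him
    simp only [Finset.mem_filter, Int.ModEq, hi0]
    constructor
    · rintro ⟨h1, h2, h3⟩
      refine ⟨⟨h1, h2⟩, ?_⟩
      rw [h3]; simp
    · rintro ⟨⟨h1, h2⟩, h3⟩
      refine ⟨h1, h2, ?_⟩
      omega
  · intro n _
    have h0 : 0 ≤ n % (m:ℤ) := Int.emod_nonneg _ (by omega)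
    have h1 : n % (m:ℤ) < m := Int.emod_lt_of_pos _ (by omega)
    simp only [Finset.coe_range, Set.mem_Iio]
    omega

/-- equidistribution in residue classes -/
theorem equidist (m : ℕ) (hm : 1 ≤ m) (ε : ℝ) (hε : 0 < ε) : ∃ X₀ : ℕ, ∀ A : Set ℤ, Inv A →
    ∀ (x r : ℤ) (X : ℕ), X₀ ≤ X →
      |(cnt (fun n => n ∈ A ∧ n ≡ r [ZMOD m]) x (x + X) : ℝ) -
        cnt (fun n => n ∈ A) x (x + X) / m| ≤ ε * X := by
  classical
  choose X0 hX0 using fun h : ℤ => small_diff 0 0 h (ε / 2) (by positivity)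
  obtain ⟨X1, hX1⟩ : ∃ X1 : ℕ, 2 * m / ε ≤ X1 := exists_nat_ge _
  refine ⟨max X1 ((Finset.Icc (-(m:ℤ)) m).sup X0), ?_⟩
  intro A hA x r X hX
  -- reduce `r` to `[0,m)`
  obtain ⟨i, him, hi⟩ : ∃ i : ℕ, i < m ∧ r % m = i := by
    have h0 : 0 ≤ r % (m:ℤ) := Int.emod_nonneg _ (by omega)
    have h1 : r % (m:ℤ) < m := Int.emod_lt_of_pos _ (by omega)
    exact ⟨(r % m).toNat, by omega, by omega⟩
  have hri : cnt (fun n => n ∈ A ∧ n ≡ r [ZMOD m]) x (x + X) =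
      cnt (fun n => n ∈ A ∧ n ≡ (i:ℤ) [ZMOD m]) x (x + X) := by
    have : (i:ℤ) % m = r % m := by
      rw [hi]; exact Int.emod_eq_of_lt (by omega) (by exact_mod_cast him)
    simp only [Int.ModEq, this]
  rw [hri]
  have hX1' : 2 * m / ε ≤ X := hX1.trans (by exact_mod_cast le_trans (le_max_left _ _) hX)
  have hmε : (m:ℝ) ≤ ε / 2 * X := by
    rw [div_le_iff₀ hε] at hX1'; linarith
  have hmR : (1:ℝ) ≤ m := by exact_mod_cast hm
  -- pairwise comparison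
  have hpair : ∀ i j : ℕ, i < m → j < m →
      (cnt (fun n => n ∈ A ∧ n ≡ (i:ℤ) [ZMOD m]) x (x + X) : ℝ) ≤
      cnt (fun n => n ∈ A ∧ n ≡ (j:ℤ) [ZMOD m]) x (x + X) + ε * X := by
    intro i j hi hj
    have h1 := class_compare A m i j x X
    have h2 : X0 ((j:ℤ) - i) ≤ X := by
      refine le_trans (Finset.le_sup (f := X0) ?_) (le_trans (le_max_right _ _) hX)
      rw [Finset.mem_Icc]; omega
    have h3 := hX0 ((j:ℤ) - i) A hA x X h2
    simp only [pow_zero, one_mul] at h3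
    have h4 : (((j:ℤ) - i).natAbs : ℝ) ≤ m := by
      have : ((j:ℤ) - i).natAbs ≤ m := by omega
      exact_mod_cast this
    have h5 : (cnt (fun n => n ∈ A ∧ n ≡ (i:ℤ) [ZMOD m]) x (x + X) : ℝ) ≤
      cnt (fun n => n ∈ A ∧ n ≡ (j:ℤ) [ZMOD m]) x (x + X) +
      cnt (fun n => ¬ (n ∈ A ↔ n + ((j:ℤ) - i) ∈ A)) x (x + X) + ((j:ℤ) - i).natAbs := by
      exact_mod_cast h1
    linarith
  have hsum : ∑ j ∈ Finset.range m, (cnt (fun n => n ∈ A ∧ n ≡ (j:ℤ) [ZMOD m]) x (x + X) : ℝ) =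
      cnt (fun n => n ∈ A) x (x + X) := by exact_mod_cast class_sum A m hm x X
  obtain ⟨f, hf⟩ : ∃ f : ℕ → ℝ, ∀ j, f j =
    (cnt (fun n => n ∈ A ∧ n ≡ (j:ℤ) [ZMOD m]) x (x + X) : ℝ) := ⟨_, fun _ => rfl⟩
  simp only [← hf] at hpair hsum ⊢
  have hup : m * f i ≤ cnt (fun n => n ∈ A) x (x + X) + m * (ε * X) := by
    rw [← hsum]
    have : ∑ j ∈ Finset.range m, f i ≤ ∑ j ∈ Finset.range m, (f j + ε * X) :=
      Finset.sum_le_sum (fun j hj => hpair i j him (Finset.mem_range.mp hj))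
    rw [Finset.sum_add_distrib] at this
    simpa using this
  have hlo : (cnt (fun n => n ∈ A) x (x + X) : ℝ) ≤ m * f i + m * (ε * X) := by
    rw [← hsum]
    have : ∑ j ∈ Finset.range m, f j ≤ ∑ j ∈ Finset.range m, (f i + ε * X) :=
      Finset.sum_le_sum (fun j hj => hpair j i (Finset.mem_range.mp hj) him)
    rw [Finset.sum_add_distrib] at this
    simpa using this
  have hm0 : (0:ℝ) < m := by linarith
  rw [abs_le]
  constructor
  · have : (cnt (fun n => n ∈ A) x (x + X) : ℝ) / m ≤ f i + ε * X := by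
      rw [div_le_iff₀ hm0]; linarith
    linarith
  · have : f i - ε * X ≤ (cnt (fun n => n ∈ A) x (x + X) : ℝ) / m := by
      rw [le_div_iff₀ hm0]; linarith
    linarith

/-- splitting a dilated interval -/
lemma dilate_sum (A : Set ℤ) (a : ℕ) (ha : 1 ≤ a) (b x : ℤ) (X : ℕ) :
    cnt (fun n => n ∈ A) (a * x + b) (a * x + b + a * X) =
      ∑ c ∈ Finset.range a, cnt (fun n => (a:ℤ) * n + (b + c) ∈ A) x (x + X) := by
  classical
  unfold cnt
  rw [Finset.card_eq_sum_card_fiberwise (f := fun n : ℤ => ((n - b) % a).toNat)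
    (t := Finset.range a)]
  · refine Finset.sum_congr rfl (fun c hc => ?_)
    have hca : (c:ℤ) < a := by exact_mod_cast Finset.mem_range.mp hc
    refine (Finset.card_bij (fun n _ => (a:ℤ) * n + (b + c)) ?_ ?_ ?_).symm
    · intro n hn
      simp only [Finset.mem_filter, Finset.mem_Ico] at hn ⊢
      have e1 : ((a:ℤ) * n + (b + c) - b) % a = c := by
        have : (a:ℤ) * n + (b + c) - b = c + a * n := by ring
        rw [this, Int.add_mul_emod_self_left]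
        exact Int.emod_eq_of_lt (by omega) hca
      refine ⟨⟨⟨?_, ?_⟩, hn.2⟩, ?_⟩
      · nlinarith [hn.1.1]
      · have : n + 1 ≤ x + X := hn.1.2
        nlinarith
      · rw [e1]; simp
    · intro n _ n' _ h
      have ha0 : (a:ℤ) ≠ 0 := by omega
      have : (a:ℤ) * n = a * n' := by linarith
      exact mul_left_cancel₀ ha0 this
    · intro k hk
      simp only [Finset.mem_filter, Finset.mem_Ico] at hk
      obtain ⟨⟨⟨h1, h2⟩, h3⟩, h4⟩ := hk
      have h0 : 0 ≤ (k - b) % (a:ℤ) := Int.emod_nonneg _ (by omega)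
      have h5 : (k - b) % (a:ℤ) = c := by omega
      have h6 : (a:ℤ) * ((k - b) / a) + (k - b) % a = k - b := Int.mul_ediv_add_emod _ _
      rw [h5] at h6
      obtain ⟨n, hn⟩ : ∃ n, n = (k - b) / (a:ℤ) := ⟨_, rfl⟩
      rw [← hn] at h6
      have hk' : (a:ℤ) * n + (b + c) = k := by linarith
      refine ⟨n, ?_, hk'⟩
      simp only [Finset.mem_filter, Finset.mem_Ico]
      have ha0 : (0:ℤ) < a := by omega
      refine ⟨⟨?_, ?_⟩, by rw [hk']; exact h3⟩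
      · by_contra hcon
        push Not at hcon
        have : n + 1 ≤ x := hcon
        nlinarith
      · by_contra hcon
        push Not at hcon
        nlinarith
  · intro n _
    have h0 : 0 ≤ (n - b) % (a:ℤ) := Int.emod_nonneg _ (by omega)
    have h1 : (n - b) % (a:ℤ) < a := Int.emod_lt_of_pos _ (by omega)
    simp only [Finset.coe_range, Set.mem_Iio]
    omega

/-- scale invariance of the density -/
theorem scale (e d : ℕ) (b : ℤ) (ε : ℝ) (hε : 0 < ε) : ∃ X₀ : ℕ, ∀ A : Set ℤ, Inv A →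
    ∀ (x : ℤ) (X : ℕ), X₀ ≤ X →
      |(cnt (fun n => n ∈ A) (2 ^ e * 3 ^ d * x + b) (2 ^ e * 3 ^ d * x + b + 2 ^ e * 3 ^ d * X) : ℝ)
        / (2 ^ e * 3 ^ d) - cnt (fun n => n ∈ A) x (x + X)| ≤ ε * X := by
  classical
  choose X0 hX0 using fun h : ℤ => small_diff e d h ε hε
  obtain ⟨a, ha⟩ : ∃ a : ℕ, a = 2 ^ e * 3 ^ d := ⟨_, rfl⟩
  have ha1 : 1 ≤ a := by rw [ha]; exact Nat.mul_pos (by positivity) (by positivity)
  have haZ : (2:ℤ) ^ e * 3 ^ d = a := by rw [ha]; push_cast; ring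
  have haR : (2:ℝ) ^ e * 3 ^ d = a := by rw [ha]; push_cast; ring
  refine ⟨(Finset.range a).sup (fun c : ℕ => X0 (b + c)), ?_⟩
  intro A hA x X hX
  rw [haZ, haR]
  rw [dilate_sum A a ha1 b x X]
  have ha0 : (0:ℝ) < a := by exact_mod_cast ha1
  have hc : ∀ c ∈ Finset.range a,
      |(cnt (fun n => (a:ℤ) * n + (b + c) ∈ A) x (x + X) : ℝ) - cnt (fun n => n ∈ A) x (x + X)|
        ≤ ε * X := by
    intro c hc
    have h1 := hX0 (b + c) A hA x X (le_trans (Finset.le_sup (f := fun c : ℕ => X0 (b + c)) hc) hX)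
    rw [haZ] at h1
    have h2 : cnt (fun n => (a:ℤ) * n + (b + c) ∈ A) x (x + X) ≤
        cnt (fun n => n ∈ A) x (x + X) + cnt (fun n => ¬ (n ∈ A ↔ (a:ℤ) * n + (b + c) ∈ A)) x (x + X) := by
      refine le_trans (cnt_mono ?_) (cnt_or _ _ _ _)
      intro n _ _ hn
      by_cases h : n ∈ A
      · exact Or.inl h
      · exact Or.inr (fun h' => h (h'.mpr hn))
    have h3 : cnt (fun n => n ∈ A) x (x + X) ≤ cnt (fun n => (a:ℤ) * n + (b + c) ∈ A) x (x + X) +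
        cnt (fun n => ¬ (n ∈ A ↔ (a:ℤ) * n + (b + c) ∈ A)) x (x + X) := by
      refine le_trans (cnt_mono ?_) (cnt_or _ _ _ _)
      intro n _ _ hn
      by_cases h : (a:ℤ) * n + (b + c) ∈ A
      · exact Or.inl h
      · exact Or.inr (fun h' => h (h'.mp hn))
    have h2' : (cnt (fun n => (a:ℤ) * n + (b + c) ∈ A) x (x + X) : ℝ) ≤
        cnt (fun n => n ∈ A) x (x + X) + cnt (fun n => ¬ (n ∈ A ↔ (a:ℤ) * n + (b + c) ∈ A)) x (x + X) := by
      exact_mod_cast h2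
    have h3' : (cnt (fun n => n ∈ A) x (x + X) : ℝ) ≤
        cnt (fun n => (a:ℤ) * n + (b + c) ∈ A) x (x + X) +
        cnt (fun n => ¬ (n ∈ A ↔ (a:ℤ) * n + (b + c) ∈ A)) x (x + X) := by
      exact_mod_cast h3
    rw [abs_le]; constructor <;> linarith
  have h4 : |(∑ c ∈ Finset.range a, (cnt (fun n => (a:ℤ) * n + (b + c) ∈ A) x (x + X) : ℝ))
      - a * cnt (fun n => n ∈ A) x (x + X)| ≤ a * (ε * X) := by
    have e1 : (∑ c ∈ Finset.range a, (cnt (fun n => (a:ℤ) * n + (b + c) ∈ A) x (x + X) : ℝ))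
      - a * cnt (fun n => n ∈ A) x (x + X) = ∑ c ∈ Finset.range a,
        ((cnt (fun n => (a:ℤ) * n + (b + c) ∈ A) x (x + X) : ℝ) - cnt (fun n => n ∈ A) x (x + X)) := by
      rw [Finset.sum_sub_distrib]; simp
    rw [e1]
    refine (Finset.abs_sum_le_sum_abs _ _).trans ((Finset.sum_le_sum hc).trans ?_)
    simp
  push_cast
  have e2 : (∑ c ∈ Finset.range a, (cnt (fun n => (a:ℤ) * n + (b + c) ∈ A) x (x + X) : ℝ)) / a
      - cnt (fun n => n ∈ A) x (x + X) =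
      ((∑ c ∈ Finset.range a, (cnt (fun n => (a:ℤ) * n + (b + c) ∈ A) x (x + X) : ℝ))
      - a * cnt (fun n => n ∈ A) x (x + X)) / a := by
    field_simp
  rw [e2, abs_div, abs_of_pos ha0, div_le_iff₀ ha0]
  linarith

end Pool.Agent.H30.Co
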