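import Pool.Agent.H30.Co.Comp

/-!
Lyapunov functions `V` and `Q` for the chain.
-/

set_option autoImplicit false

namespace Pool.Agent.H30.Co

open Pool.Agent.H30

/-- `y = 1000 + d` -/
noncomputable def Y (s : ℕ × ℤ) : ℝ := 1000 + s.1

/-- The small set: `d = 0`, `|β| ≤ 4·10^20`. -/
def Small (s : ℕ × ℤ) : Prop := s.1 = 0 ∧ |s.2| ≤ 400000000000000000000

noncomputable def V (s : ℕ × ℤ) : ℝ := Y s + Real.sqrt (Y s) + (G s + R s) / Y s ^ 3

noncomputable def Q (E lam : ℝ) (s : ℕ × ℤ) : ℝ :=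
  2 * E * Y s - Y s ^ 2 + lam * (G s + R s) + 3 * E * V s

lemma Y_ge (s : ℕ × ℤ) : 1000 ≤ Y s := by unfold Y; have : (0:ℝ) ≤ s.1 := by positivity
                                          linarith

lemma G_large (s : ℕ × ℤ) (h : ¬ Small s) (hd : s.1 = 0) : 20000000000 ≤ G s := by
  obtain ⟨d, β⟩ := s
  simp only at hd
  subst hd
  have h1 : 400000000000000000000 < |β| := by
    by_contra hcon
    exact h ⟨rfl, by simpa using hcon⟩
  unfold G
  simp only [pow_zero, div_one]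
  apply Real.le_sqrt_of_sq_le
  have h2 : (400000000000000000000 : ℝ) < |(β:ℝ)| := by exact_mod_cast h1
  norm_num; linarith

lemma sqrt_second (y : ℝ) (hy : 1 ≤ y) :
    Real.sqrt (y + 1) + Real.sqrt (y - 1) ≤ 2 * Real.sqrt y - 1 / (4 * (y * Real.sqrt y)) := by
  have hy0 : 0 < y := by linarith
  obtain ⟨r, hr⟩ : ∃ r, r = Real.sqrt y := ⟨_, rfl⟩
  have hr0 : 0 < r := by rw [hr]; exact Real.sqrt_pos.mpr hy0
  have hr2 : r ^ 2 = y := by rw [hr]; exact Real.sq_sqrt hy0.le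
  have hr1 : 1 ≤ r := by nlinarith
  obtain ⟨p, hp⟩ : ∃ p, p = Real.sqrt (y + 1) := ⟨_, rfl⟩
  obtain ⟨q, hq⟩ : ∃ q, q = Real.sqrt (y - 1) := ⟨_, rfl⟩
  have hp0 : 0 ≤ p := by rw [hp]; exact Real.sqrt_nonneg _
  have hq0 : 0 ≤ q := by rw [hq]; exact Real.sqrt_nonneg _
  have hp2 : p ^ 2 = y + 1 := by rw [hp]; exact Real.sq_sqrt (by linarith)
  have hq2 : q ^ 2 = y - 1 := by rw [hq]; exact Real.sq_sqrt (by linarith)
  rw [← hr, ← hp, ← hq]
  have hu : 1 / (2 * y) ≤ 1 / 2 := by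
    apply one_div_le_one_div_of_le (by norm_num); linarith
  have hu0 : 0 < 1 / (2 * y) := by positivity
  have hpq : p * q ≤ y - 1 / (2 * y) := by
    rw [← pow_le_pow_iff_left₀ (by positivity) (by linarith) (two_ne_zero)]
    have e1 : (p * q) ^ 2 = y ^ 2 - 1 := by
      calc (p * q) ^ 2 = p ^ 2 * q ^ 2 := by ring
        _ = y ^ 2 - 1 := by rw [hp2, hq2]; ring
    have e2 : (y - 1 / (2 * y)) ^ 2 = y ^ 2 - 1 + (1 / (2 * y)) ^ 2 := by
      field_simp; ring
    rw [e1, e2]; nlinarith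
  have ht : 1 / (4 * (y * r)) ≤ 1 := by
    rw [div_le_one (by positivity)]; nlinarith
  rw [← pow_le_pow_iff_left₀ (by positivity) (by linarith) (two_ne_zero)]
  have e3 : (p + q) ^ 2 = 2 * y + 2 * (p * q) := by
    calc (p + q) ^ 2 = p ^ 2 + q ^ 2 + 2 * (p * q) := by ring
      _ = 2 * y + 2 * (p * q) := by rw [hp2, hq2]; ring
  have e4 : (2 * r - 1 / (4 * (y * r))) ^ 2 = 4 * y - 1 / y + (1 / (4 * (y * r))) ^ 2 := by
    rw [← hr2]; field_simp; ring
  rw [e3, e4]
  have e5 : 1 / y = 2 * (1 / (2 * y)) := by field_simp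
  rw [e5]
  nlinarith [sq_nonneg (1 / (4 * (y * r)))]

lemma log_le_self (n : ℕ) : Nat.log 2 n ≤ n := Nat.log_le_self 2 n

/-- the two successors if `β` is even -/
lemma succ_even (s : ℕ × ℤ) (h : s.2 % 2 = 0) : (nx0 s).1 = s.1 ∧ (nx1 s).1 = s.1 := by
  simp [nx0, nx1, h]

/-- the two successors if `β` is odd, `d ≥ 1` -/
lemma succ_odd (s : ℕ × ℤ) (h : s.2 % 2 = 1) (hd : s.1 ≠ 0) :
    (nx0 s).1 = s.1 + 1 ∧ (nx1 s).1 = s.1 - 1 := by
  have h' : ¬ (s.2 % 2 = 0) := by omega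
  simp [nx0, nx1, hd, h]

/-- the two successors if `β` is odd, `d = 0` -/
lemma succ_odd_zero (s : ℕ × ℤ) (h : s.2 % 2 = 1) (hd : s.1 = 0) :
    (nx0 s).1 = 1 ∧ (nx1 s).1 = 1 := by
  simp [nx0, nx1, hd, h]

/-- sums of the components over the two successors -/
lemma GR_even (s : ℕ × ℤ) (h : s.2 % 2 = 0) (hd : 1 ≤ s.1) :
    (G (nx0 s) + R (nx0 s)) + (G (nx1 s) + R (nx1 s)) ≤ 2 * (G s + R s) - 1 := by
  have h0 := G_nx0 s
  have h1 := G_nx1 s
  have h2 := R_even s hd h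
  have h3 := G_nonneg s
  rw [if_pos h] at h0
  rw [if_neg (by omega)] at h1
  linarith

lemma R_zero (s : ℕ × ℤ) (hd : s.1 = 0) : R s = 0 := by unfold R; rw [if_pos hd]

lemma GR_even_zero (s : ℕ × ℤ) (h : s.2 % 2 = 0) (hd : s.1 = 0) :
    (G (nx0 s) + R (nx0 s)) + (G (nx1 s) + R (nx1 s)) ≤ 1.932 * (G s + R s) := by
  have h0 := G_nx0 s
  have h1 := G_nx1 s
  obtain ⟨e0, e1⟩ := succ_even s h
  rw [if_pos h] at h0
  rw [if_pos ⟨hd, h⟩] at h1
  rw [R_zero s hd, R_zero (nx0 s) (by rw [e0, hd]), R_zero (nx1 s) (by rw [e1, hd])]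
  linarith

lemma GR_odd (s : ℕ × ℤ) (h : s.2 % 2 = 1) (hd : 1 ≤ s.1) :
    (G (nx0 s) + R (nx0 s)) + (G (nx1 s) + R (nx1 s)) ≤
      1.932 * (G s + R s) + 2 * (4 + Nat.log 2 (s.1 + 1)) := by
  have h0 := G_nx0 s
  have h1 := G_nx1 s
  obtain ⟨e0, e1⟩ := succ_odd s h (by omega)
  rw [if_neg (by omega)] at h0
  rw [if_neg (by omega)] at h1
  have r0 := R_le (nx0 s)
  have r1 := R_le (nx1 s)
  rw [e0] at r0
  rw [e1] at r1
  have r2 : ((Nat.log 2 (s.1 - 1) : ℕ) : ℝ) ≤ (Nat.log 2 (s.1 + 1) : ℕ) := by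
    exact_mod_cast Nat.log_mono_right (by omega)
  rw [R_odd s h]
  linarith

lemma GR_odd_zero (s : ℕ × ℤ) (h : s.2 % 2 = 1) (hd : s.1 = 0) :
    (G (nx0 s) + R (nx0 s)) + (G (nx1 s) + R (nx1 s)) ≤ 1.4144 * (G s + R s) + 7 := by
  have h0 := G_nx0 s
  rw [if_neg (by omega)] at h0
  have h1 : G (nx1 s) ≤ 0.7072 * G s + 0.41 := by
    obtain ⟨d, β⟩ := s
    simp only at hd h
    subst hd
    exact G_nx1_zero β h
  obtain ⟨e0, e1⟩ := succ_odd_zero s h hd
  have r0 := R_le (nx0 s)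
  have r1 := R_le (nx1 s)
  rw [e0] at r0
  rw [e1] at r1
  simp at r0 r1
  rw [R_odd s h]
  linarith

lemma GR_nonneg (s : ℕ × ℤ) : 0 ≤ G s + R s := add_nonneg (G_nonneg s) (R_nonneg s)

lemma V_ge (s : ℕ × ℤ) : Y s ≤ V s := by
  unfold V
  have h1 := Real.sqrt_nonneg (Y s)
  have h2 : 0 ≤ (G s + R s) / Y s ^ 3 := by
    have := GR_nonneg s
    have := Y_ge s
    positivity
  linarith

/-- `V` is superharmonic off the small set -/
lemma V_drift (s : ℕ × ℤ) (hs : ¬ Small s) : V (nx0 s) + V (nx1 s) ≤ 2 * V s := by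
  have hY := Y_ge s
  have hGR := GR_nonneg s
  rcases Int.emod_two_eq_zero_or_one s.2 with h | h
  · obtain ⟨e0, e1⟩ := succ_even s h
    have y0 : Y (nx0 s) = Y s := by unfold Y; rw [e0]
    have y1 : Y (nx1 s) = Y s := by unfold Y; rw [e1]
    have key : (G (nx0 s) + R (nx0 s)) + (G (nx1 s) + R (nx1 s)) ≤ 2 * (G s + R s) := by
      rcases Nat.eq_zero_or_pos s.1 with hd | hd
      · have := GR_even_zero s h hd; linarith
      · have := GR_even s h hd; linarith
    unfold V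
    rw [y0, y1]
    have : (G (nx0 s) + R (nx0 s)) / Y s ^ 3 + (G (nx1 s) + R (nx1 s)) / Y s ^ 3 ≤
        2 * ((G s + R s) / Y s ^ 3) := by
      rw [← add_div, ← mul_div_assoc]
      gcongr
    linarith
  · rcases Nat.eq_zero_or_pos s.1 with hd | hd
    · -- d = 0, β odd
      have hG := G_large s hs hd
      obtain ⟨e0, e1⟩ := succ_odd_zero s h hd
      have y : Y s = 1000 := by unfold Y; rw [hd]; norm_num
      have y0 : Y (nx0 s) = 1001 := by unfold Y; rw [e0]; norm_num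
      have y1 : Y (nx1 s) = 1001 := by unfold Y; rw [e1]; norm_num
      have key := GR_odd_zero s h hd
      unfold V
      rw [y, y0, y1]
      have hs1 : Real.sqrt 1001 ≤ Real.sqrt 1000 + 1 := by
        apply Real.sqrt_le_iff.mpr
        refine ⟨by positivity, ?_⟩
        have := Real.sq_sqrt (show (0:ℝ) ≤ 1000 by norm_num)
        have := Real.sqrt_nonneg (1000:ℝ)
        nlinarith
      have h1 : (G (nx0 s) + R (nx0 s)) / 1001 ^ 3 + (G (nx1 s) + R (nx1 s)) / 1001 ^ 3 ≤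
          (1.4144 * (G s + R s) + 7) / 1000 ^ 3 := by
        rw [← add_div]
        have : 0 ≤ 1.4144 * (G s + R s) + 7 := by positivity
        exact div_le_div₀ this key (by norm_num) (by norm_num)
      have hR := R_nonneg s
      have h2 : 2 * ((G s + R s) / 1000 ^ 3) = (2 * (G s + R s)) / 1000 ^ 3 := by ring
      have h3 : (1.4144 * (G s + R s) + 7) / 1000 ^ 3 + 10 ≤ (2 * (G s + R s)) / 1000 ^ 3 := by
        rw [div_add' _ _ _ (by norm_num)]
        gcongr
        nlinarith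
      linarith
    · -- d ≥ 1, β odd
      obtain ⟨e0, e1⟩ := succ_odd s h (by omega)
      have y0 : Y (nx0 s) = Y s + 1 := by unfold Y; rw [e0]; push_cast; ring
      have y1 : Y (nx1 s) = Y s - 1 := by
        unfold Y; rw [e1, Nat.cast_sub hd]; push_cast; ring
      have key := GR_odd s h hd
      have hdY : Y s = 1000 + (s.1:ℝ) := rfl
      have hlog : ((Nat.log 2 (s.1 + 1) : ℕ) : ℝ) ≤ s.1 + 1 := by
        exact_mod_cast log_le_self (s.1 + 1)
      unfold V
      rw [y0, y1]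
      obtain ⟨y, hy⟩ : ∃ y, y = Y s := ⟨_, rfl⟩
      rw [← hy] at hY hdY ⊢
      obtain ⟨g, hg⟩ : ∃ g, g = G s + R s := ⟨_, rfl⟩
      rw [← hg] at key hGR ⊢
      have hsq := sqrt_second y (by linarith)
      have hy1 : 0 < y - 1 := by linarith
      have hk2 : (G (nx0 s) + R (nx0 s)) + (G (nx1 s) + R (nx1 s)) ≤ 1.932 * g + 2 * (y - 1) := by
        have : (y:ℝ) = 1000 + s.1 := hdY
        linarith
      have hn0 := GR_nonneg (nx0 s)
      have h1 : (G (nx0 s) + R (nx0 s)) / (y + 1) ^ 3 ≤ (G (nx0 s) + R (nx0 s)) / (y - 1) ^ 3 := by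
        apply div_le_div_of_nonneg_left hn0 (by positivity)
        gcongr; linarith
      have h2 : (G (nx0 s) + R (nx0 s)) / (y + 1) ^ 3 + (G (nx1 s) + R (nx1 s)) / (y - 1) ^ 3 ≤
          (1.932 * g + 2 * (y - 1)) / (y - 1) ^ 3 := by
        refine (add_le_add_left h1 _).trans ?_
        rw [← add_div]
        gcongr
      have h3 : (1.932 * g + 2 * (y - 1)) / (y - 1) ^ 3 = 1.932 * g / (y - 1) ^ 3
          + 2 / (y - 1) ^ 2 := by
        field_simp
      have h4 : 1.932 * g / (y - 1) ^ 3 ≤ 2 * (g / y ^ 3) := by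
        rw [← mul_div_assoc, div_le_div_iff₀ (by positivity) (by positivity)]
        have : 1.932 * y ^ 3 ≤ 2 * (y - 1) ^ 3 := by
          have e : (y - 1) ^ 3 = y ^ 3 - 3 * y ^ 2 + 3 * y - 1 := by ring
          rw [e]
          nlinarith [mul_nonneg (sq_nonneg y) (by linarith : (0:ℝ) ≤ y - 1000)]
        nlinarith
      have h5 : 2 / (y - 1) ^ 2 ≤ 1 / (4 * (y * Real.sqrt y)) := by
        have hr : 31 ≤ Real.sqrt y := by
          apply Real.le_sqrt_of_sq_le; linarith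
        have hr2 : Real.sqrt y * Real.sqrt y = y := Real.mul_self_sqrt (by linarith)
        rw [div_le_div_iff₀ (by positivity) (by positivity)]
        have h6 : 31 * (y * Real.sqrt y) ≤ y * y := by
          calc 31 * (y * Real.sqrt y) ≤ Real.sqrt y * (y * Real.sqrt y) := by gcongr
            _ = y * (Real.sqrt y * Real.sqrt y) := by ring
            _ = y * y := by rw [hr2]
        nlinarith
      linarith

/-- stronger drift at `d = 0`, `β` odd -/
lemma V_drift_zero (s : ℕ × ℤ) (hs : ¬ Small s) (h : s.2 % 2 = 1) (hd : s.1 = 0) :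
    V (nx0 s) + V (nx1 s) ≤ 2 * V s - 2 := by
  have hG := G_large s hs hd
  have hGR := GR_nonneg s
  obtain ⟨e0, e1⟩ := succ_odd_zero s h hd
  have y : Y s = 1000 := by unfold Y; rw [hd]; norm_num
  have y0 : Y (nx0 s) = 1001 := by unfold Y; rw [e0]; norm_num
  have y1 : Y (nx1 s) = 1001 := by unfold Y; rw [e1]; norm_num
  have key := GR_odd_zero s h hd
  unfold V
  rw [y, y0, y1]
  have hs1 : Real.sqrt 1001 ≤ Real.sqrt 1000 + 1 := by
    apply Real.sqrt_le_iff.mpr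
    refine ⟨by positivity, ?_⟩
    have := Real.sq_sqrt (show (0:ℝ) ≤ 1000 by norm_num)
    have := Real.sqrt_nonneg (1000:ℝ)
    nlinarith
  have h1 : (G (nx0 s) + R (nx0 s)) / 1001 ^ 3 + (G (nx1 s) + R (nx1 s)) / 1001 ^ 3 ≤
      (1.4144 * (G s + R s) + 7) / 1000 ^ 3 := by
    rw [← add_div]
    have : 0 ≤ 1.4144 * (G s + R s) + 7 := by positivity
    exact div_le_div₀ this key (by norm_num) (by norm_num)
  have hR := R_nonneg s
  have h2 : 2 * ((G s + R s) / 1000 ^ 3) = (2 * (G s + R s)) / 1000 ^ 3 := by ring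
  have h3 : (1.4144 * (G s + R s) + 7) / 1000 ^ 3 + 10 ≤ (2 * (G s + R s)) / 1000 ^ 3 := by
    rw [div_add' _ _ _ (by norm_num)]
    gcongr
    nlinarith
  linarith

/-- `Q` has drift at most `-lam/2` off the small set, for `d ≤ D`. -/
lemma Q_drift (D : ℕ) (E lam : ℝ) (hE : E = 1001 + D)
    (hlam : lam = 1 / (2 * (4 + Nat.log 2 (D + 1)))) (s : ℕ × ℤ) (hs : ¬ Small s)
    (hsD : s.1 ≤ D) : Q E lam (nx0 s) + Q E lam (nx1 s) ≤ 2 * Q E lam s - lam := by
  have hY := Y_ge s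
  have hGR := GR_nonneg s
  have hV := V_drift s hs
  have hE0 : 1001 ≤ E := by rw [hE]; have : (0:ℝ) ≤ D := by positivity
                            linarith
  have hL : (0:ℝ) ≤ (Nat.log 2 (D + 1) : ℕ) := by positivity
  have hlam0 : 0 < lam := by rw [hlam]; positivity
  have hlam1 : lam * (2 * (4 + Nat.log 2 (D + 1))) = 1 := by
    rw [hlam]; field_simp
  have hlam2 : lam ≤ 1 := by nlinarith
  rcases Int.emod_two_eq_zero_or_one s.2 with h | h
  · obtain ⟨e0, e1⟩ := succ_even s h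
    have y0 : Y (nx0 s) = Y s := by unfold Y; rw [e0]
    have y1 : Y (nx1 s) = Y s := by unfold Y; rw [e1]
    have key : (G (nx0 s) + R (nx0 s)) + (G (nx1 s) + R (nx1 s)) ≤ 2 * (G s + R s) - 1 := by
      rcases Nat.eq_zero_or_pos s.1 with hd | hd
      · have := GR_even_zero s h hd
        have := G_large s hs hd
        have := R_nonneg s
        linarith
      · have := GR_even s h hd; linarith
    unfold Q
    rw [y0, y1]
    have m1 := mul_le_mul_of_nonneg_left key hlam0.le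
    have m2 := mul_le_mul_of_nonneg_left hV (by linarith : (0:ℝ) ≤ 3 * E)
    linarith
  · rcases Nat.eq_zero_or_pos s.1 with hd | hd
    · have hV2 := V_drift_zero s hs h hd
      have hG := G_large s hs hd
      obtain ⟨e0, e1⟩ := succ_odd_zero s h hd
      have y : Y s = 1000 := by unfold Y; rw [hd]; norm_num
      have y0 : Y (nx0 s) = 1001 := by unfold Y; rw [e0]; norm_num
      have y1 : Y (nx1 s) = 1001 := by unfold Y; rw [e1]; norm_num
      have key := GR_odd_zero s h hd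
      have hR := R_nonneg s
      have key2 : (G (nx0 s) + R (nx0 s)) + (G (nx1 s) + R (nx1 s)) ≤ 2 * (G s + R s) := by
        linarith
      unfold Q
      rw [y, y0, y1]
      have m1 := mul_le_mul_of_nonneg_left key2 hlam0.le
      have m2 := mul_le_mul_of_nonneg_left hV2 (by linarith : (0:ℝ) ≤ 3 * E)
      linarith
    · obtain ⟨e0, e1⟩ := succ_odd s h (by omega)
      have y0 : Y (nx0 s) = Y s + 1 := by unfold Y; rw [e0]; push_cast; ring
      have y1 : Y (nx1 s) = Y s - 1 := by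
        unfold Y; rw [e1, Nat.cast_sub hd]; push_cast; ring
      have key := GR_odd s h hd
      have hlog : ((Nat.log 2 (s.1 + 1) : ℕ) : ℝ) ≤ (Nat.log 2 (D + 1) : ℕ) := by
        exact_mod_cast Nat.log_mono_right (by omega)
      have key2 : (G (nx0 s) + R (nx0 s)) + (G (nx1 s) + R (nx1 s)) ≤
          2 * (G s + R s) + 2 * (4 + (Nat.log 2 (D + 1) : ℕ)) := by
        have : 0 ≤ G s + R s := hGR
        linarith
      unfold Q
      rw [y0, y1]
      have m1 := mul_le_mul_of_nonneg_left key2 hlam0.le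
      have m2 := mul_le_mul_of_nonneg_left hV (by linarith : (0:ℝ) ≤ 3 * E)
      nlinarith

lemma Q_nonneg (D : ℕ) (E lam : ℝ) (hE : E = 1001 + D) (hlam : 0 ≤ lam) (s : ℕ × ℤ)
    (hsD : s.1 ≤ D + 1) : 0 ≤ Q E lam s := by
  have hY := Y_ge s
  have hGR := GR_nonneg s
  have hV := V_ge s
  have hYE : Y s ≤ E := by
    have : (s.1:ℝ) ≤ D + 1 := by exact_mod_cast hsD
    unfold Y; rw [hE]; linarith
  have h1 : 0 ≤ 2 * E * Y s - Y s ^ 2 := by nlinarith
  have h2 : 0 ≤ lam * (G s + R s) := mul_nonneg hlam hGR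
  have h3 : 0 ≤ 3 * E * V s := by
    apply mul_nonneg <;> linarith
  unfold Q; linarith

end Pool.Agent.H30.Co
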