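import Pool.Agent.H30.Co.Decay

/-!
Coalescence of `n` and `2^e 3^d n + b` for almost all `n`, uniformly.
-/

set_option autoImplicit false

namespace Pool.Agent.H30.Co

open Pool.Agent.H30

lemma nx0_fst_le (s : ℕ × ℤ) : (nx0 s).1 ≤ s.1 + 1 := (nx_le s s.1 le_rfl).1

lemma nx1_fst_le (s : ℕ × ℤ) : (nx1 s).1 ≤ s.1 + 1 := (nx_le s s.1 le_rfl).2

lemma contract (N : ℕ) (c : ℝ) (hc : 0 ≤ c) (h : ∀ s : ℕ × ℤ, a N s ≤ c * (1 + s.1 + G s)) (t : ℕ) :
    ∀ s : ℕ × ℤ, a (t + N) s ≤ c * (1 + s.1 + 2 * t + 0.966 ^ t * G s) := by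
  induction t with
  | zero =>
    intro s
    have := h s
    simpa using this
  | succ t ih =>
    intro s
    have e : t + 1 + N = (t + N) + 1 := by ring
    rw [e, a_succ]
    have i0 := ih (nx0 s)
    have i1 := ih (nx1 s)
    have g0 : G (nx0 s) ≤ 0.7072 * G s + 0.41 := by
      refine (G_nx0 s).trans ?_
      split_ifs <;> norm_num
    have g1 : G (nx1 s) ≤ 1.2248 * G s + 0.7072 := by
      refine (G_nx1 s).trans ?_
      split_ifs <;> norm_num
    have d0 : ((nx0 s).1 : ℝ) ≤ s.1 + 1 := by exact_mod_cast nx0_fst_le s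
    have d1 : ((nx1 s).1 : ℝ) ≤ s.1 + 1 := by exact_mod_cast nx1_fst_le s
    have hp0 : (0:ℝ) < 0.966 ^ t := by positivity
    have hp1 : (0.966:ℝ) ^ t ≤ 1 := pow_le_one₀ (by norm_num) (by norm_num)
    have q0 := mul_le_mul_of_nonneg_left g0 hp0.le
    have q1 := mul_le_mul_of_nonneg_left g1 hp0.le
    have key : (1 + ((nx0 s).1 : ℝ) + 2 * t + 0.966 ^ t * G (nx0 s)) +
        (1 + ((nx1 s).1 : ℝ) + 2 * t + 0.966 ^ t * G (nx1 s)) ≤
        2 * (1 + s.1 + 2 * ((t + 1 : ℕ) : ℝ) + 0.966 ^ (t + 1) * G s) := by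
      rw [pow_succ]
      push_cast
      linarith
    have := mul_le_mul_of_nonneg_left key hc
    linarith

theorem decay2 : ∃ C : ℝ, 0 < C ∧ ∀ N : ℕ, 1 ≤ N → ∀ s : ℕ × ℤ,
    a N s ≤ C * (1 + s.1 + Real.log (1 + G s)) * rr N := by
  obtain ⟨C, hC, h⟩ := decay
  refine ⟨124 * C + 60, by positivity, ?_⟩
  intro N hN s
  have hG := G_nonneg s
  obtain ⟨l, hl⟩ : ∃ l, l = Real.log (1 + G s) := ⟨_, rfl⟩
  have hl0 : 0 ≤ l := by rw [hl]; exact Real.log_nonneg (by linarith)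
  obtain ⟨m, hm⟩ : ∃ m : ℕ, m = ⌈l⌉₊ := ⟨_, rfl⟩
  have hm1 : l ≤ m := by rw [hm]; exact Nat.le_ceil l
  have hm2 : (m:ℝ) ≤ l + 1 := by rw [hm]; exact (Nat.ceil_lt_add_one hl0).le
  have hs1 : (0:ℝ) ≤ s.1 := by positivity
  have hrr := rr_pos N hN
  have hN' : (1:ℝ) ≤ N := by exact_mod_cast hN
  rw [← hl]
  by_cases hNm : 60 * m ≤ N
  · obtain ⟨M, hM⟩ : ∃ M, N = 30 * m + M := ⟨N - 30 * m, by omega⟩
    have hM1 : 1 ≤ M := by omega
    have hrM : rr M ≤ 2 * rr N := by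
      refine (rr_le (N := N) hM1 (by omega)).trans ?_
      apply mul_le_mul_of_nonneg_right _ hrr.le
      have : (1:ℝ) ≤ M := by exact_mod_cast hM1
      rw [div_le_iff₀ (by linarith)]
      have : N ≤ 2 * M := by omega
      exact_mod_cast this
    have hrM0 := rr_pos M hM1
    have h1 := contract M (C * rr M) (by positivity)
      (fun s => by have := h M hM1 s; linarith) (30 * m) s
    rw [← hM] at h1
    have h2 : (0.966:ℝ) ^ (30 * m) * G s ≤ 1 := by
      have e1 : (0.966:ℝ) ^ (30 * m) ≤ Real.exp (-l) := by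
        rw [pow_mul]
        have e2 : (0.966:ℝ) ^ 30 ≤ Real.exp (-1) := by
          have := Real.exp_one_lt_d9
          rw [Real.exp_neg]
          have h3 : (0.966:ℝ) ^ 30 ≤ 0.36 := by norm_num
          refine h3.trans ?_
          rw [le_inv_comm₀ (by norm_num) (Real.exp_pos _)]
          refine this.le.trans ?_
          norm_num
        calc ((0.966:ℝ) ^ 30) ^ m ≤ Real.exp (-1) ^ m := by gcongr
          _ = Real.exp (-(m:ℝ)) := by rw [← Real.exp_nat_mul]; congr 1; ring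
          _ ≤ Real.exp (-l) := by apply Real.exp_le_exp.mpr; linarith
      have e3 : Real.exp (-l) = 1 / (1 + G s) := by
        rw [hl, Real.exp_neg, Real.exp_log (by linarith), one_div]
      rw [e3] at e1
      calc (0.966:ℝ) ^ (30 * m) * G s ≤ 1 / (1 + G s) * G s := by gcongr
        _ ≤ 1 := by
          rw [div_mul_eq_mul_div, one_mul, div_le_one (by linarith)]; linarith
    have h3 : 1 + (s.1:ℝ) + 2 * ((30 * m : ℕ) : ℝ) + 0.966 ^ (30 * m) * G s ≤
        62 * (1 + s.1 + l) := by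
      push_cast
      linarith
    have h4 : C * rr M * (1 + (s.1:ℝ) + 2 * ((30 * m : ℕ) : ℝ) + 0.966 ^ (30 * m) * G s) ≤
        C * (2 * rr N) * (62 * (1 + s.1 + l)) := by
      gcongr
    have h5 : 0 ≤ 60 * (1 + (s.1:ℝ) + l) * rr N := by positivity
    calc a N s ≤ _ := h1
      _ ≤ C * (2 * rr N) * (62 * (1 + s.1 + l)) := h4
      _ ≤ _ := by
        have e : (124 * C + 60) * (1 + (s.1:ℝ) + l) * rr N =
          C * (2 * rr N) * (62 * (1 + s.1 + l)) + 60 * (1 + (s.1:ℝ) + l) * rr N := by ring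
        rw [e]; linarith
  · push Not at hNm
    have h1 := a_le_one N s
    have h2 : (N:ℝ) ≤ 60 * (1 + l) := by
      have : (N:ℝ) ≤ 60 * m := by exact_mod_cast hNm.le
      linarith
    have hsq : Real.sqrt N ≤ N := by
      apply Real.sqrt_le_iff.mpr
      exact ⟨by linarith, by nlinarith⟩
    have hsq0 : 0 < Real.sqrt N := Real.sqrt_pos.mpr (by linarith)
    have h3 : 1 ≤ 60 * (1 + l) * rr N := by
      unfold rr
      have hlog := Real.log_nonneg hN'
      rw [← mul_div_assoc, le_div_iff₀ hsq0]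
      nlinarith
    have h4 : 60 * (1 + l) * rr N ≤ (124 * C + 60) * (1 + s.1 + l) * rr N := by
      apply mul_le_mul_of_nonneg_right _ hrr.le
      apply mul_le_mul <;> nlinarith
    linarith

lemma log_one_add_G (s : ℕ × ℤ) : Real.log (1 + G s) ≤ 1 + Real.log (1 + |(s.2:ℝ)|) := by
  have h0 : 0 ≤ |(s.2:ℝ)| := abs_nonneg _
  have h3 : (1:ℝ) ≤ 3 ^ s.1 := one_le_pow₀ (by norm_num)
  have h1 : G s ≤ 1 + |(s.2:ℝ)| := by
    unfold G
    apply Real.sqrt_le_iff.mpr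
    refine ⟨by linarith, ?_⟩
    have : |(s.2:ℝ)| / 3 ^ s.1 ≤ |(s.2:ℝ)| := div_le_self h0 h3
    nlinarith
  have hG := G_nonneg s
  calc Real.log (1 + G s) ≤ Real.log (2 * (1 + |(s.2:ℝ)|)) := by
        apply Real.log_le_log (by linarith); linarith
    _ = Real.log 2 + Real.log (1 + |(s.2:ℝ)|) := Real.log_mul (by norm_num) (by linarith)
    _ ≤ 1 + Real.log (1 + |(s.2:ℝ)|) := by have := Real.log_two_lt_d9; linarith

lemma abs_T (n : ℤ) : |T n| + 1 ≤ 2 * (|n| + 1) := by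
  unfold T
  rcases abs_cases n with ⟨h, _⟩ | ⟨h, _⟩ <;> split_ifs <;>
  · rw [h]
    rcases abs_cases (n / 2) with ⟨h', _⟩ | ⟨h', _⟩ <;>
    rcases abs_cases ((3 * n + 1) / 2) with ⟨h'', _⟩ | ⟨h'', _⟩ <;> omega

lemma abs_iter (e : ℕ) (b : ℤ) : |T^[e] b| + 1 ≤ 2 ^ e * (|b| + 1) := by
  induction e with
  | zero => simp
  | succ e ih =>
    rw [Function.iterate_succ_apply']
    have := abs_T (T^[e] b)
    have e1 : (2:ℤ) ^ (e + 1) * (|b| + 1) = 2 * (2 ^ e * (|b| + 1)) := by ring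
    rw [e1]; linarith

lemma merge_eq (e d k : ℕ) (b n : ℤ) :
    T^[k + e] (2 ^ e * 3 ^ d * n + b) = T^[k] (3 ^ (S e b + d) * n + T^[e] b) := by
  rw [Function.iterate_add_apply]
  have : (2:ℤ) ^ e * 3 ^ d * n + b = b + 2 ^ e * (3 ^ d * n) := by ring
  rw [this, iter_add, pow_add]
  congr 1
  ring

/-- The coalescence theorem, quantitative and uniform. -/
theorem coalescence : ∃ C : ℝ, 0 < C ∧ ∀ (e d K : ℕ) (b u v : ℤ), 1 ≤ K → u ≤ v →
    (cnt (fun n => ∀ k ≤ K, T^[k] n ≠ T^[k + e] (2 ^ e * 3 ^ d * n + b)) u v : ℝ) ≤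
      C * (1 + e + d + Real.log (1 + |(b:ℝ)|)) * rr K * (v - u) + 2 ^ (K + 1) := by
  obtain ⟨C, hC, h⟩ := decay2
  refine ⟨2 * C, by positivity, ?_⟩
  intro e d K b u v hK huv
  have h1 := count K (S e b + d, T^[e] b) 1 0 (by norm_num) u v huv
  have e1 : cnt (fun n => ∀ k ≤ K, T^[k] n ≠ T^[k + e] (2 ^ e * 3 ^ d * n + b)) u v ≤
      cnt (fun j => NM K (1 * j + 0) (3 ^ (S e b + d, T^[e] b).1 * (1 * j + 0)
        + (S e b + d, T^[e] b).2)) u v := by
    apply cnt_mono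
    intro n _ _ hn k hk
    have := hn k hk
    rw [merge_eq] at this
    simpa using this
  have e2 : (cnt (fun n => ∀ k ≤ K, T^[k] n ≠ T^[k + e] (2 ^ e * 3 ^ d * n + b)) u v : ℝ) ≤
      cnt (fun j => NM K (1 * j + 0) (3 ^ (S e b + d, T^[e] b).1 * (1 * j + 0)
        + (S e b + d, T^[e] b).2)) u v := by exact_mod_cast e1
  have h2 := h K hK (S e b + d, T^[e] b)
  have h3 := log_one_add_G (S e b + d, T^[e] b)
  simp only at h2 h3
  have hrr := rr_pos K hK
  have huv' : (0:ℝ) ≤ v - u := by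
    have : (u:ℝ) ≤ v := by exact_mod_cast huv
    linarith
  have h4 : Real.log (1 + |((T^[e] b : ℤ) : ℝ)|) ≤ e + Real.log (1 + |(b:ℝ)|) := by
    have h5 : (1:ℝ) + |((T^[e] b : ℤ) : ℝ)| ≤ 2 ^ e * (1 + |(b:ℝ)|) := by
      have := abs_iter e b
      have h6 : ((|T^[e] b| + 1 : ℤ) : ℝ) ≤ ((2 ^ e * (|b| + 1) : ℤ) : ℝ) := by exact_mod_cast this
      push_cast at h6
      linarith
    have hb0 : 0 ≤ |(b:ℝ)| := abs_nonneg _
    have ht0 : 0 ≤ |((T^[e] b : ℤ) : ℝ)| := abs_nonneg _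
    calc Real.log (1 + |((T^[e] b : ℤ) : ℝ)|) ≤ Real.log (2 ^ e * (1 + |(b:ℝ)|)) :=
          Real.log_le_log (by linarith) h5
      _ = e * Real.log 2 + Real.log (1 + |(b:ℝ)|) := by
          rw [Real.log_mul (by positivity) (by linarith), Real.log_pow]
      _ ≤ e + Real.log (1 + |(b:ℝ)|) := by
          have h7 := Real.log_two_lt_d9
          have h8 : (0:ℝ) ≤ e := by positivity
          nlinarith
  have hS : ((S e b + d : ℕ) : ℝ) ≤ e + d := by
    have := S_le e b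
    exact_mod_cast Nat.add_le_add_right this d
  have hlog : 0 ≤ Real.log (1 + |(b:ℝ)|) := by
    apply Real.log_nonneg
    have := abs_nonneg (b:ℝ)
    linarith
  have h5 : a K (S e b + d, T^[e] b) ≤ 2 * C * (1 + e + d + Real.log (1 + |(b:ℝ)|)) * rr K := by
    refine h2.trans ?_
    apply mul_le_mul_of_nonneg_right _ hrr.le
    have h9 : 1 + ((S e b + d : ℕ) : ℝ) + Real.log (1 + G (S e b + d, T^[e] b)) ≤
        2 * (1 + e + d + Real.log (1 + |(b:ℝ)|)) := by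
      have h8 : (0:ℝ) ≤ d := by positivity
      linarith
    have := mul_le_mul_of_nonneg_left h9 hC.le
    linarith
  have h6 := mul_le_mul_of_nonneg_right h5 huv'
  linarith

end Pool.Agent.H30.Co
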