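import Pool.Agent.H30.Co.Window3

/-!
Every nonzero integer has a grand orbit with arbitrarily long intervals (strong form).
-/

set_option autoImplicit false

namespace Pool.Agent.H30.Co

open Pool.Agent.H30

/-! ### Powers of two modulo powers of three -/

lemma four_pow (s : ℕ) : ∃ u : ℤ, ¬ (3:ℤ) ∣ u ∧ (2:ℤ) ^ (2 * 3 ^ s) = 1 + 3 ^ (s + 1) * u := by
  induction s with
  | zero => exact ⟨1, by norm_num, by norm_num⟩
  | succ s ih =>
    obtain ⟨u, hu, h⟩ := ih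
    refine ⟨u + 3 * (3 ^ s * u ^ 2 + 3 ^ (2 * s) * u ^ 3), ?_, ?_⟩
    · intro hd
      exact hu ((Int.dvd_add_left (Dvd.intro _ rfl)).mp hd)
    · have e : 2 * 3 ^ (s + 1) = (2 * 3 ^ s) * 3 := by ring
      rw [e, pow_mul, h]
      ring

lemma hit_class (m c : ℤ) (hm : ¬ (3:ℤ) ∣ m) (hc : ¬ (3:ℤ) ∣ c) (s : ℕ) :
    ∃ i : ℕ, i < 2 * 3 ^ s ∧ (3:ℤ) ^ (s + 1) ∣ 2 ^ i * m - c := by
  induction s with
  | zero =>
    by_cases h : (3:ℤ) ∣ m - c
    · exact ⟨0, by norm_num, by simpa using h⟩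
    · refine ⟨1, by norm_num, ?_⟩
      have h1 : m % 3 = 1 ∨ m % 3 = 2 := by omega
      have h2 : c % 3 = 1 ∨ c % 3 = 2 := by omega
      simp only [zero_add, pow_one]
      rcases h1 with h1 | h1 <;> rcases h2 with h2 | h2 <;> omega
  | succ s ih =>
    obtain ⟨i, hi, v, hv⟩ := ih
    obtain ⟨u, hu, h4⟩ := four_pow s
    -- choose t with 3 | v + t u (2^i m)
    have h2i : ¬ (3:ℤ) ∣ 2 ^ i * m := by
      intro hd
      rcases Int.prime_three.dvd_or_dvd hd with h | h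
      · exact absurd (Int.prime_three.dvd_of_dvd_pow h) (by norm_num)
      · exact hm h
    have hw : ¬ (3:ℤ) ∣ u * (2 ^ i * m) := by
      intro hd
      rcases Int.prime_three.dvd_or_dvd hd with h | h
      · exact hu h
      · exact h2i h
    obtain ⟨w, hw'⟩ : ∃ w, w = u * (2 ^ i * m) := ⟨_, rfl⟩
    rw [← hw'] at hw
    obtain ⟨t, ht2, ht⟩ : ∃ t : ℕ, t ≤ 2 ∧ (3:ℤ) ∣ v + t * w := by
      have h3 : (v % 3 = 0 ∨ v % 3 = 1 ∨ v % 3 = 2) ∧ (w % 3 = 1 ∨ w % 3 = 2) := by omega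
      rcases h3 with ⟨h1 | h1 | h1, h2 | h2⟩
      · exact ⟨0, by norm_num, by push_cast; omega⟩
      · exact ⟨0, by norm_num, by push_cast; omega⟩
      · exact ⟨2, by norm_num, by push_cast; omega⟩
      · exact ⟨1, by norm_num, by push_cast; omega⟩
      · exact ⟨1, by norm_num, by push_cast; omega⟩
      · exact ⟨2, by norm_num, by push_cast; omega⟩
    refine ⟨i + 2 * 3 ^ s * t, ?_, ?_⟩
    · have : 2 * 3 ^ s * t ≤ 2 * 3 ^ s * 2 := Nat.mul_le_mul_left _ ht2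
      have e : 2 * 3 ^ (s + 1) = 2 * 3 ^ s + 2 * 3 ^ s * 2 := by ring
      omega
    · -- (1 + 3^(s+1) u)^t = 1 + t 3^(s+1) u + 3^(s+2) * z
      have hz : ∃ z : ℤ, (1 + (3:ℤ) ^ (s + 1) * u) ^ t = 1 + t * (3 ^ (s + 1) * u) + 3 ^ (s + 2) * z := by
        have h3 : t = 0 ∨ t = 1 ∨ t = 2 := by omega
        rcases h3 with rfl | rfl | rfl
        · exact ⟨0, by norm_num⟩
        · exact ⟨0, by norm_num⟩
        · refine ⟨3 ^ s * u ^ 2, ?_⟩
          push_cast; ring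
      obtain ⟨z, hz⟩ := hz
      obtain ⟨y, hy⟩ := ht
      refine ⟨y + z * (2 ^ i * m), ?_⟩
      rw [pow_add, pow_mul, h4, hz]
      have e1 : 2 ^ i * (1 + (t:ℤ) * (3 ^ (s + 1) * u) + 3 ^ (s + 2) * z) * m - c
        = (2 ^ i * m - c) + 3 ^ (s + 1) * (t * (u * (2 ^ i * m))) + 3 ^ (s + 2) * (z * (2 ^ i * m)) := by
        ring
      rw [e1, hv, ← hw']
      have e2 : (3:ℤ) ^ (s + 1) * v + 3 ^ (s + 1) * (t * w) = 3 ^ (s + 1) * (v + t * w) := by ring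
      rw [e2, hy]
      ring

/-! ### Iterates prime to 3 -/

lemma T_odd_unit (n : ℤ) (h : n % 2 = 1) : ¬ (3:ℤ) ∣ T n := by
  unfold T; split_ifs <;> omega

lemma T_even_unit (n : ℤ) (h : n % 2 = 0) (h3 : ¬ (3:ℤ) ∣ n) : ¬ (3:ℤ) ∣ T n := by
  unfold T; split_ifs <;> omega

lemma iter_unit (k : ℕ) (n : ℤ) (h : 1 ≤ S k n) : ¬ (3:ℤ) ∣ T^[k] n := by
  induction k with
  | zero => simp [S_zero] at h
  | succ k ih =>
    rw [Function.iterate_succ_apply']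
    rcases Int.emod_two_eq_zero_or_one (T^[k] n) with h2 | h2
    · apply T_even_unit _ h2
      apply ih
      rw [S_succ] at h
      have : bit k n = 0 := by unfold bit par; rw [if_pos h2]
      omega
    · exact T_odd_unit _ h2

lemma exists_unit (N : ℕ) : ∀ m : ℤ, m ≠ 0 → m.natAbs ≤ N →
    ∃ u : ℕ, ¬ (3:ℤ) ∣ T^[u] m ∧ |T^[u] m| ≤ 2 * |m| := by
  induction N with
  | zero => intro m h1 h2; omega
  | succ N ih =>
    intro m h1 h2
    rcases Int.emod_two_eq_zero_or_one m with h | h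
    · have hT : T m = m / 2 := by unfold T; rw [if_pos h]
      obtain ⟨u, hu1, hu2⟩ := ih (m / 2) (by omega) (by omega)
      refine ⟨u + 1, ?_, ?_⟩
      · rw [Function.iterate_succ_apply, hT]; exact hu1
      · rw [Function.iterate_succ_apply, hT]
        refine hu2.trans ?_
        rw [Int.abs_eq_natAbs, Int.abs_eq_natAbs]
        omega
    · refine ⟨1, ?_, ?_⟩
      · rw [Function.iterate_one]; exact T_odd_unit m h
      · rw [Function.iterate_one]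
        have hT : T m = (3 * m + 1) / 2 := by unfold T; rw [if_neg (by omega)]
        rw [hT, Int.abs_eq_natAbs, Int.abs_eq_natAbs]
        omega

/-! ### The time needed for a window of length 2^L -/

lemma window_time : ∃ C₀ : ℕ, 1 ≤ C₀ ∧ ∀ L : ℕ, ∃ E : ℝ, 0 ≤ E ∧ ∀ X : ℕ,
    (cnt (Bad 0 0 (2 ^ L) (C₀ * (L + 1) ^ 5)) 0 X : ℝ) ≤
      X / 2 + E * 2 ^ (C₀ * (L + 1) ^ 5) := by
  obtain ⟨C, hC, h⟩ := window
  obtain ⟨C₀, hC₀, hr⟩ := rr_small (1 / (180 * C)) (by positivity)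
  refine ⟨C₀, hC₀, ?_⟩
  intro L
  obtain ⟨K, hK⟩ : ∃ K, K = C₀ * (L + 1) ^ 5 := ⟨_, rfl⟩
  have hK1 : 1 ≤ K := by
    rw [hK]
    exact Nat.mul_pos hC₀ (by positivity)
  rw [← hK]
  obtain ⟨z, hz⟩ : ∃ z : ℝ, z = L + 1 := ⟨_, rfl⟩
  have hz1 : 1 ≤ z := by rw [hz]; have : (0:ℝ) ≤ L := by positivity
                         linarith
  have hC₀R : (1:ℝ) ≤ C₀ := by exact_mod_cast hC₀
  have hlogC : 0 ≤ Real.log C₀ := Real.log_nonneg hC₀R
  have hlogz : 0 ≤ Real.log z := Real.log_nonneg hz1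
  have hKz : (K:ℝ) = C₀ * z ^ 5 := by rw [hK, hz]; push_cast; ring
  obtain ⟨q, hq⟩ : ∃ q : ℝ, q = Real.sqrt z := ⟨_, rfl⟩
  have hq2 : q ^ 2 = z := by rw [hq]; exact Real.sq_sqrt (by linarith)
  have hq1 : 1 ≤ q := by rw [hq]; exact Real.one_le_sqrt.mpr hz1
  have hlogq : Real.log z ≤ 2 * (q - 1) := by
    rw [← hq2, Real.log_pow]
    have := Real.log_le_sub_one_of_pos (show (0:ℝ) < q by linarith)
    push_cast
    linarith
  have hsqrtK : Real.sqrt K = Real.sqrt C₀ * q ^ 5 := by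
    rw [hKz, Real.sqrt_mul (by linarith)]
    congr 1
    rw [← hq2, show ((q ^ 2) ^ 5 : ℝ) = (q ^ 5) ^ 2 by ring]
    exact Real.sqrt_sq (by positivity)
  have hlogK : Real.log K = Real.log C₀ + 5 * Real.log z := by
    rw [hKz, Real.log_mul (by linarith) (by positivity), Real.log_pow]
    push_cast; ring
  have hsC : 0 < Real.sqrt C₀ := Real.sqrt_pos.mpr (by linarith)
  have hrrK : rr K ≤ 1 / (180 * C) * ((10 * q) / q ^ 5) := by
    unfold rr at hr ⊢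
    rw [hsqrtK, hlogK]
    have e : (1 + (Real.log C₀ + 5 * Real.log z)) / (Real.sqrt C₀ * q ^ 5) ≤
        ((1 + Real.log C₀) / Real.sqrt C₀) * ((10 * q) / q ^ 5) := by
      rw [div_mul_div_comm]
      gcongr
      nlinarith
    refine e.trans ?_
    gcongr
  -- the factor y
  obtain ⟨y, hy⟩ : ∃ y : ℝ, y = 1 + ((0:ℕ):ℝ) + Real.log (1 + ((2 ^ L : ℕ) : ℝ)) := ⟨_, rfl⟩
  have hy3 : y ≤ 3 * z := by
    have h1 : Real.log (1 + ((2 ^ L : ℕ) : ℝ)) ≤ Real.log (2 ^ (L + 1)) := by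
      apply Real.log_le_log (by positivity)
      push_cast
      have : (1:ℝ) ≤ 2 ^ L := one_le_pow₀ (by norm_num)
      rw [pow_succ]; linarith
    rw [Real.log_pow] at h1
    have h2 := Real.log_two_lt_d9
    have h3 : (((L + 1 : ℕ)) : ℝ) * Real.log 2 ≤ z * 1 := by
      rw [hz]; push_cast; gcongr; linarith
    rw [hy]; push_cast at h1 h3 ⊢; linarith
  have hy0 : 0 ≤ y := by
    have : 0 ≤ Real.log (1 + ((2 ^ L : ℕ) : ℝ)) := by
      apply Real.log_nonneg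
      have : (0:ℝ) ≤ ((2 ^ L : ℕ) : ℝ) := by positivity
      linarith
    rw [hy]; push_cast at this ⊢; linarith
  refine ⟨C * y, by positivity, ?_⟩
  intro X
  have h1 := h 0 0 (2 ^ L) K hK1 0 X (by omega)
  rw [← hy] at h1
  simp only [Nat.cast_zero, add_zero, Int.cast_natCast, Int.cast_zero, sub_zero] at h1
  refine h1.trans ?_
  have hrr0 := rr_pos K hK1
  have hmain : C * y * y * rr K ≤ 1 / 2 := by
    calc C * y * y * rr K ≤ C * (3 * z) * (3 * z) * (1 / (180 * C) * ((10 * q) / q ^ 5)) := by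
          gcongr
      _ = 1 / 2 := by
          rw [← hq2]; field_simp; norm_num
  have hX0 : (0:ℝ) ≤ X := by positivity
  have := mul_le_mul_of_nonneg_right hmain hX0
  linarith

/-- a residue class modulo `2^K` whose members have `H` consecutive successors merging with them -/
lemma good_class (H K : ℕ) (E : ℝ) (hE : 0 ≤ E) (hcnt : ∀ X : ℕ,
    (cnt (Bad 0 0 H K) 0 X : ℝ) ≤ X / 2 + E * 2 ^ K) :
    ∃ r : ℤ, 0 ≤ r ∧ r < 2 ^ K ∧ ∀ h ≤ H, T^[K] (r + (h:ℤ)) = T^[K] r ∧ S K (r + (h:ℤ)) = S K r := by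
  classical
  obtain ⟨M, hM⟩ : ∃ M : ℕ, 2 * E + 3 ≤ M := exists_nat_ge _
  obtain ⟨X, hX⟩ : ∃ X : ℕ, X = 2 ^ K * M := ⟨_, rfl⟩
  have h1 := hcnt X
  obtain ⟨Gd, hGd⟩ : ∃ Gd : Finset ℤ, Gd = (Finset.Ico (0:ℤ) X).filter
    (fun n => ¬ Bad 0 0 H K n) := ⟨_, rfl⟩
  have hcard : cnt (Bad 0 0 H K) 0 X + Gd.card = X := by
    rw [cnt_eq, hGd, Finset.card_filter_add_card_filter_not]
    simp
  have hbig : 2 ^ K < Gd.card := by
    have h2 : (cnt (Bad 0 0 H K) 0 X : ℝ) + Gd.card = X := by exact_mod_cast hcard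
    have h3 : (X:ℝ) = 2 ^ K * M := by rw [hX]; push_cast; ring
    have h4 : (2:ℝ) ^ K < Gd.card := by
      have h6 : (0:ℝ) < 2 ^ K := by positivity
      rw [h3] at h1 h2
      nlinarith
    exact_mod_cast h4
  have hmaps : ∀ n ∈ Gd, (n % 2 ^ K) ∈ Finset.Ico (0:ℤ) (2 ^ K) := by
    intro n _
    rw [Finset.mem_Ico]
    exact ⟨Int.emod_nonneg _ (by positivity), Int.emod_lt_of_pos _ (by positivity)⟩
  have hlt : (Finset.Ico (0:ℤ) (2 ^ K)).card < Gd.card := by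
    have : ((2:ℤ) ^ K).toNat = 2 ^ K := by
      have e : ((2:ℤ) ^ K) = ((2 ^ K : ℕ) : ℤ) := by push_cast; ring
      rw [e, Int.toNat_natCast]
    rw [Int.card_Ico, sub_zero, this]
    exact hbig
  obtain ⟨n, hn, n', hn', hne, heq⟩ := Finset.exists_ne_map_eq_of_card_lt_of_maps_to hlt hmaps
  -- n = r + 2^K q, n' = r + 2^K q'
  obtain ⟨r, hr⟩ : ∃ r, r = n % 2 ^ K := ⟨_, rfl⟩
  have hr0 : 0 ≤ r := by rw [hr]; exact Int.emod_nonneg _ (by positivity)
  have hr1 : r < 2 ^ K := by rw [hr]; exact Int.emod_lt_of_pos _ (by positivity)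
  obtain ⟨q, hq⟩ : ∃ q, n = r + 2 ^ K * q := ⟨n / 2 ^ K, by
    rw [hr]; exact (Int.emod_add_mul_ediv n (2 ^ K)).symm⟩
  obtain ⟨q', hq'⟩ : ∃ q', n' = r + 2 ^ K * q' := ⟨n' / 2 ^ K, by
    rw [hr, heq]; exact (Int.emod_add_mul_ediv n' (2 ^ K)).symm⟩
  have hgood : ∀ x ∈ Gd, ∀ h ≤ H, T^[K] (x + (h:ℤ)) = T^[K] x := by
    intro x hx h hh
    rw [hGd, Finset.mem_filter] at hx
    have h2 := hx.2
    unfold Bad at h2
    push Not at h2
    obtain ⟨k, hk, hk2⟩ := h2 (h:ℤ) (by rw [abs_of_nonneg (by positivity)]; exact_mod_cast hh)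
    rw [add_zero, pow_zero, pow_zero, one_mul, one_mul] at hk2
    have e : K = (K - k) + k := by omega
    rw [e, Function.iterate_add_apply, Function.iterate_add_apply, hk2]
  refine ⟨r, hr0, hr1, ?_⟩
  intro h hh
  have g1 := hgood n hn h hh
  have g2 := hgood n' hn' h hh
  rw [hq] at g1
  rw [hq'] at g2
  have e1 : r + 2 ^ K * q + (h:ℤ) = (r + h) + 2 ^ K * q := by ring
  have e2 : r + 2 ^ K * q' + (h:ℤ) = (r + h) + 2 ^ K * q' := by ring
  rw [e1, iter_add, iter_add] at g1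
  rw [e2, iter_add, iter_add] at g2
  have hqq : q - q' ≠ 0 := by
    intro h0
    apply hne
    have : q = q' := by linarith
    rw [hq, hq', this]
  have e3 : (3:ℤ) ^ S K (r + (h:ℤ)) * (q - q') = 3 ^ S K r * (q - q') := by
    linear_combination g1 - g2
  have e4 : (3:ℤ) ^ S K (r + (h:ℤ)) = 3 ^ S K r := mul_right_cancel₀ hqq e3
  have e5 : S K (r + (h:ℤ)) = S K r := by
    have e6 : (3:ℕ) ^ S K (r + (h:ℤ)) = 3 ^ S K r := by exact_mod_cast e4
    exact Nat.pow_right_injective (le_refl _ |>.trans (by norm_num : 2 ≤ 3)) e6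
  refine ⟨?_, e5⟩
  rw [e5] at g1
  linarith

/-- The thickness theorem. -/
theorem thick : ∃ C : ℕ, ∀ (m : ℤ) (L : ℕ), m ≠ 0 → ∃ (n : ℤ) (t u : ℕ),
    |n| ≤ |m| * 2 ^ (3 ^ (C * (L + 1) ^ 5)) ∧ ∀ j : ℕ, j < 2 ^ L → T^[t] (n + (j:ℤ)) = T^[u] m := by
  obtain ⟨C₀, hC₀, hw⟩ := window_time
  refine ⟨C₀ * 32 + 3, ?_⟩
  intro m L hm
  obtain ⟨L', hL'⟩ : ∃ L', L' = L + 1 := ⟨_, rfl⟩
  obtain ⟨K, hK⟩ : ∃ K, K = C₀ * (L' + 1) ^ 5 := ⟨_, rfl⟩
  have hK1 : 1 ≤ K := by rw [hK]; exact Nat.mul_pos hC₀ (by positivity)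
  obtain ⟨E, hE, hcnt⟩ := hw L'
  rw [← hK] at hcnt
  obtain ⟨r, hr0, hr1, hr⟩ := good_class (2 ^ L') K E hE hcnt
  have hL2 : 2 ≤ 2 ^ L' := by
    rw [hL', pow_succ]
    have : 1 ≤ 2 ^ L := Nat.one_le_two_pow
    omega
  -- at least one odd step
  have hS : 1 ≤ S K r := by
    obtain ⟨K', hK'⟩ : ∃ K', K = K' + 1 := ⟨K - 1, by omega⟩
    rcases Int.emod_two_eq_zero_or_one r with h | h
    · have h1 := (hr 1 (by omega)).2
      rw [← h1, hK', S_succ']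
      have : par (r + ((1:ℕ):ℤ)) = 1 := by unfold par; rw [if_neg (by push_cast; omega)]
      omega
    · rw [hK', S_succ']
      have : par r = 1 := by unfold par; rw [if_neg (by omega)]
      omega
  obtain ⟨s, hs⟩ : ∃ s, S K r = s + 1 := ⟨S K r - 1, by omega⟩
  obtain ⟨c, hc⟩ : ∃ c, c = T^[K] r := ⟨_, rfl⟩
  have hc3 : ¬ (3:ℤ) ∣ c := by rw [hc]; exact iter_unit K r hS
  obtain ⟨u, hu1, hu2⟩ := exists_unit m.natAbs m hm le_rfl
  obtain ⟨m', hm'⟩ : ∃ m', m' = T^[u] m := ⟨_, rfl⟩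
  rw [← hm'] at hu1 hu2
  obtain ⟨i, hi, j, hj⟩ := hit_class m' c hu1 hc3 s
  have hsK : s + 1 ≤ K := by rw [← hs]; exact S_le K r
  refine ⟨r + 2 ^ K * j, i + K, u, ?_, ?_⟩
  · -- the bound
    have hm1 : 1 ≤ |m| := Int.one_le_abs hm
    have h3s : (1:ℤ) ≤ 3 ^ (s + 1) := one_le_pow₀ (by norm_num)
    have hj1 : |j| ≤ |2 ^ i * m' - c| := by
      rw [hj, abs_mul, abs_of_pos (by positivity : (0:ℤ) < 3 ^ (s + 1))]
      nlinarith [abs_nonneg j]
    have hc1 : |c| + 1 ≤ 2 ^ K * (2 ^ K) := by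
      have := abs_iter K r
      rw [← hc, abs_of_nonneg hr0] at this
      refine this.trans ?_
      have : r + 1 ≤ 2 ^ K := hr1
      have h2 : (0:ℤ) < 2 ^ K := by positivity
      nlinarith
    have hj2 : |2 ^ i * m' - c| ≤ 2 ^ i * (2 * |m|) + |c| := by
      refine (abs_sub _ _).trans ?_
      rw [abs_mul, abs_of_pos (by positivity : (0:ℤ) < 2 ^ i)]
      have : (2:ℤ) ^ i * |m'| ≤ 2 ^ i * (2 * |m|) := by
        apply mul_le_mul_of_nonneg_left hu2; positivity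
      linarith
    have h2K : (0:ℤ) < 2 ^ K := by positivity
    have hn : |r + 2 ^ K * j| ≤ 2 ^ K + 2 ^ K * (2 ^ i * (2 * |m|) + (2 ^ K * 2 ^ K - 1)) := by
      refine (abs_add_le _ _).trans ?_
      rw [abs_mul, abs_of_pos h2K, abs_of_nonneg hr0]
      have : |j| ≤ 2 ^ i * (2 * |m|) + (2 ^ K * 2 ^ K - 1) := by linarith
      have := mul_le_mul_of_nonneg_left this h2K.le
      linarith
    have hn2 : |r + 2 ^ K * j| ≤ |m| * (2 ^ (K + i + 1) + 2 ^ (3 * K)) := by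
      refine hn.trans ?_
      have e1 : (2:ℤ) ^ K + 2 ^ K * (2 ^ i * (2 * |m|) + (2 ^ K * 2 ^ K - 1)) =
        |m| * 2 ^ (K + i + 1) + 2 ^ (3 * K) := by ring
      rw [e1]
      have : (0:ℤ) < 2 ^ (3 * K) := by positivity
      nlinarith
    refine hn2.trans ?_
    apply mul_le_mul_of_nonneg_left _ (by linarith)
    -- exponents
    have hiK : i < 3 ^ K := by
      have h1 : 2 * 3 ^ s ≤ 3 ^ (s + 1) := by rw [pow_succ]; omega
      have h2 : 3 ^ (s + 1) ≤ 3 ^ K := Nat.pow_le_pow_right (by norm_num) hsK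
      omega
    have hK3 : K < 3 ^ K := Nat.lt_pow_self (by norm_num)
    have he1 : K + i + 1 ≤ 3 ^ (K + 2) - 1 := by
      have : 3 ^ (K + 2) = 9 * 3 ^ K := by ring
      omega
    have he2 : 3 * K ≤ 3 ^ (K + 2) - 1 := by
      have : 3 ^ (K + 2) = 9 * 3 ^ K := by ring
      omega
    have hp1 : (2:ℤ) ^ (K + i + 1) ≤ 2 ^ (3 ^ (K + 2) - 1) := pow_le_pow_right₀ (by norm_num) he1
    have hp2 : (2:ℤ) ^ (3 * K) ≤ 2 ^ (3 ^ (K + 2) - 1) := pow_le_pow_right₀ (by norm_num) he2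
    have hp3 : (2:ℤ) ^ (3 ^ (K + 2)) = 2 * 2 ^ (3 ^ (K + 2) - 1) := by
      have : 1 ≤ 3 ^ (K + 2) := Nat.one_le_pow _ _ (by norm_num)
      rw [← pow_succ']
      congr 1
      omega
    have hfin : K + 2 ≤ (C₀ * 32 + 3) * (L + 1) ^ 5 := by
      have h1 : (L' + 1) ^ 5 ≤ (2 * (L + 1)) ^ 5 := Nat.pow_le_pow_left (by omega) 5
      have h2 : C₀ * (L' + 1) ^ 5 ≤ C₀ * (2 * (L + 1)) ^ 5 := Nat.mul_le_mul_left _ h1
      have h3 : 1 ≤ (L + 1) ^ 5 := Nat.one_le_pow _ _ (by omega)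
      have h4 : C₀ * (2 * (L + 1)) ^ 5 = C₀ * 32 * (L + 1) ^ 5 := by ring
      have h5 : (C₀ * 32 + 3) * (L + 1) ^ 5 = C₀ * 32 * (L + 1) ^ 5 + 3 * (L + 1) ^ 5 := by ring
      rw [hK, h5]
      omega
    calc (2:ℤ) ^ (K + i + 1) + 2 ^ (3 * K) ≤ 2 ^ (3 ^ (K + 2)) := by rw [hp3]; linarith
      _ ≤ 2 ^ (3 ^ ((C₀ * 32 + 3) * (L + 1) ^ 5)) :=
          pow_le_pow_right₀ (by norm_num) (Nat.pow_le_pow_right (by norm_num) hfin)
  · intro h hh
    have hh' : h ≤ 2 ^ L' := by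
      rw [hL', pow_succ]; omega
    have h1 := (hr h hh').1
    have h2 := (hr h hh').2
    rw [Function.iterate_add_apply]
    have e1 : r + 2 ^ K * j + (h:ℤ) = (r + h) + 2 ^ K * j := by ring
    rw [e1, iter_add, h1, h2, hs, ← hc]
    have e2 : c + 3 ^ (s + 1) * j = 2 ^ i * m' := by linarith
    rw [e2, ← hm']
    -- T^i (2^i m') = m'
    have h3 := iter_add i 0 m'
    have h4 : T^[i] 0 = 0 := by
      have : ∀ k : ℕ, T^[k] 0 = 0 := by
        intro k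
        induction k with
        | zero => rfl
        | succ k ih => rw [Function.iterate_succ_apply', ih]; rfl
      exact this i
    have h5 : S i 0 = 0 := by
      unfold S
      apply Finset.sum_eq_zero
      intro k _
      unfold bit
      have : ∀ k : ℕ, T^[k] 0 = 0 := by
        intro k
        induction k with
        | zero => rfl
        | succ k ih => rw [Function.iterate_succ_apply', ih]; rfl
      rw [this k]
      rfl
    rw [zero_add, h4, h5, pow_zero, one_mul, zero_add] at h3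
    exact h3

end Pool.Agent.H30.Co
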