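import Pool.Agent.H30.Co.Inv

/-!
Clusters: the number of different formal values of `T^(t+e)(2^e 3^d n + b)`, `|b| ≤ B`.
-/

set_option autoImplicit false

namespace Pool.Agent.H30.Co

open Pool.Agent.H30

/-- level: number of factors 3 -/
def lev (e d t : ℕ) (r b : ℤ) : ℕ := S (t + e) (2 ^ e * 3 ^ d * r + b) + d

/-- value -/
def val (e d t : ℕ) (r b : ℤ) : ℤ := T^[t + e] (2 ^ e * 3 ^ d * r + b)

/-- the set of clusters -/
noncomputable def Cl (e d B t : ℕ) (r : ℤ) : Finset (ℕ × ℤ) :=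
  (Finset.Icc (-(B:ℤ)) B).image (fun b => (lev e d t r b, val e d t r b))

/-- deviation from `3^level r / 2^t` -/
noncomputable def dev (t : ℕ) (r : ℤ) (c : ℕ × ℤ) : ℝ := (c.2 : ℝ) - 3 ^ c.1 * r / 2 ^ t

/-- step of a cluster when the next binary digit of `n` is `β` -/
def gst (β : ℤ) (c : ℕ × ℤ) : ℕ × ℤ := (c.1 + par (c.2 + 3 ^ c.1 * β), T (c.2 + 3 ^ c.1 * β))

lemma val_add (e d t : ℕ) (r b ν : ℤ) :
    T^[t + e] (2 ^ e * 3 ^ d * (r + 2 ^ t * ν) + b) = val e d t r b + 3 ^ lev e d t r b * ν := by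
  have h : 2 ^ e * 3 ^ d * (r + 2 ^ t * ν) + b = (2 ^ e * 3 ^ d * r + b) + 2 ^ (t + e) * (3 ^ d * ν) := by
    ring
  rw [h, iter_add]
  unfold val lev
  rw [pow_add]; ring

lemma val_succ (e d t : ℕ) (r b β : ℤ) :
    val e d (t + 1) (r + 2 ^ t * β) b = T (val e d t r b + 3 ^ lev e d t r b * β) := by
  rw [← val_add]
  unfold val
  rw [show t + 1 + e = (t + e) + 1 by ring, Function.iterate_succ_apply']

lemma lev_succ (e d t : ℕ) (r b β : ℤ) :
    lev e d (t + 1) (r + 2 ^ t * β) b =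
      lev e d t r b + par (val e d t r b + 3 ^ lev e d t r b * β) := by
  rw [← val_add]
  unfold lev
  rw [show t + 1 + e = (t + e) + 1 by ring, S_succ]
  have h : 2 ^ e * 3 ^ d * (r + 2 ^ t * β) + b = (2 ^ e * 3 ^ d * r + b) + 2 ^ (t + e) * (3 ^ d * β) := by
    ring
  have h2 : S (t + e) (2 ^ e * 3 ^ d * (r + 2 ^ t * β) + b) = S (t + e) (2 ^ e * 3 ^ d * r + b) := by
    rw [h, S_add_pow]
  rw [h2]
  unfold bit
  ring

lemma Cl_succ (e d B t : ℕ) (r β : ℤ) :
    Cl e d B (t + 1) (r + 2 ^ t * β) = (Cl e d B t r).image (gst β) := by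
  unfold Cl
  rw [Finset.image_image]
  apply Finset.image_congr
  intro b _
  simp only [Function.comp, gst, lev_succ, val_succ]

lemma dev_gst (t : ℕ) (r β : ℤ) (c : ℕ × ℤ) :
    dev (t + 1) (r + 2 ^ t * β) (gst β c) =
      if (c.2 + 3 ^ c.1 * β) % 2 = 0 then dev t r c / 2 else (3 * dev t r c + 1) / 2 := by
  obtain ⟨v, hv⟩ : ∃ v : ℤ, v = c.2 + 3 ^ c.1 * β := ⟨_, rfl⟩
  have hvR : (v:ℝ) = c.2 + 3 ^ c.1 * β := by rw [hv]; push_cast; ring
  have h2 := two_mul_T v
  have h2R : (2:ℝ) * T v = 3 ^ par v * v + par v := by exact_mod_cast h2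
  have hT : (T v : ℝ) = (3 ^ par v * v + par v) / 2 := by linarith
  have hp : (2:ℝ) ^ t ≠ 0 := by positivity
  unfold dev gst
  simp only
  rw [← hv, hT]
  split_ifs with h
  · have hp0 : par v = 0 := by unfold par; rw [if_pos h]
    rw [hp0, hvR]
    push_cast
    rw [add_zero, pow_zero, pow_succ]
    field_simp
    ring
  · have hp1 : par v = 1 := by unfold par; rw [if_neg h]
    rw [hp1, hvR]
    push_cast
    rw [pow_one, pow_succ, pow_succ]
    field_simp
    ring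

/-- potential -/
noncomputable def Phi (e d B t : ℕ) (r : ℤ) : ℝ := ∑ c ∈ Cl e d B t r, Real.sqrt (1 + |dev t r c|)

lemma Phi_nonneg (e d B t : ℕ) (r : ℤ) : 0 ≤ Phi e d B t r :=
  Finset.sum_nonneg (fun _ _ => Real.sqrt_nonneg _)

lemma sum_image_le_of_nonneg {ι κ : Type*} [DecidableEq κ] (s : Finset ι) (g : ι → κ) (f : κ → ℝ)
    (hf : ∀ k, 0 ≤ f k) : ∑ k ∈ s.image g, f k ≤ ∑ i ∈ s, f (g i) := by
  classical
  induction s using Finset.induction_on with
  | empty => simp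
  | insert a s ha ih =>
    rw [Finset.image_insert, Finset.sum_insert ha]
    by_cases h : g a ∈ s.image g
    · rw [Finset.insert_eq_of_mem h]
      have := hf (g a)
      linarith
    · rw [Finset.sum_insert h]
      linarith

lemma Phi_succ (e d B t : ℕ) (r : ℤ) :
    Phi e d B (t + 1) r + Phi e d B (t + 1) (r + 2 ^ t) ≤
      1.932 * Phi e d B t r + 0.7072 * (Cl e d B t r).card := by
  have h0 : Phi e d B (t + 1) r ≤ ∑ c ∈ Cl e d B t r,
      Real.sqrt (1 + |dev (t + 1) r (gst 0 c)|) := by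
    have e0 : r = r + 2 ^ t * 0 := by ring
    unfold Phi
    conv_lhs => rw [e0, Cl_succ, ← e0]
    exact sum_image_le_of_nonneg _ _ _ (fun _ => Real.sqrt_nonneg _)
  have h1 : Phi e d B (t + 1) (r + 2 ^ t) ≤ ∑ c ∈ Cl e d B t r,
      Real.sqrt (1 + |dev (t + 1) (r + 2 ^ t) (gst 1 c)|) := by
    have e1 : r + 2 ^ t = r + 2 ^ t * 1 := by ring
    unfold Phi
    conv_lhs => rw [e1, Cl_succ, ← e1]
    exact sum_image_le_of_nonneg _ _ _ (fun _ => Real.sqrt_nonneg _)
  refine (add_le_add h0 h1).trans ?_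
  rw [← Finset.sum_add_distrib]
  have h2 : ∀ c ∈ Cl e d B t r,
      Real.sqrt (1 + |dev (t + 1) r (gst 0 c)|) +
        Real.sqrt (1 + |dev (t + 1) (r + 2 ^ t) (gst 1 c)|) ≤
      1.932 * Real.sqrt (1 + |dev t r c|) + 0.7072 := by
    intro c _
    have d0 := dev_gst t r 0 c
    have d1 := dev_gst t r 1 c
    rw [mul_zero, mul_zero, add_zero, add_zero] at d0
    rw [mul_one, mul_one] at d1
    obtain ⟨δ, hδ⟩ : ∃ δ, δ = dev t r c := ⟨_, rfl⟩
    rw [← hδ] at d0 d1 ⊢
    have ha : Real.sqrt (1 + |δ / 2|) ≤ 0.7072 * Real.sqrt (1 + |δ|) + 0.7072 := by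
      apply sqrt_aff (by positivity) (by norm_num) (by norm_num)
      rw [abs_div, abs_of_pos (by norm_num : (0:ℝ) < 2)]
      have := abs_nonneg δ
      nlinarith
    have hb : Real.sqrt (1 + |(3 * δ + 1) / 2|) ≤ 1.2248 * Real.sqrt (1 + |δ|) + 0 := by
      apply sqrt_aff (by positivity) (by norm_num) le_rfl
      rw [abs_div, abs_of_pos (by norm_num : (0:ℝ) < 2)]
      have h3 : |3 * δ + 1| ≤ 3 * |δ| + 1 := by
        refine (abs_add_le _ _).trans ?_
        rw [abs_mul, abs_of_pos (by norm_num : (0:ℝ) < 3), abs_one]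
      have := abs_nonneg δ
      nlinarith
    have ho := three_pow_mod_two c.1
    rcases Int.emod_two_eq_zero_or_one c.2 with h | h
    · have h' : ¬ ((c.2 + 3 ^ c.1) % 2 = 0) := by omega
      rw [if_pos h] at d0
      rw [if_neg h'] at d1
      rw [d0, d1]
      linarith
    · have h' : (c.2 + 3 ^ c.1) % 2 = 0 := by omega
      rw [if_neg (by omega)] at d0
      rw [if_pos h'] at d1
      rw [d0, d1]
      linarith
  refine (Finset.sum_le_sum h2).trans ?_
  rw [Finset.sum_add_distrib, ← Finset.mul_sum, Finset.sum_const, nsmul_eq_mul]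
  unfold Phi
  linarith

/-- the number of clusters -/
lemma card_le (e d B t : ℕ) (r : ℤ) :
    ((Cl e d B t r).card : ℝ) ≤ (t + e + 1) * 3201 + Phi e d B t r / 40 := by
  classical
  obtain ⟨Cs, hCs⟩ : ∃ Cs, Cs = (Cl e d B t r).filter (fun c => |dev t r c| ≤ 1600) := ⟨_, rfl⟩
  obtain ⟨Cb, hCb⟩ : ∃ Cb, Cb = (Cl e d B t r).filter (fun c => ¬ |dev t r c| ≤ 1600) := ⟨_, rfl⟩
  have hsum : Cs.card + Cb.card = (Cl e d B t r).card := by
    rw [hCs, hCb]; exact Finset.card_filter_add_card_filter_not _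
  have hs : Cs.card ≤ (t + e + 1) * 3201 := by
    have hsub : Cs ⊆ (Finset.range (t + e + 1)).biUnion (fun i =>
        (Finset.Icc ⌈(3:ℝ) ^ (i + d) * r / 2 ^ t - 1600⌉ ⌊(3:ℝ) ^ (i + d) * r / 2 ^ t + 1600⌋).image
          (fun τ => (i + d, τ))) := by
      intro c hc
      rw [hCs, Finset.mem_filter] at hc
      obtain ⟨hc1, hc2⟩ := hc
      unfold Cl at hc1
      rw [Finset.mem_image] at hc1
      obtain ⟨b, _, hb⟩ := hc1
      rw [Finset.mem_biUnion]
      refine ⟨S (t + e) (2 ^ e * 3 ^ d * r + b), ?_, ?_⟩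
      · rw [Finset.mem_range]
        have := S_le (t + e) (2 ^ e * 3 ^ d * r + b)
        omega
      · rw [Finset.mem_image]
        refine ⟨c.2, ?_, ?_⟩
        · rw [Finset.mem_Icc, Int.ceil_le, Int.le_floor]
          have h1 : c.1 = S (t + e) (2 ^ e * 3 ^ d * r + b) + d := by rw [← hb]; rfl
          unfold dev at hc2
          rw [h1] at hc2
          have := abs_le.mp hc2
          constructor <;> linarith [this.1, this.2]
        · rw [← hb]; rfl
    refine (Finset.card_le_card hsub).trans (Finset.card_biUnion_le.trans ?_)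
    have h1 : ∀ i ∈ Finset.range (t + e + 1),
        ((Finset.Icc ⌈(3:ℝ) ^ (i + d) * r / 2 ^ t - 1600⌉ ⌊(3:ℝ) ^ (i + d) * r / 2 ^ t + 1600⌋).image
          (fun τ => (i + d, τ))).card ≤ 3201 := by
      intro i _
      refine Finset.card_image_le.trans ?_
      rw [Int.card_Icc]
      obtain ⟨y, hy⟩ : ∃ y : ℝ, y = (3:ℝ) ^ (i + d) * r / 2 ^ t := ⟨_, rfl⟩
      rw [← hy]
      have h3 : (⌊y + 1600⌋ : ℤ) ≤ ⌈y - 1600⌉ + 3200 := by
        have h4 : (⌊y + 1600⌋ : ℝ) ≤ y + 1600 := Int.floor_le _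
        have h5 : y - 1600 ≤ (⌈y - 1600⌉ : ℝ) := Int.le_ceil _
        have h6 : (⌊y + 1600⌋ : ℝ) ≤ ⌈y - 1600⌉ + 3200 := by linarith
        exact_mod_cast h6
      omega
    refine (Finset.sum_le_sum h1).trans ?_
    rw [Finset.sum_const, Finset.card_range, smul_eq_mul]
  have hb : (Cb.card : ℝ) * 40 ≤ Phi e d B t r := by
    have h1 : ∑ c ∈ Cb, (40:ℝ) ≤ ∑ c ∈ Cb, Real.sqrt (1 + |dev t r c|) := by
      apply Finset.sum_le_sum
      intro c hc
      rw [hCb, Finset.mem_filter] at hc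
      apply Real.le_sqrt_of_sq_le
      have := hc.2
      push Not at this
      linarith
    rw [Finset.sum_const, nsmul_eq_mul] at h1
    refine h1.trans ?_
    unfold Phi
    apply Finset.sum_le_sum_of_subset_of_nonneg
    · rw [hCb]; exact Finset.filter_subset _ _
    · intro _ _ _; exact Real.sqrt_nonneg _
  have hsR : (Cs.card : ℝ) ≤ (t + e + 1) * 3201 := by exact_mod_cast hs
  have hsumR : (Cs.card : ℝ) + Cb.card = (Cl e d B t r).card := by exact_mod_cast hsum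
  linarith

/-- sum of the potentials over residues -/
noncomputable def At (e d B t : ℕ) : ℝ := ∑ r ∈ Finset.range (2 ^ t), Phi e d B t (r:ℤ)

lemma At_succ (e d B t : ℕ) :
    At e d B (t + 1) ≤ 1.95 * At e d B t + 2 ^ t * (2300 * (t + e + 1)) := by
  unfold At
  rw [pow_succ, mul_two, Finset.sum_range_add, ← Finset.sum_add_distrib]
  have h : ∀ r ∈ Finset.range (2 ^ t), Phi e d B (t + 1) (r:ℤ) +
      Phi e d B (t + 1) ((2 ^ t + r : ℕ) : ℤ) ≤ 1.95 * Phi e d B t (r:ℤ) + 2300 * (t + e + 1) := by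
    intro r _
    have h1 := Phi_succ e d B t (r:ℤ)
    have h2 := card_le e d B t (r:ℤ)
    have h3 := Phi_nonneg e d B t (r:ℤ)
    have e1 : ((2 ^ t + r : ℕ) : ℤ) = (r:ℤ) + 2 ^ t := by push_cast; ring
    rw [e1]
    have h4 : (0:ℝ) ≤ t + e + 1 := by positivity
    linarith
  refine (Finset.sum_le_sum h).trans ?_
  rw [Finset.sum_add_distrib, ← Finset.mul_sum, Finset.sum_const, Finset.card_range, nsmul_eq_mul]
  push_cast
  exact le_rfl

lemma At_le (e d B t : ℕ) :
    At e d B t ≤ 2 ^ t * (0.975 ^ t * At e d B 0 + 50000 * (t + e + 1)) := by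
  induction t with
  | zero =>
    simp only [pow_zero, one_mul, Nat.cast_zero, zero_add]
    have : (0:ℝ) ≤ 50000 * (e + 1) := by positivity
    linarith
  | succ t ih =>
    refine (At_succ e d B t).trans ?_
    have e1 : (2:ℝ) ^ (t + 1) = 2 * 2 ^ t := by ring
    have e2 : (0.975:ℝ) ^ (t + 1) = 0.975 * 0.975 ^ t := by ring
    rw [e1, e2]
    push_cast
    have hp : (0:ℝ) < 2 ^ t := by positivity
    have h4 : (0:ℝ) ≤ t + e + 1 := by positivity
    have h5 : 1.95 * (2 ^ t * (0.975 ^ t * At e d B 0 + 50000 * (t + e + 1))) +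
        2 ^ t * (2300 * (t + e + 1)) ≤
        2 * 2 ^ t * (0.975 * 0.975 ^ t * At e d B 0 + 50000 * (t + 1 + e + 1)) := by
      have : 2 * 2 ^ t * (0.975 * 0.975 ^ t * At e d B 0 + 50000 * (t + 1 + e + 1)) -
        (1.95 * (2 ^ t * (0.975 ^ t * At e d B 0 + 50000 * (t + e + 1))) +
        2 ^ t * (2300 * (t + e + 1))) = 2 ^ t * (100000 * (t + 1 + e + 1) - 97500 * (t + e + 1)
          - 2300 * (t + e + 1)) := by ring
      have h6 : (0:ℝ) ≤ 100000 * (t + 1 + e + 1) - 97500 * (t + e + 1) - 2300 * (t + e + 1) := by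
        linarith
      have h7 := mul_nonneg hp.le h6
      linarith
    linarith

lemma At_zero (e d B : ℕ) : At e d B 0 ≤ (2 * B + 1) * (2 ^ e * (B + 1)) := by
  unfold At
  simp only [pow_zero, Finset.range_one, Finset.sum_singleton, Nat.cast_zero]
  unfold Phi Cl
  refine (sum_image_le_of_nonneg _ _ _ (fun _ => Real.sqrt_nonneg _)).trans ?_
  have h : ∀ b ∈ Finset.Icc (-(B:ℤ)) B, Real.sqrt (1 + |dev 0 0 (lev e d 0 0 b, val e d 0 0 b)|) ≤
      2 ^ e * (B + 1) := by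
    intro b hb
    rw [Finset.mem_Icc] at hb
    unfold dev val
    simp only [mul_zero, zero_add, Int.cast_zero, zero_div, sub_zero]
    have h1 := abs_iter e b
    have h2 : |b| ≤ B := abs_le.mpr hb
    have h3 : (|((T^[e] b : ℤ) : ℝ)|) + 1 ≤ 2 ^ e * (B + 1) := by
      have h4 : |T^[e] b| + 1 ≤ 2 ^ e * (B + 1) := by
        refine h1.trans ?_
        have : (0:ℤ) < 2 ^ e := by positivity
        nlinarith
      exact_mod_cast h4
    apply Real.sqrt_le_iff.mpr
    have h5 : (0:ℝ) ≤ |((T^[e] b : ℤ) : ℝ)| := abs_nonneg _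
    refine ⟨by positivity, ?_⟩
    nlinarith
  refine (Finset.sum_le_sum h).trans ?_
  rw [Finset.sum_const, nsmul_eq_mul, Int.card_Icc]
  have : (((B:ℤ) + 1 - -(B:ℤ)).toNat : ℝ) = 2 * B + 1 := by
    have e1 : ((B:ℤ) + 1 - -(B:ℤ)).toNat = 2 * B + 1 := by omega
    rw [e1]; push_cast; ring
  rw [this]

end Pool.Agent.H30.Co
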