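import Pool.Agent.H30.Co.Window

/-!
Coalescence of whole windows.
-/

set_option autoImplicit false

namespace Pool.Agent.H30.Co

open Pool.Agent.H30

/-- deviations are bounded, deterministically -/
lemma dev_bound (e d B t : ℕ) (r : ℤ) (c : ℕ × ℤ) (hc : c ∈ Cl e d B t r) :
    |dev t r c| ≤ 3 ^ (t + e) * (B + 1) := by
  unfold Cl at hc
  rw [Finset.mem_image] at hc
  obtain ⟨b, hb, rfl⟩ := hc
  rw [Finset.mem_Icc] at hb
  have h2 : |b| ≤ B := abs_le.mpr hb
  have h2R : |(b:ℝ)| ≤ B := by exact_mod_cast h2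
  obtain ⟨M, hM⟩ : ∃ M : ℤ, M = 2 ^ e * 3 ^ d * r := ⟨_, rfl⟩
  have hMR : (M:ℝ) = 2 ^ e * 3 ^ d * r := by rw [hM]; push_cast; ring
  have hspec := C_spec (t + e) (M + b)
  have hspecR : (2:ℝ) ^ (t + e) * ((T^[t + e] (M + b) : ℤ) : ℝ) =
      3 ^ S (t + e) (M + b) * (M + b) + C (t + e) (M + b) := by exact_mod_cast hspec
  have hC0 := C_nonneg (t + e) (M + b)
  have hC1 := C_le (t + e) (M + b)
  have hC0R : (0:ℝ) ≤ C (t + e) (M + b) := by exact_mod_cast hC0
  have hC1R : (C (t + e) (M + b) : ℝ) ≤ 2 ^ (t + e) * 3 ^ S (t + e) (M + b) := by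
    exact_mod_cast hC1
  have hS := S_le (t + e) (M + b)
  have hpos : (0:ℝ) < 2 ^ (t + e) := by positivity
  have h3S : (3:ℝ) ^ S (t + e) (M + b) ≤ 3 ^ (t + e) := pow_le_pow_right₀ (by norm_num) hS
  have hdev : 2 ^ (t + e) * dev t r (lev e d t r b, val e d t r b) =
      3 ^ S (t + e) (M + b) * b + C (t + e) (M + b) := by
    unfold dev lev val
    simp only
    rw [← hM, mul_sub, hspecR, hMR, pow_add 3, pow_add 2]
    field_simp
    ring
  have h1 : (1:ℝ) ≤ 2 ^ (t + e) := one_le_pow₀ (by norm_num)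
  have h3 : (0:ℝ) < 3 ^ S (t + e) (M + b) := by positivity
  have hB0 : (0:ℝ) ≤ B := by positivity
  have habs : |2 ^ (t + e) * dev t r (lev e d t r b, val e d t r b)| ≤
      2 ^ (t + e) * (3 ^ (t + e) * (B + 1)) := by
    rw [hdev]
    refine (abs_add_le _ _).trans ?_
    rw [abs_mul, abs_of_pos h3, abs_of_nonneg hC0R]
    calc 3 ^ S (t + e) (M + b) * |(b:ℝ)| + (C (t + e) (M + b) : ℝ)
        ≤ 3 ^ (t + e) * B * 2 ^ (t + e) + 2 ^ (t + e) * 3 ^ (t + e) := by
          have q1 : (3:ℝ) ^ S (t + e) (M + b) * |(b:ℝ)| ≤ 3 ^ (t + e) * B := by gcongr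
          have q2 : (2:ℝ) ^ (t + e) * 3 ^ S (t + e) (M + b) ≤ 2 ^ (t + e) * 3 ^ (t + e) := by
            gcongr
          have q3 : (3:ℝ) ^ (t + e) * B * 1 ≤ 3 ^ (t + e) * B * 2 ^ (t + e) := by gcongr
          linarith
      _ = 2 ^ (t + e) * (3 ^ (t + e) * (B + 1)) := by ring
  rw [abs_mul, abs_of_pos hpos] at habs
  exact le_of_mul_le_mul_left habs hpos

/-- the cluster of `n` itself -/
lemma self_mem (t : ℕ) (r : ℤ) : (S t r, T^[t] r) ∈ Cl 0 0 0 t r := by
  unfold Cl lev val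
  simp

lemma NM_congr {K : ℕ} {a b a' b' : ℤ} (h : NM K a b) (ha : a = a') (hb : b = b') : NM K a' b' := by
  rw [← ha, ← hb]; exact h

/-- counting for a pair of clusters -/
lemma pair_count : ∃ C : ℝ, 0 < C ∧ ∀ (K t : ℕ) (r : ℤ) (c c0 : ℕ × ℤ) (D W : ℝ),
    1 ≤ K → 0 ≤ W → |dev t r c| ≤ W → |dev t r c0| ≤ W →
    (c.1:ℝ) - c0.1 ≤ D → (c0.1:ℝ) - c.1 ≤ D → ∀ u v : ℤ, u ≤ v →
    (cnt (fun ν => NM K (c0.2 + 3 ^ c0.1 * ν) (c.2 + 3 ^ c.1 * ν)) u v : ℝ) ≤
      min 1 (C * (1 + D + Real.log (1 + 2 * W)) * rr K) * (v - u) + 2 ^ (K + 1) := by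
  obtain ⟨C, hC, hdec⟩ := decay2
  refine ⟨2 * C, by positivity, ?_⟩
  -- one-sided version
  have key : ∀ (K t : ℕ) (r : ℤ) (c c0 : ℕ × ℤ) (D W : ℝ),
    1 ≤ K → 0 ≤ W → |dev t r c| ≤ W → |dev t r c0| ≤ W → c0.1 ≤ c.1 →
    (c.1:ℝ) - c0.1 ≤ D → ∀ u v : ℤ, u ≤ v →
    (cnt (fun ν => NM K (c0.2 + 3 ^ c0.1 * ν) (c.2 + 3 ^ c.1 * ν)) u v : ℝ) ≤
      min 1 (2 * C * (1 + D + Real.log (1 + 2 * W)) * rr K) * (v - u) + 2 ^ (K + 1) := by
    intro K t r c c0 D W hK hW hc hc0 hle hD u v huv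
    obtain ⟨d', hd'⟩ : ∃ d', c.1 = c0.1 + d' := ⟨c.1 - c0.1, by omega⟩
    obtain ⟨β, hβ⟩ : ∃ β : ℤ, β = c.2 - 3 ^ d' * c0.2 := ⟨_, rfl⟩
    have ho := three_pow_mod_two c0.1
    have h1 := count K (d', β) (3 ^ c0.1) c0.2 ho u v huv
    have h2 : cnt (fun ν => NM K (c0.2 + 3 ^ c0.1 * ν) (c.2 + 3 ^ c.1 * ν)) u v ≤
        cnt (fun j => NM K (3 ^ c0.1 * j + c0.2)
          (3 ^ ((d', β) : ℕ × ℤ).1 * (3 ^ c0.1 * j + c0.2) + ((d', β) : ℕ × ℤ).2)) u v := by
      apply cnt_mono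
      intro ν _ _ h
      refine NM_congr h (by ring) ?_
      simp only
      rw [hβ, hd', pow_add]
      ring
    have h3 : (cnt (fun ν => NM K (c0.2 + 3 ^ c0.1 * ν) (c.2 + 3 ^ c.1 * ν)) u v : ℝ) ≤
        cnt (fun j => NM K (3 ^ c0.1 * j + c0.2)
          (3 ^ ((d', β) : ℕ × ℤ).1 * (3 ^ c0.1 * j + c0.2) + ((d', β) : ℕ × ℤ).2)) u v := by
      exact_mod_cast h2
    have hG : G (d', β) ≤ 2 * W + 0 ∨ G (d', β) ≤ 1 := by
      by_cases h : G (d', β) ≤ 1
      · exact Or.inr h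
      · left
        push Not at h
        have hsq : G (d', β) ^ 2 ≤ 2 * W := by
          unfold G
          rw [Real.sq_sqrt (by positivity)]
          simp only
          have e1 : (β:ℝ) = dev t r c - 3 ^ d' * dev t r c0 := by
            rw [hβ]
            unfold dev
            rw [hd', pow_add]
            push_cast
            ring
          have h3p : (1:ℝ) ≤ 3 ^ d' := one_le_pow₀ (by norm_num)
          rw [div_le_iff₀ (by positivity), e1]
          refine (abs_sub _ _).trans ?_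
          rw [abs_mul, abs_of_pos (by positivity : (0:ℝ) < 3 ^ d')]
          have := abs_nonneg (dev t r c)
          have := abs_nonneg (dev t r c0)
          nlinarith
        nlinarith
    have hlog : Real.log (1 + G (d', β)) ≤ 1 + Real.log (1 + 2 * W) := by
      have hG0 := G_nonneg (d', β)
      have hlW : 0 ≤ Real.log (1 + 2 * W) := Real.log_nonneg (by linarith)
      rcases hG with h | h
      · have : Real.log (1 + G (d', β)) ≤ Real.log (1 + 2 * W) :=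
          Real.log_le_log (by linarith) (by linarith)
        linarith
      · have h4 : Real.log (1 + G (d', β)) ≤ 1 + G (d', β) - 1 :=
          Real.log_le_sub_one_of_pos (by linarith)
        linarith
    have hrr := rr_pos K hK
    have hD' : (d':ℝ) ≤ D := by
      rw [hd'] at hD
      push_cast at hD
      linarith
    have hd0 : (0:ℝ) ≤ d' := by positivity
    have hlW : 0 ≤ Real.log (1 + 2 * W) := Real.log_nonneg (by linarith)
    have ha : a K (d', β) ≤ min 1 (2 * C * (1 + D + Real.log (1 + 2 * W)) * rr K) := by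
      apply le_min (a_le_one _ _)
      refine (hdec K hK (d', β)).trans ?_
      apply mul_le_mul_of_nonneg_right _ hrr.le
      have h5 : 1 + (d':ℝ) + Real.log (1 + G (d', β)) ≤ 2 * (1 + D + Real.log (1 + 2 * W)) := by
        linarith
      have := mul_le_mul_of_nonneg_left h5 hC.le
      simp only
      linarith
    have huv' : (0:ℝ) ≤ v - u := by
      have : (u:ℝ) ≤ v := by exact_mod_cast huv
      linarith
    have h6 := mul_le_mul_of_nonneg_right ha huv'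
    linarith
  intro K t r c c0 D W hK hW hc hc0 hD1 hD2 u v huv
  rcases le_total c0.1 c.1 with hle | hle
  · exact key K t r c c0 D W hK hW hc hc0 hle hD1 u v huv
  · have h1 := key K t r c0 c D W hK hW hc0 hc hle hD2 u v huv
    refine le_trans ?_ h1
    have h2 : cnt (fun ν => NM K (c0.2 + 3 ^ c0.1 * ν) (c.2 + 3 ^ c.1 * ν)) u v ≤
        cnt (fun ν => NM K (c.2 + 3 ^ c.1 * ν) (c0.2 + 3 ^ c0.1 * ν)) u v :=
      cnt_mono (fun _ _ _ h => h.symm)
    exact_mod_cast h2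

/-- decomposition of an interval into residue classes -/
lemma cnt_residue (P : ℤ → Prop) (M : ℕ) (hM : 1 ≤ M) (u v : ℤ) :
    cnt P u v = ∑ r ∈ Finset.range M,
      cnt (fun ν => P ((r:ℤ) + M * ν)) (-(((r:ℤ) - u) / M)) (-(((r:ℤ) - v) / M)) := by
  classical
  rw [cnt_eq, Finset.card_eq_sum_card_fiberwise (f := fun n : ℤ => (n % M).toNat)
    (t := Finset.range M)]
  · refine Finset.sum_congr rfl (fun r hr => ?_)
    have hrM : (r:ℤ) < M := by exact_mod_cast Finset.mem_range.mp hr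
    have hM0 : (0:ℤ) < M := by omega
    rw [cnt_eq]
    refine (Finset.card_bij (fun ν _ => (r:ℤ) + M * ν) ?_ ?_ ?_).symm
    · intro ν hν
      simp only [Finset.mem_filter, Finset.mem_Ico] at hν ⊢
      obtain ⟨⟨h1, h2⟩, h3⟩ := hν
      have e1 : ((r:ℤ) + M * ν) % M = r := by
        rw [Int.add_mul_emod_self_left]
        exact Int.emod_eq_of_lt (by omega) hrM
      refine ⟨⟨⟨?_, ?_⟩, h3⟩, ?_⟩
      · have h4 : -ν ≤ ((r:ℤ) - u) / M := by omega
        have h5 : (-ν) * M ≤ (r:ℤ) - u := (Int.le_ediv_iff_mul_le hM0).mp h4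
        linarith
      · have h4 : ((r:ℤ) - v) / M < -ν := by omega
        have h5 : (r:ℤ) - v < (-ν) * M := (Int.ediv_lt_iff_lt_mul hM0).mp h4
        linarith
      · rw [e1]; simp
    · intro ν _ ν' _ h
      have : (M:ℤ) * ν = M * ν' := by linarith
      exact mul_left_cancel₀ hM0.ne' this
    · intro n hn
      simp only [Finset.mem_filter, Finset.mem_Ico] at hn
      obtain ⟨⟨⟨h1, h2⟩, h3⟩, h4⟩ := hn
      have h0 : 0 ≤ n % (M:ℤ) := Int.emod_nonneg _ (by omega)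
      have h5 : n % (M:ℤ) = r := by omega
      have h6 : (r:ℤ) + M * (n / M) = n := by rw [← h5]; exact Int.emod_add_mul_ediv n M
      refine ⟨n / M, ?_, h6⟩
      simp only [Finset.mem_filter, Finset.mem_Ico]
      refine ⟨⟨?_, ?_⟩, by rw [h6]; exact h3⟩
      · have : -(n / (M:ℤ)) ≤ ((r:ℤ) - u) / M := by
          rw [Int.le_ediv_iff_mul_le hM0]
          linarith
        omega
      · have : ((r:ℤ) - v) / M < -(n / (M:ℤ)) := by
          rw [Int.ediv_lt_iff_lt_mul hM0]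
          linarith
        omega
  · intro n _
    have h0 : 0 ≤ n % (M:ℤ) := Int.emod_nonneg _ (by omega)
    have h1 : n % (M:ℤ) < M := Int.emod_lt_of_pos _ (by omega)
    simp only [Finset.coe_range, Set.mem_Iio]
    omega

lemma residue_len (M : ℕ) (hM : 1 ≤ M) (r u v : ℤ) (huv : u ≤ v) :
    -((r - u) / M) ≤ -((r - v) / M) ∧
    ((-((r - v) / M) : ℤ) : ℝ) - ((-((r - u) / M) : ℤ) : ℝ) ≤ (v - u) / M + 1 := by
  have hM0 : (0:ℤ) < M := by omega
  have hMR : (0:ℝ) < M := by exact_mod_cast hM0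
  constructor
  · have : (r - v) / (M:ℤ) ≤ (r - u) / M := Int.ediv_le_ediv hM0 (by linarith)
    omega
  · obtain ⟨p, hp⟩ : ∃ p, p = (r - u) / (M:ℤ) := ⟨_, rfl⟩
    obtain ⟨q, hq⟩ : ∃ q, q = (r - v) / (M:ℤ) := ⟨_, rfl⟩
    rw [← hp, ← hq]
    have h1 : p * M ≤ r - u := by rw [hp]; exact Int.ediv_mul_le _ hM0.ne'
    have h2 : r - v < (q + 1) * M := by rw [hq]; exact Int.lt_ediv_add_one_mul_self _ hM0
    have h1R : (p:ℝ) * M ≤ r - u := by exact_mod_cast h1
    have h2R : (r:ℝ) - v < (q + 1) * M := by exact_mod_cast h2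
    have h3 : (p:ℝ) - q - 1 ≤ (v - u) / M := by
      rw [le_div_iff₀ hMR]; linarith
    push_cast
    linarith

/-- bad event for a window -/
def Bad (e d B K : ℕ) (n : ℤ) : Prop :=
  ∃ b : ℤ, |b| ≤ B ∧ ∀ k ≤ K, T^[k] n ≠ T^[k + e] (2 ^ e * 3 ^ d * n + b)

lemma Bad_cluster (e d B t K : ℕ) (r ν : ℤ) (h : Bad e d B (K + t) (r + 2 ^ t * ν)) :
    ∃ c ∈ Cl e d B t r, NM K (T^[t] r + 3 ^ S t r * ν) (c.2 + 3 ^ c.1 * ν) := by
  classical
  obtain ⟨b, hb, hk⟩ := h
  refine ⟨(lev e d t r b, val e d t r b), ?_, ?_⟩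
  · unfold Cl
    rw [Finset.mem_image]
    exact ⟨b, Finset.mem_Icc.mpr (abs_le.mp hb), rfl⟩
  · intro k hkK
    have h1 := hk (k + t) (by omega)
    rw [Function.iterate_add_apply, iter_add] at h1
    have e1 : k + t + e = k + (t + e) := by ring
    rw [e1, Function.iterate_add_apply, val_add] at h1
    exact h1

end Pool.Agent.H30.Co
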