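import Pool.Agent.H30.Co.Window2

/-!
The window theorem.
-/

set_option autoImplicit false

namespace Pool.Agent.H30.Co

open Pool.Agent.H30

lemma card_le_Phi (e d B t : ℕ) (r : ℤ) : ((Cl e d B t r).card : ℝ) ≤ Phi e d B t r := by
  unfold Phi
  have : ∑ c ∈ Cl e d B t r, (1:ℝ) ≤ ∑ c ∈ Cl e d B t r, Real.sqrt (1 + |dev t r c|) := by
    apply Finset.sum_le_sum
    intro c _
    apply Real.one_le_sqrt.mpr
    have := abs_nonneg (dev t r c)
    linarith
  simpa using this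

lemma window_raw : ∃ C : ℝ, 0 < C ∧ ∀ (e d B t K : ℕ), 1 ≤ K → ∀ u v : ℤ, u ≤ v →
    (cnt (Bad e d B (K + t)) u v : ℝ) ≤ At e d B t *
      (C * (1 + (t + e + d) + Real.log (1 + 2 * (3 ^ (t + e) * (B + 1)))) * rr K *
        ((v - u) / 2 ^ t) + 1 + 2 ^ (K + 1)) := by
  obtain ⟨C, hC, hpair⟩ := pair_count
  refine ⟨C, hC, ?_⟩
  intro e d B t K hK u v huv
  obtain ⟨q, hq⟩ : ∃ q : ℝ, q = C * (1 + (t + e + d) +
    Real.log (1 + 2 * (3 ^ (t + e) * (B + 1)))) * rr K := ⟨_, rfl⟩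
  rw [← hq]
  have h2t : (1:ℕ) ≤ 2 ^ t := Nat.one_le_two_pow
  have h2tR : (0:ℝ) < 2 ^ t := by positivity
  have huvR : (0:ℝ) ≤ v - u := by
    have : (u:ℝ) ≤ v := by exact_mod_cast huv
    linarith
  rw [cnt_residue (Bad e d B (K + t)) (2 ^ t) h2t u v]
  push_cast
  unfold At
  rw [Finset.sum_mul]
  apply Finset.sum_le_sum
  intro r _
  obtain ⟨hle, hlen⟩ := residue_len (2 ^ t) h2t (r:ℤ) u v huv
  push_cast at hle hlen
  obtain ⟨u', hu'⟩ : ∃ u', u' = -(((r:ℤ) - u) / 2 ^ t) := ⟨_, rfl⟩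
  obtain ⟨v', hv'⟩ : ∃ v', v' = -(((r:ℤ) - v) / 2 ^ t) := ⟨_, rfl⟩
  have hle' : u' ≤ v' := by rw [hu', hv']; exact hle
  have hlen' : (v':ℝ) - u' ≤ (v - u) / 2 ^ t + 1 := by
    rw [hu', hv']; push_cast; push_cast at hlen; exact hlen
  rw [← hu', ← hv']
  have h1 : cnt (fun ν => Bad e d B (K + t) ((r:ℤ) + 2 ^ t * ν)) u' v' ≤
      cnt (fun ν => ∃ c ∈ Cl e d B t r, NM K (T^[t] (r:ℤ) + 3 ^ S t r * ν) (c.2 + 3 ^ c.1 * ν))
        u' v' := cnt_mono (fun ν _ _ h => Bad_cluster e d B t K r ν h)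
  have h2 := cnt_exists (Cl e d B t r)
    (fun c ν => NM K (T^[t] (r:ℤ) + 3 ^ S t r * ν) (c.2 + 3 ^ c.1 * ν)) u' v'
  have h3 : (cnt (fun ν => Bad e d B (K + t) ((r:ℤ) + 2 ^ t * ν)) u' v' : ℝ) ≤
      ∑ c ∈ Cl e d B t r,
        (cnt (fun ν => NM K (T^[t] (r:ℤ) + 3 ^ S t r * ν) (c.2 + 3 ^ c.1 * ν)) u' v' : ℝ) := by
    exact_mod_cast h1.trans h2
  refine h3.trans ?_
  have hW0 : (0:ℝ) ≤ 3 ^ (t + e) * (B + 1) := by positivity
  have h4 : ∀ c ∈ Cl e d B t r,
      (cnt (fun ν => NM K (T^[t] (r:ℤ) + 3 ^ S t r * ν) (c.2 + 3 ^ c.1 * ν)) u' v' : ℝ) ≤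
      q * ((v - u) / 2 ^ t) + 1 + 2 ^ (K + 1) := by
    intro c hc
    have hd1 := dev_bound e d B t r c hc
    have hd0 := dev_bound 0 0 0 t r (S t r, T^[t] r) (self_mem t r)
    have hd0' : |dev t r (S t r, T^[t] (r:ℤ))| ≤ 3 ^ (t + e) * (B + 1) := by
      refine hd0.trans ?_
      have e1 : (3:ℝ) ^ (t + 0) ≤ 3 ^ (t + e) := pow_le_pow_right₀ (by norm_num) (by omega)
      have e2 : (0:ℝ) ≤ B := by positivity
      have e3 : (0:ℝ) < 3 ^ (t + e) := by positivity
      push_cast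
      nlinarith
    have hlev : c.1 ≤ t + e + d := by
      unfold Cl at hc
      rw [Finset.mem_image] at hc
      obtain ⟨b, _, rfl⟩ := hc
      unfold lev
      have := S_le (t + e) (2 ^ e * 3 ^ d * (r:ℤ) + b)
      omega
    have hS : S t (r:ℤ) ≤ t := S_le t _
    have hlevR : (c.1:ℝ) ≤ t + e + d := by exact_mod_cast hlev
    have hSR : ((S t (r:ℤ) : ℕ) : ℝ) ≤ t := by exact_mod_cast hS
    have hc10 : (0:ℝ) ≤ c.1 := by positivity
    have hS0 : (0:ℝ) ≤ (S t (r:ℤ) : ℕ) := by positivity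
    have hed : (0:ℝ) ≤ e := by positivity
    have hdd : (0:ℝ) ≤ d := by positivity
    have h5 := hpair K t r c (S t r, T^[t] r) (t + e + d) (3 ^ (t + e) * (B + 1)) hK hW0 hd1 hd0'
      (by simp only; linarith) (by simp only; linarith) u' v' hle'
    rw [← hq] at h5
    simp only at h5
    refine h5.trans ?_
    have hm0 : min 1 q ≤ q := min_le_right _ _
    have hm1 : min 1 q ≤ 1 := min_le_left _ _
    have hm2 : 0 ≤ min 1 q := by
      apply le_min (by norm_num)
      rw [hq]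
      have := rr_pos K hK
      have : 0 ≤ Real.log (1 + 2 * (3 ^ (t + e) * ((B:ℝ) + 1))) := by
        apply Real.log_nonneg
        linarith
      positivity
    have h6 : min 1 q * ((v':ℝ) - u') ≤ min 1 q * ((v - u) / 2 ^ t + 1) :=
      mul_le_mul_of_nonneg_left hlen' hm2
    have h7 : min 1 q * ((v - u) / 2 ^ t) ≤ q * (((v:ℝ) - u) / 2 ^ t) := by
      apply mul_le_mul_of_nonneg_right hm0
      positivity
    linarith
  refine (Finset.sum_le_sum h4).trans ?_
  rw [Finset.sum_const, nsmul_eq_mul]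
  apply mul_le_mul_of_nonneg_right (card_le_Phi e d B t r)
  have hq0 : 0 ≤ q := by
    rw [hq]
    have := rr_pos K hK
    have : 0 ≤ Real.log (1 + 2 * (3 ^ (t + e) * ((B:ℝ) + 1))) := by
      apply Real.log_nonneg
      linarith
    positivity
  positivity

/-- The window theorem: for all but few `n`, all `2^e 3^d n + b` with `|b| ≤ B` coalesce with `n`
within `N` steps. -/
theorem window : ∃ C : ℝ, 0 < C ∧ ∀ (e d B N : ℕ), 1 ≤ N → ∀ u v : ℤ, u ≤ v →
    (cnt (Bad e d B N) u v : ℝ) ≤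
      C * (1 + e + Real.log (1 + B)) * (1 + e + Real.log (1 + B) + d) * rr N * (v - u) +
      C * (1 + e + Real.log (1 + B)) * 2 ^ N := by
  obtain ⟨C, hC, hraw⟩ := window_raw
  refine ⟨4300000 * 360 * C + 4300000 * 4 + 168, by positivity, ?_⟩
  intro e d B N hN u v huv
  obtain ⟨l, hl⟩ : ∃ l, l = Real.log (1 + B) := ⟨_, rfl⟩
  have hB0 : (0:ℝ) ≤ B := by positivity
  have hl0 : 0 ≤ l := by rw [hl]; exact Real.log_nonneg (by linarith)
  rw [← hl]
  obtain ⟨y, hy⟩ : ∃ y, y = 1 + (e:ℝ) + l := ⟨_, rfl⟩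
  rw [← hy]
  have he0 : (0:ℝ) ≤ e := by positivity
  have hd0 : (0:ℝ) ≤ d := by positivity
  have hy1 : 1 ≤ y := by rw [hy]; linarith
  have hey : (e:ℝ) + 1 ≤ y := by rw [hy]; linarith
  have hly : l ≤ y := by rw [hy]; linarith
  have huvR : (0:ℝ) ≤ v - u := by
    have : (u:ℝ) ≤ v := by exact_mod_cast huv
    linarith
  have hrrN := rr_pos N hN
  -- choice of t
  obtain ⟨L, hL⟩ : ∃ L, L = Nat.log 2 (B + 1) + 1 := ⟨_, rfl⟩
  obtain ⟨t, ht⟩ : ∃ t, t = 28 * (e + 1 + 2 * L) := ⟨_, rfl⟩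
  have hLb : (B:ℝ) + 1 ≤ 2 ^ L := by
    have : B + 1 ≤ 2 ^ L := by
      rw [hL]; exact (Nat.lt_pow_succ_log_self (by norm_num) (B + 1)).le
    exact_mod_cast this
  have hLu : (L:ℝ) ≤ 1 + 1.4428 * l := by
    have h4 : ((Nat.log 2 (B + 1) : ℕ) : ℝ) ≤ Real.logb 2 ((B + 1 : ℕ) : ℝ) :=
      Real.natLog_le_logb _ _
    have h5 : Real.logb 2 ((B + 1 : ℕ) : ℝ) = l / Real.log 2 := by
      rw [hl]; push_cast; rw [add_comm (1:ℝ) B]; rfl
    have h6 : l / Real.log 2 ≤ 1.4428 * l := by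
      have := Real.log_two_gt_d9
      rw [div_le_iff₀ (by linarith)]
      nlinarith
    rw [hL]; push_cast; linarith
  have htR : (t:ℝ) = 28 * (e + 1 + 2 * L) := by rw [ht]; push_cast; ring
  have hty : (t:ℝ) ≤ 84 * y := by rw [htR, hy]; linarith
  have ht1 : 1 ≤ t := by omega
  by_cases hcase : N < 2 * t
  · -- trivial range
    have h1 := cnt_le (Bad e d B N) u v huv
    have hNR : (N:ℝ) ≤ 168 * y := by
      have : (N:ℝ) ≤ 2 * t := by exact_mod_cast hcase.le
      linarith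
    have hN1 : (1:ℝ) ≤ N := by exact_mod_cast hN
    have hrr1 : 1 / (168 * y) ≤ rr N := by
      unfold rr
      have hsq : Real.sqrt N ≤ N := by
        apply Real.sqrt_le_iff.mpr
        exact ⟨by linarith, by nlinarith⟩
      have hsq0 : 0 < Real.sqrt N := Real.sqrt_pos.mpr (by linarith)
      have hlog := Real.log_nonneg hN1
      exact div_le_div₀ (by linarith) (by linarith) hsq0 (by linarith)
    have h2 : 1 ≤ 168 * y * (y + d) * rr N := by
      calc (1:ℝ) ≤ 168 * y * (y + d) * (1 / (168 * y)) := by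
            have : 168 * y * (y + d) * (1 / (168 * y)) = y + d := by field_simp
            rw [this]; linarith
        _ ≤ 168 * y * (y + d) * rr N := by gcongr
    have h3 : 1 * ((v:ℝ) - u) ≤ 168 * y * (y + d) * rr N * (v - u) :=
      mul_le_mul_of_nonneg_right h2 huvR
    have h4 : 168 * y * (y + d) * rr N * (v - u) ≤
        (4300000 * 360 * C + 4300000 * 4 + 168) * y * (y + d) * rr N * (v - u) := by
      gcongr
      have : 0 < C := hC
      linarith
    have h5 : 0 ≤ (4300000 * 360 * C + 4300000 * 4 + 168) * y * 2 ^ N := by positivity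
    linarith
  · push Not at hcase
    obtain ⟨K, hK⟩ : ∃ K, N = K + t := ⟨N - t, by omega⟩
    have hK1 : 1 ≤ K := by omega
    have hKN : N ≤ 2 * K := by omega
    have h1 := hraw e d B t K hK1 u v huv
    rw [← hK] at h1
    -- bound for At
    have hA : At e d B t ≤ 2 ^ t * (4300000 * y) := by
      refine (At_le e d B t).trans ?_
      have h975 : (0.975:ℝ) ^ t ≤ (1 / 2) ^ (e + 1 + 2 * L) := by
        rw [ht, pow_mul]
        gcongr
        norm_num
      have hA0 : At e d B 0 ≤ 2 ^ (e + 1 + 2 * L) := by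
        refine (At_zero e d B).trans ?_
        have e1 : (2:ℝ) ^ (e + 1 + 2 * L) = 2 * (2 ^ e * (2 ^ L * 2 ^ L)) := by
          rw [pow_add, pow_add, two_mul, pow_add]; ring
        rw [e1]
        have h2e : (0:ℝ) < 2 ^ e := by positivity
        calc (2 * (B:ℝ) + 1) * (2 ^ e * (B + 1)) ≤ (2 * (B + 1)) * (2 ^ e * (B + 1)) := by
              gcongr; linarith
          _ = 2 * (2 ^ e * ((B + 1) * (B + 1))) := by ring
          _ ≤ 2 * (2 ^ e * (2 ^ L * 2 ^ L)) := by gcongr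
      have hprod : (0.975:ℝ) ^ t * At e d B 0 ≤ 1 := by
        have hAn : 0 ≤ At e d B 0 := Finset.sum_nonneg (fun _ _ => Phi_nonneg _ _ _ _ _)
        calc (0.975:ℝ) ^ t * At e d B 0 ≤ (1 / 2) ^ (e + 1 + 2 * L) * 2 ^ (e + 1 + 2 * L) := by
              gcongr
          _ = 1 := by rw [← mul_pow]; norm_num
      have h5 : (0.975:ℝ) ^ t * At e d B 0 + 50000 * (t + e + 1) ≤ 4300000 * y := by
        linarith
      gcongr
    -- bound for the factor q
    have hlog : Real.log (1 + 2 * (3 ^ (t + e) * ((B:ℝ) + 1))) ≤ 95 * y := by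
      have hW1 : (1:ℝ) ≤ 3 ^ (t + e) * ((B:ℝ) + 1) := by
        have : (1:ℝ) ≤ 3 ^ (t + e) := one_le_pow₀ (by norm_num)
        nlinarith
      have h3 : Real.log (1 + 2 * (3 ^ (t + e) * ((B:ℝ) + 1))) ≤
          Real.log (3 ^ (t + e + 1) * (1 + B)) := by
        apply Real.log_le_log (by linarith)
        have : (3:ℝ) ^ (t + e + 1) * (1 + B) = 3 * (3 ^ (t + e) * ((B:ℝ) + 1)) := by ring
        rw [this]; linarith
      rw [Real.log_mul (by positivity) (by linarith), Real.log_pow, ← hl] at h3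
      have hl3 : Real.log 3 ≤ 1.1 := by
        have h4 : Real.log 3 = Real.log 2 + Real.log (3 / 2) := by
          rw [← Real.log_mul (by norm_num) (by norm_num)]; norm_num
        have h5 : Real.log ((3:ℝ) / 2) = -Real.log (2 / 3) := by
          rw [← Real.log_inv]; norm_num
        have h6 : Real.log (3:ℝ) ≤ 1.1 := by
          rw [Real.log_le_iff_le_exp (by norm_num)]
          have h7 : Real.exp 1.1 = Real.exp 1 * Real.exp 0.1 := by
            rw [← Real.exp_add]; norm_num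
          have h8 := Real.exp_one_gt_d9
          have h9 : (1:ℝ) + 0.1 + 0.1 ^ 2 / 2 ≤ Real.exp 0.1 := Real.quadratic_le_exp_of_nonneg (by norm_num)
          rw [h7]
          calc (3:ℝ) ≤ 2.7182818283 * (1 + 0.1 + 0.1 ^ 2 / 2) := by norm_num
            _ ≤ Real.exp 1 * Real.exp 0.1 := by
              apply mul_le_mul h8.le h9 (by norm_num) (Real.exp_pos _).le
        exact h6
      push_cast at h3
      have h10 : ((t:ℝ) + e + 1) * Real.log 3 ≤ (t + e + 1) * 1.1 := by gcongr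
      linarith
    have hq : C * (1 + (t + e + d) + Real.log (1 + 2 * (3 ^ (t + e) * ((B:ℝ) + 1)))) * rr K ≤
        360 * C * (y + d) * rr N := by
      have hKR : (1:ℝ) ≤ K := by exact_mod_cast hK1
      have hrK : rr K ≤ 2 * rr N := by
        refine (rr_le (N := N) hK1 (by omega)).trans ?_
        apply mul_le_mul_of_nonneg_right _ hrrN.le
        rw [div_le_iff₀ (by linarith)]
        exact_mod_cast hKN
      have hrK0 := rr_pos K hK1
      have h3 : 1 + ((t:ℝ) + e + d) + Real.log (1 + 2 * (3 ^ (t + e) * ((B:ℝ) + 1))) ≤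
          180 * (y + d) := by linarith
      calc C * (1 + (t + e + d) + Real.log (1 + 2 * (3 ^ (t + e) * ((B:ℝ) + 1)))) * rr K
          ≤ C * (180 * (y + d)) * (2 * rr N) := by gcongr
        _ = 360 * C * (y + d) * rr N := by ring
    have h2t : (0:ℝ) < 2 ^ t := by positivity
    have h2N : (2:ℝ) ^ N = 2 ^ t * 2 ^ K := by rw [hK, pow_add]; ring
    have hfac : C * (1 + (t + e + d) + Real.log (1 + 2 * (3 ^ (t + e) * ((B:ℝ) + 1)))) * rr K *
        (((v:ℝ) - u) / 2 ^ t) + 1 + 2 ^ (K + 1) ≤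
        360 * C * (y + d) * rr N * ((v - u) / 2 ^ t) + 4 * 2 ^ K := by
      have h3 : C * (1 + (t + e + d) + Real.log (1 + 2 * (3 ^ (t + e) * ((B:ℝ) + 1)))) * rr K *
        (((v:ℝ) - u) / 2 ^ t) ≤ 360 * C * (y + d) * rr N * ((v - u) / 2 ^ t) := by
        apply mul_le_mul_of_nonneg_right hq; positivity
      have h4 : (1:ℝ) ≤ 2 ^ K := one_le_pow₀ (by norm_num)
      have h5 : (2:ℝ) ^ (K + 1) = 2 * 2 ^ K := by ring
      linarith
    have hAn : 0 ≤ At e d B t := Finset.sum_nonneg (fun _ _ => Phi_nonneg _ _ _ _ _)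
    have hR0 : 0 ≤ 360 * C * (y + d) * rr N * (((v:ℝ) - u) / 2 ^ t) + 4 * 2 ^ K := by positivity
    calc (cnt (Bad e d B N) u v : ℝ) ≤ _ := h1
      _ ≤ At e d B t * (360 * C * (y + d) * rr N * ((v - u) / 2 ^ t) + 4 * 2 ^ K) := by
          apply mul_le_mul_of_nonneg_left hfac hAn
      _ ≤ 2 ^ t * (4300000 * y) * (360 * C * (y + d) * rr N * ((v - u) / 2 ^ t) + 4 * 2 ^ K) := by
          apply mul_le_mul_of_nonneg_right hA hR0
      _ = 4300000 * 360 * C * y * (y + d) * rr N * (v - u) + 4300000 * 4 * y * (2 ^ t * 2 ^ K) := by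
          field_simp
      _ ≤ _ := by
          rw [← h2N]
          have q1 : 4300000 * 360 * C * y * (y + d) * rr N * (v - u) ≤
              (4300000 * 360 * C + 4300000 * 4 + 168) * y * (y + d) * rr N * ((v:ℝ) - u) := by
            gcongr; linarith
          have q2 : 4300000 * 4 * y * (2:ℝ) ^ N ≤
              (4300000 * 360 * C + 4300000 * 4 + 168) * y * 2 ^ N := by
            gcongr
            have : 0 < C := hC
            linarith
          linarith

end Pool.Agent.H30.Co
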